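import Pool.Agent.H60.Core

/-! Uniform block patterns and their refutation by certificates. -/

set_option autoImplicit false

namespace Pool.Agent.H60

open Finset Classical

variable {V : Type}

/-- table of a block template -/
def BT (t0 t1 t2 t3 : ℕ → ℕ → ℕ) (i j : ℕ) : ℕ :=
  if Nat.beq (j / 8) 0 then t0 (i % 8) (j % 8) else
  if Nat.beq (i / 8) 0 then t1 (i % 8) (j % 8) else
  if Nat.beq (i / 8) (j / 8) then t2 (i % 8) (j % 8) else t3 (i % 8) (j % 8)

def bdom (S F m : ℕ) (c : ℕ) : Bool :=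
  if Nat.beq (c / 8) 0 then Nat.blt (c % 8) S else Nat.ble (c / 8) (m + 2) && Nat.blt (c % 8) F

/-- codes of the two extension blocks -/
def isx (m : ℕ) (c : ℕ) : Bool := Nat.beq (c / 8) 1 || Nat.beq (c / 8) (m + 2)

def nox (m : ℕ) : List ℕ → Bool
  | [] => true
  | a :: t => !(isx m a) && nox m t

def okB (T : ℕ → ℕ → ℕ) (dom : ℕ → Bool) (m : ℕ) (kn S : List ℕ) (e : ℕ) : Bool :=
  let p := decq e
  let a := p.1; let b := p.2.1; let c := p.2.2.1; let d := p.2.2.2
  vq T dom kn e && (nox m S &&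
  ((isx m a && (inl b S && (inl c S && inl d S))) ||
   ((isx m b && (inl a S && (inl c S && inl d S))) ||
   ((isx m c && (inl a S && (inl b S && inl d S))) ||
    (isx m d && (inl a S && (inl b S && inl c S)))))))

/-- a uniform family of blocks -/
structure Uni (G : SimpleGraph V) (S F n : ℕ) (sg : ℕ → V) (fm : ℕ → ℕ → V) (v : ℕ → Bool)
    (t0 t1 t2 t3 : ℕ → ℕ → ℕ) : Prop where
  a0 : ∀ s t, s < t → t < S → (G.Adj (sg s) (sg t) ↔ lv v (t0 s t) = true)
  a1 : ∀ s t i, s < S → t < F → i < n → (G.Adj (sg s) (fm t i) ↔ lv v (t1 s t) = true)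
  a2 : ∀ s t i, s < t → t < F → i < n → (G.Adj (fm s i) (fm t i) ↔ lv v (t2 s t) = true)
  a3 : ∀ s t i j, s < F → t < F → i < j → j < n →
    (G.Adj (fm s i) (fm t j) ↔ lv v (t3 s t) = true)
  d0 : ∀ s t, s < t → t < S → sg s ≠ sg t
  d1 : ∀ s t i, s < S → t < F → i < n → sg s ≠ fm t i
  d2 : ∀ s t i, s < t → t < F → i < n → fm s i ≠ fm t i
  d3 : ∀ s t i j, s < F → t < F → i < j → j < n → fm s i ≠ fm t j

lemma nox_iff {m : ℕ} {L : List ℕ} : nox m L = true ↔ ∀ c ∈ L, isx m c = false := by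
  induction L with
  | nil => simp [nox]
  | cons a t ih => simp [nox, ih]

/-- block index map -/
def sig (q m k1 k2 b : ℕ) : ℕ := if b = 1 then k1 else if b = m + 2 then q + m + k2 else q + b - 2

/-- realisation map -/
def rmap (sg : ℕ → V) (fm : ℕ → ℕ → V) (q m k1 k2 c : ℕ) : V :=
  if c / 8 = 0 then sg (c % 8) else fm (c % 8) (sig q m k1 k2 (c / 8))

lemma sig_lt {q m k1 k2 b b' : ℕ} (h1 : k1 < q) (hb : 1 ≤ b) (hbb : b < b') (hb' : b' ≤ m + 2)
    (h2 : k2 < q) : sig q m k1 k2 b < sig q m k1 k2 b' ∧ sig q m k1 k2 b' < 2 * q + m := by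
  unfold sig
  split_ifs <;> omega

lemma Uni.rl {G : SimpleGraph V} {S F n : ℕ} {sg : ℕ → V} {fm : ℕ → ℕ → V} {v : ℕ → Bool}
    {t0 t1 t2 t3 : ℕ → ℕ → ℕ} (h : Uni G S F n sg fm v t0 t1 t2 t3) {q m k1 k2 : ℕ}
    (hn : 2 * q + m ≤ n) (h1 : k1 < q) (h2 : k2 < q) :
    Rl G (BT t0 t1 t2 t3) (bdom S F m) v (rmap sg fm q m k1 k2) := by
  have key : ∀ i j, bdom S F m i = true → bdom S F m j = true → i < j →
      (j / 8 = 0 ∧ i / 8 = 0 ∧ i % 8 < j % 8 ∧ j % 8 < S) ∨
      (j / 8 ≠ 0 ∧ i / 8 = 0 ∧ i % 8 < S ∧ j % 8 < F ∧ sig q m k1 k2 (j / 8) < n) ∨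
      (j / 8 ≠ 0 ∧ i / 8 ≠ 0 ∧ i / 8 = j / 8 ∧ i % 8 < j % 8 ∧ j % 8 < F ∧
        sig q m k1 k2 (j / 8) < n) ∨
      (j / 8 ≠ 0 ∧ i / 8 ≠ 0 ∧ i / 8 ≠ j / 8 ∧ i % 8 < F ∧ j % 8 < F ∧
        sig q m k1 k2 (i / 8) < sig q m k1 k2 (j / 8) ∧ sig q m k1 k2 (j / 8) < n) := by
    intro i j hi hj hij
    unfold bdom at hi hj
    have hjn : j / 8 ≠ 0 → j / 8 ≤ m + 2 → sig q m k1 k2 (j / 8) < n := by
      intro ha hb
      unfold sig
      split_ifs <;> omega
    by_cases hj0 : j / 8 = 0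
    · have hi0 : i / 8 = 0 := by omega
      rw [if_pos (by simpa using hj0)] at hj
      rw [if_pos (by simpa using hi0)] at hi
      simp only [Nat.blt_eq] at hi hj
      left; refine ⟨hj0, hi0, by omega, hj⟩
    · rw [if_neg (by simpa using hj0)] at hj
      simp only [Bool.and_eq_true, Nat.ble_eq, Nat.blt_eq] at hj
      by_cases hi0 : i / 8 = 0
      · rw [if_pos (by simpa using hi0)] at hi
        simp only [Nat.blt_eq] at hi
        right; left; exact ⟨hj0, hi0, hi, hj.2, hjn hj0 hj.1⟩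
      · rw [if_neg (by simpa using hi0)] at hi
        simp only [Bool.and_eq_true, Nat.ble_eq, Nat.blt_eq] at hi
        by_cases he : i / 8 = j / 8
        · right; right; left; exact ⟨hj0, hi0, he, by omega, hj.2, hjn hj0 hj.1⟩
        · right; right; right
          have := sig_lt (q := q) (m := m) (k1 := k1) (k2 := k2) (b := i / 8) (b' := j / 8)
            h1 (by omega) (by omega) hj.1 h2
          exact ⟨hj0, hi0, he, hi.2, hj.2, this.1, hjn hj0 hj.1⟩
  constructor
  · intro i j hi hj hij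
    unfold rmap BT
    rcases key i j hi hj hij with ⟨a, b, c, d⟩ | ⟨a, b, c, d, e⟩ | ⟨a, b, c, d, e, e'⟩ |
      ⟨a, b, c, d, e, e', e''⟩
    · rw [if_pos b, if_pos a, if_pos (by simpa using a)]
      exact h.a0 _ _ c d
    · rw [if_pos b, if_neg a, if_neg (by simpa using a), if_pos (by simpa using b)]
      exact h.a1 _ _ _ c d e
    · rw [if_neg b, if_neg a, if_neg (by simpa using a), if_neg (by simpa using b),
        if_pos (by simpa using c), c]
      exact h.a2 _ _ _ d e e'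
    · rw [if_neg b, if_neg a, if_neg (by simpa using a), if_neg (by simpa using b),
        if_neg (by simpa using c)]
      exact h.a3 _ _ _ _ d e e' e''
  · intro i j hi hj hij
    unfold rmap
    rcases key i j hi hj hij with ⟨a, b, c, d⟩ | ⟨a, b, c, d, e⟩ | ⟨a, b, c, d, e, e'⟩ |
      ⟨a, b, c, d, e, e', e''⟩
    · rw [if_pos b, if_pos a]
      exact h.d0 _ _ c d
    · rw [if_pos b, if_neg a]
      exact h.d1 _ _ _ c d e
    · rw [if_neg b, if_neg a, c]
      exact h.d2 _ _ _ d e e'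
    · rw [if_neg b, if_neg a]
      exact h.d3 _ _ _ _ d e e' e''

lemma okB_spec {T : ℕ → ℕ → ℕ} {dom : ℕ → Bool} {m : ℕ} {kn S : List ℕ} {e : ℕ}
    (h : okB T dom m kn S e = true) :
    vq T dom kn e = true ∧ (∀ c ∈ S, isx m c = false) ∧
      ∃ x ∈ codes e, isx m x = true ∧ ∀ c ∈ codes e, c = x ∨ c ∈ S := by
  simp only [okB, Bool.and_eq_true, Bool.or_eq_true, inl_iff, nox_iff] at h
  obtain ⟨h1, h2, h3⟩ := h
  refine ⟨h1, h2, ?_⟩
  rcases h3 with ⟨a, b, c, d⟩ | ⟨a, b, c, d⟩ | ⟨a, b, c, d⟩ | ⟨a, b, c, d⟩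
  all_goals
    refine ⟨_, ?_, a, ?_⟩
    · simp [codes]
    · intro x hx
      simp only [codes, List.mem_cons, List.not_mem_nil, or_false] at hx
      rcases hx with rfl | rfl | rfl | rfl <;> tauto

/-- the refutation theorem -/
theorem block_contra {G : SimpleGraph V} {q TT : ℕ} (hT : TT + 1 ≤ q) (hT2 : 1 ≤ TT) (h : Few G q)
    {S F n m : ℕ} (hn : 2 * q + m ≤ n) {sg : ℕ → V} {fm : ℕ → ℕ → V} {v : ℕ → Bool}
    {t0 t1 t2 t3 : ℕ → ℕ → ℕ} (hU : Uni G S F n sg fm v t0 t1 t2 t3) (ex : List ℕ → Bool)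
    (hex : ∀ kn, ex kn = true → (∀ l ∈ kn, lv v l = true) → False)
    (kn : List ℕ) (hkn : ∀ l ∈ kn, lv v l = true) (tr : Tr)
    (hc : chk (BT t0 t1 t2 t3) (bdom S F m) TT (okB (BT t0 t1 t2 t3) (bdom S F m) m) ex kn tr = true) :
    False := by
  obtain ⟨kn', N, e, hk, hl⟩ := chk_sound v hex tr kn hc hkn
  have hq0 : 0 < q := by omega
  have R0 := hU.rl (q := q) (m := m) (k1 := 0) (k2 := 0) hn hq0 hq0
  obtain ⟨f1, f2, f3⟩ := leaf_facts R0 hk hl
  obtain ⟨g1, g2, x, hx, hxx, hxS⟩ := okB_spec f3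
  set L := supp (pieces TT N) with hL
  set f := rmap sg fm q m with hf
  have hfix : ∀ c, isx m c = false → ∀ k1 k2, f k1 k2 c = f 0 0 c := by
    intro c hc k1 k2
    simp only [isx, Bool.or_eq_false_iff] at hc
    have h1 : c / 8 ≠ 1 := by intro h; simp [h] at hc
    have h2 : c / 8 ≠ m + 2 := by intro h; simp [h] at hc
    simp only [hf, rmap, sig, if_neg h1, if_neg h2]
  have hmain : ∀ k1 k2, k1 < q → k2 < q → ∃ A, IsP4 G A ∧ f k1 k2 x ∈ A ∧
      A ⊆ insert (f k1 k2 x) (L.toFinset.image (f 0 0)) := by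
    intro k1 k2 hk1 hk2
    have R := hU.rl (q := q) (m := m) (k1 := k1) (k2 := k2) hn hk1 hk2
    refine ⟨qset (f k1 k2) e, ⟨_, _, _, _, rfl, vq_ip R hk g1⟩, ?_, ?_⟩
    · rw [qset_eq]; exact mem_image_of_mem _ (by simpa using hx)
    · intro y hy
      rw [qset_eq, mem_image] at hy
      obtain ⟨c, hc, rfl⟩ := hy
      rw [List.mem_toFinset] at hc
      rcases hxS c hc with rfl | hcS
      · exact mem_insert_self _ _
      · refine mem_insert_of_mem (mem_image.2 ⟨c, by simpa using hcS, ?_⟩)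
        exact (hfix c (g2 c hcS) k1 k2).symm
  have hxd : bdom S F m x = true := vq_dom g1 x hx
  simp only [isx, Bool.or_eq_true, Nat.beq_eq] at hxx
  have hxF : x % 8 < F := by
    unfold bdom at hxd
    rw [if_neg (by simp; omega)] at hxd
    simp only [Bool.and_eq_true, Nat.blt_eq] at hxd
    exact hxd.2
  have hinj : ∀ i j, i < n → j < n → fm (x % 8) i = fm (x % 8) j → i = j := by
    intro i j hi hj he
    rcases Nat.lt_trichotomy i j with h1 | h1 | h1
    · exact (hU.d3 _ _ _ _ hxF hxF h1 hj he).elim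
    · exact h1
    · exact (hU.d3 _ _ _ _ hxF hxF h1 hi he.symm).elim
  rcases hxx with hx1 | hx2
  · -- first block
    refine ext_contra' (q := q) (by omega) h (L.toFinset.image (f 0 0)) (f1.trans hT) (by omega)
      ((range q).image (fun k => f k 0 x)) ?_ ?_
    · rw [card_image_of_injOn, card_range]
      intro i hi j hj he
      have hi' : i < q := by simpa using hi
      have hj' : j < q := by simpa using hj
      simp only [hf, rmap, sig, hx1, if_true] at he
      exact hinj i j (by omega) (by omega) (by simpa using he)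
    · intro y hy
      obtain ⟨k, hk, rfl⟩ := mem_image.1 hy
      exact hmain k 0 (mem_range.1 hk) hq0
  · refine ext_contra' (q := q) (by omega) h (L.toFinset.image (f 0 0)) (f1.trans hT) (by omega)
      ((range q).image (fun k => f 0 k x)) ?_ ?_
    · rw [card_image_of_injOn, card_range]
      intro i hi j hj he
      have hi' : i < q := by simpa using hi
      have hj' : j < q := by simpa using hj
      have hs : ∀ k, sig q m 0 k (x / 8) = q + m + k := by
        intro k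
        unfold sig
        rw [hx2, if_neg (by omega), if_pos rfl]
      have h80 : x / 8 ≠ 0 := by omega
      simp only [hf, rmap, if_neg h80, hs] at he
      have := hinj _ _ (by omega) (by omega) he
      omega
    · intro y hy
      obtain ⟨k, hk, rfl⟩ := mem_image.1 hy
      exact hmain 0 k hq0 (mem_range.1 hk)

end Pool.Agent.H60
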