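import Pool.Agent.H60.Y

/-! Scattered subsets of a layer are bounded. -/

set_option autoImplicit false
set_option linter.unusedSimpArgs false
set_option linter.unnecessarySeqFocus false
set_option linter.unusedVariables false
set_option linter.deprecated false

namespace Pool.Agent.H60

open Finset Classical

section
variable {V : Type} {G : SimpleGraph V} {a b : V} {lev : V → ℕ} {c : V → V}

lemma Ly.ne_a (h : Ly G a b lev c) {v : V} (hv : 1 ≤ lev v) : v ≠ a := by
  rintro rfl
  rw [h.lev_a] at hv; omega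

lemma Ly.compl (h : Ly G a b lev c) : Ly Gᶜ a b lev c := by
  refine ⟨h.ne, fun v k => by rw [cl_compl]; exact h.mem v k, fun v hv => ?_⟩
  obtain ⟨h1, h2⟩ := h.ch v hv
  refine ⟨h1, ?_⟩
  have n1 : v ≠ c v := by intro he; rw [← he] at h1; omega
  have n2 := h.ne_a hv
  simp only [SimpleGraph.compl_adj]
  tauto

/-- a path starting at a vertex of level at least 2 and going down -/
lemma Ly.handle (h : Ly G a b lev c) {z : V} (hz : 2 ≤ lev z) :
    ∃ x y, lev x < lev z ∧ lev y < lev z ∧ G.Adj z x ∧ G.Adj x y ∧ ¬ G.Adj z y := by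
  obtain ⟨h1, h2⟩ := h.ch z (by omega)
  obtain ⟨h3, h4⟩ := h.ch (c z) (by omega)
  have ha := h.lev_a
  have e1 := h.hom (u := a) (v := z) (by omega)
  have e2 := h.hom (u := c (c z)) (v := z) (by omega)
  by_cases hza : G.Adj z a
  · -- `y = c z`
    have hzc : ¬ G.Adj z (c z) := fun h' => h2 ⟨fun _ => hza, fun _ => h'⟩
    by_cases hca : G.Adj (c z) a
    · exact ⟨a, c z, by omega, by omega, hza, hca.symm, hzc⟩
    · have hcc : G.Adj (c z) (c (c z)) := by tauto
      exact ⟨c (c z), c z, by omega, by omega, e2.2 hza, hcc.symm, hzc⟩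
  · have hzc : G.Adj z (c z) := by tauto
    by_cases hca : G.Adj (c z) a
    · exact ⟨c z, a, by omega, by omega, hzc, hca, hza⟩
    · have hcc : G.Adj (c z) (c (c z)) := by tauto
      exact ⟨c z, c (c z), by omega, by omega, hzc, hcc, fun h' => hza (e2.1 h')⟩

end

/-- parents of a vertex, one sign -/
lemma d1a (q : ℕ) (hq : 8 ≤ q) : ∃ N : ℕ, ∀ (V : Type) [Finite V] (G : SimpleGraph V), Few G q →
    Prm G → ∀ (a b : V) (lev : V → ℕ) (c : V → V), Ly G a b lev c → ∀ z, 3 ≤ lev z →
    ∀ X : Finset V, Scat G X → (∀ v ∈ X, Chd G a lev v z ∧ ¬ G.Adj v a) → X.card ≤ N := by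
  obtain ⟨N, hN⟩ := broom q hq
  refine ⟨N, fun V _ G hF hG a b lev c hL z hz X hS hX => ?_⟩
  by_contra hcon
  obtain ⟨x, y, hx, hy, h1, h2, h3⟩ := hL.handle (z := z) (by omega)
  refine hN V G hF hG X hS (by omega) z x y h1 h2 h3 ?_ ?_
  · intro he; rw [he] at hy; omega
  · intro v hv
    obtain ⟨⟨h4, h5⟩, h6⟩ := hX v hv
    have e1 := hL.hom (u := x) (v := v) (by omega)
    have e2 := hL.hom (u := y) (v := v) (by omega)
    refine ⟨?_, fun h => h6 (e1.1 h.symm), fun h => h6 (e2.1 h.symm), ?_, ?_⟩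
    · have : G.Adj v z := by tauto
      exact this.symm
    · intro he; rw [he] at hx; omega
    · intro he; rw [he] at hy; omega

lemma d1 (q : ℕ) (hq : 8 ≤ q) : ∃ N : ℕ, ∀ (V : Type) [Finite V] (G : SimpleGraph V), Few G q →
    Prm G → ∀ (a b : V) (lev : V → ℕ) (c : V → V), Ly G a b lev c → ∀ z, 3 ≤ lev z →
    ∀ X : Finset V, Scat G X → (∀ v ∈ X, Chd G a lev v z) → X.card ≤ N := by
  obtain ⟨N, hN⟩ := d1a q hq
  refine ⟨N + N, fun V _ G hF hG a b lev c hL z hz X hS hX => ?_⟩
  have e := card_filter_add_card_filter_not (s := X) (fun v => ¬ G.Adj v a)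
  have h1 := hN V G hF hG a b lev c hL z hz (X.filter (fun v => ¬ G.Adj v a))
    (hS.mono (filter_subset _ _)) (fun v hv => ⟨hX v (mem_filter.1 hv).1, (mem_filter.1 hv).2⟩)
  have h2 := hN V Gᶜ hF.compl hG.compl a b lev c hL.compl z hz (X.filter (fun v => ¬ ¬ G.Adj v a))
    (Scat_compl.2 (hS.mono (filter_subset _ _))) (by
      intro v hv
      obtain ⟨hv1, hv2⟩ := mem_filter.1 hv
      obtain ⟨h3, h4⟩ := hX v hv1
      have n1 : v ≠ z := by rintro rfl; omega
      have n2 := hL.ne_a (v := v) (by omega)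
      refine ⟨⟨h3, ?_⟩, ?_⟩
      · simp only [SimpleGraph.compl_adj]; tauto
      · simp only [SimpleGraph.compl_adj]; tauto)
  omega

/-- members of a sun: parents are partners or have common children -/
lemma Sun.par {V : Type} {G : SimpleGraph V} {Y : Finset V} {p : V → V} (hY : Sun G Y p) {u u0 : V}
    (hu : u ∈ Y) (hu0 : u0 ∈ Y) (hne : u ≠ u0) {v : V} (h1 : v ≠ u) (h2 : v ≠ u0) :
    v = p u ∨ v = p u0 ∨ (G.Adj v u ↔ G.Adj v u0) := by
  by_cases h : (G.Adj v u ↔ G.Adj v u0)
  · exact Or.inr (Or.inr h)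
  · have : v ∈ Ds G u u0 := ⟨h1, h2, h⟩
    rw [hY.ds u hu u0 hu0 hne] at this
    rcases this with h | h
    · exact Or.inl h
    · exact Or.inr (Or.inl h)

lemma Sun.tw' {V : Type} {G : SimpleGraph V} {Y : Finset V} {p : V → V} (hY : Sun G Y p) {u u0 : V}
    (hu : u ∈ Y) (hu0 : u0 ∈ Y) (hne : u ≠ u0) : Tw G (p u) (p u0) :=
  ⟨u, u0, hne, hY.ds' u hu u0 hu0 hne, hY.ds u hu u0 hu0 hne⟩

/-- common child -/
theorem common (m C : ℕ) : ∃ N : ℕ, ∀ (V : Type) (G : SimpleGraph V) (X : Finset V) (c : V → V)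
    (P : V → Prop), Scat G X → N ≤ X.card → (∀ v ∈ X, ∀ v' ∈ X, v ≠ c v') →
    (∀ v ∈ X, ¬ (G.Adj v (c v) ↔ P v)) → (∀ Y ⊆ X.image c, Scat G Y → Y.card ≤ C) →
    ∃ u ∈ X.image c, ∃ X' ⊆ X, m ≤ X'.card ∧ ∀ v ∈ X', ¬ (G.Adj v u ↔ P v) := by
  obtain ⟨N1, hN1⟩ := scat_or_sun (C + 1) (m + 3)
  refine ⟨N1 * m + 1, fun V G X c P hS hX hne hP hC => ?_⟩
  by_cases hbig : N1 ≤ (X.image c).card
  · rcases hN1 V G (X.image c) hbig with ⟨Y, hY, hYS, hYc⟩ | ⟨Y, hY, hYc, p, hp⟩
    · have := hC Y hY hYS; omega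
    · have hex : ∀ u ∈ Y, ∃ v ∈ X, c v = u := fun u hu => mem_image.1 (hY hu)
      have : Nonempty V := by
        obtain ⟨u, _⟩ := card_pos.1 (show 0 < Y.card by omega)
        exact ⟨u⟩
      choose! w hw hcw using hex
      obtain ⟨u0, hu0⟩ : Y.Nonempty := card_pos.1 (by omega)
      have hinj : ∀ u ∈ Y, ∀ u' ∈ Y, w u = w u' → u = u' := by
        intro u hu u' hu' he
        rw [← hcw u hu, ← hcw u' hu', he]
      have hwn : ∀ u ∈ Y, ∀ u' ∈ Y, w u ≠ u' := by
        intro u hu u' hu' he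
        rw [← hcw u' hu'] at he
        exact hne _ (hw u hu) _ (hw u' hu') he
      let E1 := Y.filter (fun u => w u = p u)
      let E2 := Y.filter (fun u => w u = p u0)
      have hE1 : E1.card ≤ 1 := by
        rw [card_le_one]
        intro u hu u' hu'
        obtain ⟨h1, h2⟩ := mem_filter.1 hu
        obtain ⟨h3, h4⟩ := mem_filter.1 hu'
        by_contra hc
        have h5 := hp.tw' h1 h3 hc
        rw [← h2, ← h4] at h5
        exact hS _ (hw u h1) _ (hw u' h3) (fun he => hc (hinj u h1 u' h3 he)) h5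
      have hE2 : E2.card ≤ 1 := by
        rw [card_le_one]
        intro u hu u' hu'
        obtain ⟨h1, h2⟩ := mem_filter.1 hu
        obtain ⟨h3, h4⟩ := mem_filter.1 hu'
        exact hinj u h1 u' h3 (h2.trans h4.symm)
      let Z := ((Y.erase u0) \ E1) \ E2
      have hZc : m ≤ Z.card := by
        have e1 := le_card_sdiff E2 ((Y.erase u0) \ E1)
        have e2 := le_card_sdiff E1 (Y.erase u0)
        have e3 : (Y.erase u0).card = Y.card - 1 := card_erase_of_mem hu0
        show m ≤ (((Y.erase u0) \ E1) \ E2).card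
        omega
      have hZY : Z ⊆ Y := (sdiff_subset.trans sdiff_subset).trans (erase_subset _ _)
      refine ⟨u0, hY hu0, Z.image w, ?_, ?_, ?_⟩
      · intro v hv
        obtain ⟨u, hu, rfl⟩ := mem_image.1 hv
        exact hw u (hZY hu)
      · rw [card_image_of_injOn]
        · exact hZc
        · intro u hu u' hu' he
          exact hinj u (hZY hu) u' (hZY hu') he
      · intro v hv
        obtain ⟨u, hu, rfl⟩ := mem_image.1 hv
        have huY := hZY hu
        simp only [Z, E1, E2, mem_sdiff, mem_erase, mem_filter, not_and] at hu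
        obtain ⟨⟨⟨h1, _⟩, h2⟩, h3⟩ := hu
        have h4 := hP _ (hw u huY)
        rw [hcw u huY] at h4
        rcases hp.par huY hu0 h1 (hwn u huY u huY) (hwn u huY u0 hu0) with h5 | h5 | h5
        · exact (h2 huY h5).elim
        · exact (h3 huY h5).elim
        · rwa [← h5]
  · have hXne : X.Nonempty := card_pos.1 (by omega)
    obtain ⟨u, hu, hc⟩ := Finset.exists_le_card_fiber_of_mul_le_card_of_maps_to
      (s := X) (t := X.image c) (f := c) (n := m) (fun v hv => mem_image_of_mem _ hv)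
      (hXne.image c) (by
        have : (X.image c).card * m ≤ N1 * m := Nat.mul_le_mul_right m (by omega)
        omega)
    refine ⟨u, hu, _, filter_subset _ _, hc, ?_⟩
    intro v hv
    obtain ⟨h1, h2⟩ := mem_filter.1 hv
    rw [← h2]
    exact hP v h1

/-- `a, b` has the largest closure time -/
def Mxp {V : Type} (G : SimpleGraph V) (a b : V) : Prop :=
  ∀ p p', p ≠ p' → ∀ k, cl G k {a, b} = Set.univ → cl G k {p, p'} = Set.univ

lemma exists_mxp {V : Type} [Finite V] {G : SimpleGraph V} (hG : Prm G) :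
    ∃ a b, a ≠ b ∧ Mxp G a b := by
  obtain ⟨x, y, z, hxy, _⟩ := hG.three
  have hex : ∀ p : {p : V × V // p.1 ≠ p.2}, ∃ k, cl G k {p.1.1, p.1.2} = Set.univ :=
    fun p => hG.exists_univ (Set.nontrivial_pair p.2)
  let T : {p : V × V // p.1 ≠ p.2} → ℕ := fun p => Nat.find (hex p)
  have : Nonempty {p : V × V // p.1 ≠ p.2} := ⟨⟨(x, y), hxy⟩⟩
  obtain ⟨p0, hp0⟩ := Finite.exists_max T
  refine ⟨p0.1.1, p0.1.2, p0.2, ?_⟩
  intro p p' hpp k hk
  have h1 : T p0 ≤ k := Nat.find_min' _ hk
  have h2 := hp0 ⟨(p, p'), hpp⟩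
  have h3 := Nat.find_spec (hex ⟨(p, p'), hpp⟩)
  have h4 : cl G (T ⟨(p, p'), hpp⟩) {p, p'} ⊆ cl G k {p, p'} := cl_mono (h2.trans h1)
  exact Set.eq_univ_of_univ_subset (by rw [← h3]; exact h4)

/-- scattered subsets of a low level are bounded -/
theorem lowb (q : ℕ) (hq : 8 ≤ q) (j : ℕ) : ∃ C : ℕ, ∀ (V : Type) [Finite V] (G : SimpleGraph V),
    Few G q → Prm G → ∀ (a b : V) (lev : V → ℕ) (c : V → V), Ly G a b lev c → Mxp G a b →
    ∀ X : Finset V, Scat G X → (∀ v ∈ X, lev v = j) → X.card ≤ C := by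
  induction j with
  | zero =>
    refine ⟨2, fun V _ G _ _ a b lev c hL _ X _ hX => ?_⟩
    have : X ⊆ {a, b} := by
      intro v hv
      rcases hL.lev0.1 (hX v hv) with h | h <;> simp [h]
    exact (card_le_card this).trans card_le_two
  | succ j ih =>
    obtain ⟨C, hC⟩ := ih
    obtain ⟨N1, hN1⟩ := gl q hq (j + 4)
    obtain ⟨N2, hN2⟩ := common (N1 + N1) C
    refine ⟨N2, fun V _ G hF hG a b lev c hL hM X hS hX => ?_⟩
    by_contra hcon
    have hlc : ∀ v ∈ X, lev (c v) = j := by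
      intro v hv
      have h1 := (hL.ch v (by rw [hX v hv]; omega)).1
      rw [hX v hv] at h1; omega
    obtain ⟨u, hu, X', hX', hc', hr⟩ := hN2 V G X c (fun v => G.Adj v a) hS (by omega)
      (by
        intro v hv v' hv' he
        have h1 := hX v hv
        rw [he, hlc v' hv'] at h1
        omega)
      (fun v hv => (hL.ch v (by rw [hX v hv]; omega)).2)
      (by
        intro Y hY hYS
        refine hC V G hF hG a b lev c hL hM Y hYS ?_
        intro v hv
        obtain ⟨w, hw, rfl⟩ := mem_image.1 (hY hv)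
        exact hlc w hw)
    have hlu : lev u = j := by
      obtain ⟨w, hw, rfl⟩ := mem_image.1 hu
      exact hlc w hw
    -- the final contradiction
    have fin : ∀ X'' ⊆ X', N1 ≤ X''.card → ∀ x y, lev x ≤ j → lev y ≤ j →
        (∀ u ∈ X'', G.Adj x u) → (∀ u ∈ X'', ¬ G.Adj y u) → False := by
      intro X'' hX'' hc'' x y hx hy hx' hy'
      have hsub : X'' ⊆ X := hX''.trans hX'
      obtain ⟨p, p', hpp, h1, h2⟩ := hN1 V G hF hG X'' (hS.mono hsub) hc'' x y hx' (by
        intro u hu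
        refine ⟨hy' u hu, ?_⟩
        rintro rfl
        rw [hX y (hsub hu)] at hy; omega)
      have h3 : cl G 2 ((X'' : Set V) ∪ {x, y}) ⊆ cl G (j + 3) {a, b} := by
        rw [show j + 3 = 2 + (j + 1) by omega, cl_add]
        apply cl_mono_set
        rintro v (hv | hv)
        · rw [hL.mem, hX v (hsub hv)]
        · rw [hL.mem]
          rcases hv with rfl | hv
          · omega
          · rw [Set.mem_singleton_iff] at hv; subst hv; omega
      obtain ⟨T0, hT0⟩ := hG.exists_univ (Set.nontrivial_pair hL.ne)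
      have hex : ∃ k, cl G k {a, b} = Set.univ := ⟨T0, hT0⟩
      set T := Nat.find hex with hT
      have hT1 : cl G T {a, b} = Set.univ := Nat.find_spec hex
      have hT2 := hM p p' hpp T hT1
      have hT3 : j + 4 < T := by
        by_contra hc
        apply h2
        exact Set.eq_univ_of_univ_subset (by rw [← hT2]; exact cl_mono (by omega))
      have hT4 : cl G (T - 1) {a, b} = Set.univ := by
        apply Set.eq_univ_of_univ_subset
        have e1 : cl G T {p, p'} = cl G (T - (j + 4)) (cl G (j + 4) {p, p'}) := by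
          rw [← cl_add, show (T - (j + 4)) + (j + 4) = T by omega]
        have e2 : cl G (T - 1) {a, b} = cl G (T - (j + 4)) (cl G (j + 3) {a, b}) := by
          rw [← cl_add, show (T - (j + 4)) + (j + 3) = T - 1 by omega]
        rw [← hT2, e1, e2]
        exact cl_mono_set (h1.trans h3) _
      have := Nat.find_min' hex hT4
      omega
    have e := card_filter_add_card_filter_not (s := X') (fun v => G.Adj v a)
    rcases (show N1 ≤ (X'.filter (fun v => G.Adj v a)).card ∨
        N1 ≤ (X'.filter (fun v => ¬ G.Adj v a)).card by omega) with h | h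
    · refine fin _ (filter_subset _ _) h a u (by rw [hL.lev_a]; omega) (by omega) ?_ ?_
      · intro v hv; exact (mem_filter.1 hv).2.symm
      · intro v hv h'
        obtain ⟨h1, h2⟩ := mem_filter.1 hv
        exact hr v h1 ⟨fun _ => h2, fun _ => h'.symm⟩
    · refine fin _ (filter_subset _ _) h u a (by omega) (by rw [hL.lev_a]; omega) ?_ ?_
      · intro v hv
        obtain ⟨h1, h2⟩ := mem_filter.1 hv
        have h3 := hr v h1
        have : G.Adj v u := by tauto
        exact this.symm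
      · intro v hv h'
        exact (mem_filter.1 hv).2 h'.symm

/-- descendants two levels up -/
lemma d2 (q : ℕ) (hq : 8 ≤ q) : ∃ N : ℕ, ∀ (V : Type) [Finite V] (G : SimpleGraph V), Few G q →
    Prm G → ∀ (a b : V) (lev : V → ℕ) (c : V → V), Ly G a b lev c → ∀ z, 3 ≤ lev z →
    ∀ X : Finset V, Scat G X → (∀ v ∈ X, lev v = lev z + 2 ∧ c (c v) = z) → X.card ≤ N := by
  obtain ⟨N1, hN1⟩ := d1 q hq
  obtain ⟨N2, hN2⟩ := common (N1 + 1) N1
  refine ⟨N2, fun V _ G hF hG a b lev c hL z hz X hS hX => ?_⟩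
  by_contra hcon
  have hlc : ∀ v ∈ X, lev (c v) = lev z + 1 := by
    intro v hv
    have h1 := (hL.ch v (by rw [(hX v hv).1]; omega)).1
    rw [(hX v hv).1] at h1; omega
  obtain ⟨u, hu, X', hX', hc', hr⟩ := hN2 V G X c (fun v => G.Adj v a) hS (by omega)
    (by
      intro v hv v' hv' he
      have h1 := (hX v hv).1
      rw [he, hlc v' hv'] at h1
      omega)
    (fun v hv => (hL.ch v (by rw [(hX v hv).1]; omega)).2)
    (by
      intro Y hY hYS
      refine hN1 V G hF hG a b lev c hL z hz Y hYS ?_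
      intro v hv
      obtain ⟨w, hw, rfl⟩ := mem_image.1 (hY hv)
      refine ⟨hlc w hw, ?_⟩
      have := (hL.ch (c w) (by rw [hlc w hw]; omega)).2
      rwa [(hX w hw).2] at this)
  have hlu : lev u = lev z + 1 := by
    obtain ⟨w, hw, rfl⟩ := mem_image.1 hu
    exact hlc w hw
  have := hN1 V G hF hG a b lev c hL u (by omega) X' (hS.mono hX') (fun v hv => ⟨by
    rw [(hX v (hX' hv)).1, hlu], hr v hv⟩)
  omega

end Pool.Agent.H60
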