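import Mathlib

/-! Induced `P₄`s, the budget hypothesis, and the extension lemma. -/

set_option autoImplicit false

namespace Pool.Agent.H60

open Finset Classical

variable {V : Type}

/-- `a - b - c - d` is an induced path of `G` -/
def IP (G : SimpleGraph V) (a b c d : V) : Prop :=
  a ≠ c ∧ a ≠ d ∧ b ≠ d ∧ G.Adj a b ∧ G.Adj b c ∧ G.Adj c d ∧ ¬ G.Adj a c ∧ ¬ G.Adj a d ∧ ¬ G.Adj b d

/-- vertex set of an induced path on four vertices -/
def IsP4 (G : SimpleGraph V) (A : Finset V) : Prop := ∃ a b c d, A = {a, b, c, d} ∧ IP G a b c d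

/-- the induced `P₄`s inside `S` -/
noncomputable def P4s (G : SimpleGraph V) (S : Finset V) : Finset (Finset V) :=
  S.powerset.filter (IsP4 G)

/-- at most `q - 2` induced `P₄`s in each set of at most `q` vertices -/
def Few (G : SimpleGraph V) (q : ℕ) : Prop := ∀ S : Finset V, S.card ≤ q → (P4s G S).card ≤ q - 2

lemma mem_P4s {G : SimpleGraph V} {S A : Finset V} : A ∈ P4s G S ↔ A ⊆ S ∧ IsP4 G A := by
  simp [P4s]

lemma P4s_mono {G : SimpleGraph V} {S S' : Finset V} (h : S ⊆ S') : P4s G S ⊆ P4s G S' := by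
  intro A hA
  rw [mem_P4s] at *
  exact ⟨hA.1.trans h, hA.2⟩

lemma IP.compl {G : SimpleGraph V} {a b c d : V} (h : IP Gᶜ a b c d) : IP G c a d b := by
  unfold IP at *
  simp only [SimpleGraph.compl_adj] at h
  obtain ⟨h1, h2, h3, h4, h5, h6, h7, h8, h9⟩ := h
  refine ⟨h6.1, h5.1.symm, h4.1, ?_, ?_, ?_, ?_, ?_, ?_⟩
  · by_contra hc; exact h7 ⟨h1, fun h => hc h.symm⟩
  · by_contra hc; exact h8 ⟨h2, hc⟩
  · by_contra hc; exact h9 ⟨h3, fun h => hc h.symm⟩
  · exact h6.2
  · exact fun h => h5.2 h.symm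
  · exact h4.2

lemma IsP4.compl {G : SimpleGraph V} {A : Finset V} (h : IsP4 Gᶜ A) : IsP4 G A := by
  obtain ⟨a, b, c, d, rfl, h⟩ := h
  refine ⟨c, a, d, b, ?_, h.compl⟩
  ext x; simp only [mem_insert, mem_singleton]; tauto

lemma Few.compl {G : SimpleGraph V} {q : ℕ} (h : Few G q) : Few Gᶜ q := by
  intro S hS
  refine (card_le_card ?_).trans (h S hS)
  intro A hA
  rw [mem_P4s] at *
  exact ⟨hA.1, hA.2.compl⟩

lemma ext_contra {G : SimpleGraph V} {q : ℕ} (hq : 2 ≤ q) (h : Few G q) :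
    ∀ (n : ℕ) (S : Finset V), S.card + n = q → S.card ≤ (P4s G S).card + 1 →
      (∀ S', S ⊆ S' → S'.card < q → ∃ v, v ∉ S' ∧ ∃ A ∈ P4s G (insert v S'), v ∈ A) → False := by
  intro n
  induction n with
  | zero =>
    intro S hS hp _
    have := h S (by omega)
    omega
  | succ n ih =>
    intro S hS hp he
    obtain ⟨v, hv, A, hA, hvA⟩ := he S (Subset.refl _) (by omega)
    refine ih (insert v S) ?_ ?_ ?_
    · rw [card_insert_of_notMem hv]; omega
    · rw [card_insert_of_notMem hv]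
      have h1 : P4s G S ⊆ (P4s G (insert v S)).erase A := by
        intro B hB
        rw [mem_erase]
        refine ⟨?_, P4s_mono (subset_insert _ _) hB⟩
        rintro rfl
        exact hv ((mem_P4s.1 hB).1 hvA)
      have h2 := card_le_card h1
      rw [card_erase_of_mem hA] at h2
      have h3 : 0 < (P4s G (insert v S)).card := card_pos.2 ⟨A, hA⟩
      omega
    · intro S' hS' hc
      exact he S' ((subset_insert _ _).trans hS') hc

/-- a vertex set `E` of size `≥ q` each of whose vertices forms a `P₄` with vertices of `S` -/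
lemma ext_contra' {G : SimpleGraph V} {q : ℕ} (hq : 2 ≤ q) (h : Few G q) (S : Finset V)
    (hS : S.card ≤ q) (hp : S.card ≤ (P4s G S).card + 1) (E : Finset V) (hE : q ≤ E.card)
    (he : ∀ e ∈ E, ∃ A, IsP4 G A ∧ e ∈ A ∧ A ⊆ insert e S) : False := by
  refine ext_contra hq h (q - S.card) S (by omega) hp ?_
  intro S' hSS hc
  obtain ⟨e, heE, heS⟩ : ∃ e ∈ E, e ∉ S' := by
    by_contra hcon
    push Not at hcon
    have := card_le_card (show E ⊆ S' from hcon)
    omega
  obtain ⟨A, hA, hea, hAS⟩ := he e heE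
  exact ⟨e, heS, A, mem_P4s.2 ⟨hAS.trans (insert_subset_insert _ hSS), hA⟩, hea⟩

/-! ### certificates -/

/-- value of a literal -/
def lv (v : ℕ → Bool) (l : ℕ) : Bool := xor (v (l / 2)) (Nat.beq (l % 2) 1)

/-- certificate trees -/
inductive Tr : Type
  | x : Tr
  | l (N e : ℕ) : Tr
  | n (i : ℕ) (a b : Tr) : Tr

/-- symmetrised table -/
def tb (T : ℕ → ℕ → ℕ) (i j : ℕ) : ℕ := if Nat.blt i j then T i j else T j i

def ng (l : ℕ) : ℕ := if Nat.beq (l % 2) 1 then l - 1 else l + 1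

def inl (l : ℕ) : List ℕ → Bool
  | [] => false
  | a :: t => Nat.beq a l || inl l t

def decq (Q : ℕ) : ℕ × ℕ × ℕ × ℕ := (Q / 262144, (Q / 4096) % 64, (Q / 64) % 64, Q % 64)

def pieces : ℕ → ℕ → List ℕ
  | 0, _ => []
  | k + 1, N => (N % 16777216) :: pieces k (N / 16777216)

/-- a quadruple is known to be an induced path -/
def vq (T : ℕ → ℕ → ℕ) (dom : ℕ → Bool) (kn : List ℕ) (Q : ℕ) : Bool :=
  let p := decq Q
  let a := p.1; let b := p.2.1; let c := p.2.2.1; let d := p.2.2.2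
  dom a && (dom b && (dom c && (dom d &&
  (!(Nat.beq a b) && (!(Nat.beq a c) && (!(Nat.beq a d) && (!(Nat.beq b c) && (!(Nat.beq b d) &&
  (!(Nat.beq c d) && (inl (tb T a b) kn && (inl (tb T b c) kn && (inl (tb T c d) kn &&
  (inl (ng (tb T a c)) kn && (inl (ng (tb T a d)) kn && inl (ng (tb T b d)) kn))))))))))))))

def codes (Q : ℕ) : List ℕ := let p := decq Q; [p.1, p.2.1, p.2.2.1, p.2.2.2]

/-- some code of `Q` is not a code of `Q'` -/
def dif (Q Q' : ℕ) : Bool :=
  let l := codes Q'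
  let p := decq Q
  !(inl p.1 l) || (!(inl p.2.1 l) || (!(inl p.2.2.1 l) || !(inl p.2.2.2 l)))

def difAll (Q : ℕ) : List ℕ → Bool
  | [] => true
  | a :: t => dif Q a && difAll Q t

def pw : List ℕ → Bool
  | [] => true
  | a :: t => difAll a t && pw t

def addNew (l : List ℕ) : List ℕ → List ℕ
  | [] => l
  | a :: t => if inl a l then addNew l t else addNew (a :: l) t

def supp : List ℕ → List ℕ
  | [] => []
  | Q :: t => addNew (supp t) (codes Q)

def allv (T : ℕ → ℕ → ℕ) (dom : ℕ → Bool) (kn : List ℕ) : List ℕ → Bool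
  | [] => true
  | Q :: t => vq T dom kn Q && allv T dom kn t

/-- a leaf: `TT` different induced paths on at most `TT + 1` vertices, and the side condition -/
def leafok (T : ℕ → ℕ → ℕ) (dom : ℕ → Bool) (TT : ℕ) (ok : List ℕ → List ℕ → ℕ → Bool)
    (kn : List ℕ) (N e : ℕ) : Bool :=
  let qs := pieces TT N
  allv T dom kn qs && (pw qs && (Nat.ble (supp qs).length (TT + 1) && ok kn (supp qs) e))

def chk (T : ℕ → ℕ → ℕ) (dom : ℕ → Bool) (TT : ℕ) (ok : List ℕ → List ℕ → ℕ → Bool)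
    (ex : List ℕ → Bool) : List ℕ → Tr → Bool
  | kn, .x => ex kn
  | kn, .l N e => leafok T dom TT ok kn N e
  | kn, .n i a b => chk T dom TT ok ex ((2 * i) :: kn) a && chk T dom TT ok ex ((2 * i + 1) :: kn) b

lemma inl_iff {l : ℕ} {L : List ℕ} : inl l L = true ↔ l ∈ L := by
  induction L with
  | nil => simp [inl]
  | cons a t ih =>
    simp only [inl, Bool.or_eq_true, Nat.beq_eq, ih, List.mem_cons]
    rw [@eq_comm _ a l]

lemma lv_ng {v : ℕ → Bool} {l : ℕ} : lv v (ng l) = !(lv v l) := by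
  unfold lv ng
  rcases Nat.mod_two_eq_zero_or_one l with h | h
  · have h1 : (l + 1) / 2 = l / 2 := by omega
    have h2 : (l + 1) % 2 = 1 := by omega
    simp only [h, h1, h2, show Nat.beq 0 1 = false from rfl, show Nat.beq 1 1 = true from rfl,
      if_false, Bool.false_eq_true, Bool.xor_false, Bool.xor_true]
  · have h1 : (l - 1) / 2 = l / 2 := by omega
    have h2 : (l - 1) % 2 = 0 := by omega
    simp only [h, h1, h2, show Nat.beq 0 1 = false from rfl, show Nat.beq 1 1 = true from rfl,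
      if_true, Bool.xor_false, Bool.xor_true, Bool.not_not]

lemma lv_even {v : ℕ → Bool} {i : ℕ} : lv v (2 * i) = v i := by
  unfold lv
  have h1 : 2 * i / 2 = i := by omega
  have h2 : 2 * i % 2 = 0 := by omega
  simp only [h1, h2, show Nat.beq 0 1 = false from rfl, Bool.xor_false]

lemma lv_odd {v : ℕ → Bool} {i : ℕ} : lv v (2 * i + 1) = !(v i) := by
  unfold lv
  have h1 : (2 * i + 1) / 2 = i := by omega
  have h2 : (2 * i + 1) % 2 = 1 := by omega
  simp only [h1, h2, show Nat.beq 1 1 = true from rfl, Bool.xor_true]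

theorem chk_sound {T : ℕ → ℕ → ℕ} {dom : ℕ → Bool} {TT : ℕ} {ok : List ℕ → List ℕ → ℕ → Bool}
    {ex : List ℕ → Bool} (v : ℕ → Bool)
    (hex : ∀ kn, ex kn = true → (∀ l ∈ kn, lv v l = true) → False) :
    ∀ (tr : Tr) (kn : List ℕ), chk T dom TT ok ex kn tr = true → (∀ l ∈ kn, lv v l = true) →
      ∃ kn' N e, (∀ l ∈ kn', lv v l = true) ∧ leafok T dom TT ok kn' N e = true := by
  intro tr
  induction tr with
  | x => intro kn h hk; exact (hex kn h hk).elim
  | l N e => intro kn h hk; exact ⟨kn, N, e, hk, h⟩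
  | n i a b iha ihb =>
    intro kn h hk
    simp only [chk, Bool.and_eq_true] at h
    cases hvi : v i with
    | true =>
      refine iha _ h.1 ?_
      intro l hl
      rcases List.mem_cons.1 hl with rfl | hl
      · rw [lv_even, hvi]
      · exact hk l hl
    | false =>
      refine ihb _ h.2 ?_
      intro l hl
      rcases List.mem_cons.1 hl with rfl | hl
      · rw [lv_odd, hvi]; rfl
      · exact hk l hl

/-- `f` realises the table `T` on the codes in `dom` with the valuation `v` -/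
def Rl (G : SimpleGraph V) (T : ℕ → ℕ → ℕ) (dom : ℕ → Bool) (v : ℕ → Bool) (f : ℕ → V) : Prop :=
  (∀ i j, dom i = true → dom j = true → i < j → (G.Adj (f i) (f j) ↔ lv v (T i j) = true)) ∧
  (∀ i j, dom i = true → dom j = true → i < j → f i ≠ f j)

lemma Rl.ne {G : SimpleGraph V} {T : ℕ → ℕ → ℕ} {dom : ℕ → Bool} {v : ℕ → Bool} {f : ℕ → V}
    (h : Rl G T dom v f) {i j : ℕ} (hi : dom i = true) (hj : dom j = true) (hij : i ≠ j) :
    f i ≠ f j := by
  rcases Nat.lt_or_gt_of_ne hij with h1 | h1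
  · exact h.2 i j hi hj h1
  · exact (h.2 j i hj hi h1).symm

lemma Rl.adj {G : SimpleGraph V} {T : ℕ → ℕ → ℕ} {dom : ℕ → Bool} {v : ℕ → Bool} {f : ℕ → V}
    (h : Rl G T dom v f) {i j : ℕ} (hi : dom i = true) (hj : dom j = true) (hij : i ≠ j) :
    G.Adj (f i) (f j) ↔ lv v (tb T i j) = true := by
  unfold tb
  rcases Nat.lt_or_gt_of_ne hij with h1 | h1
  · rw [if_pos (by simpa [Nat.blt_eq] using h1)]
    exact h.1 i j hi hj h1
  · rw [if_neg (by simpa [Nat.blt_eq] using h1.le), G.adj_comm]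
    exact h.1 j i hj hi h1

/-- the vertex set of a coded quadruple -/
noncomputable def qset (f : ℕ → V) (Q : ℕ) : Finset V :=
  {f (decq Q).1, f (decq Q).2.1, f (decq Q).2.2.1, f (decq Q).2.2.2}

lemma vq_ip {G : SimpleGraph V} {T : ℕ → ℕ → ℕ} {dom : ℕ → Bool} {v : ℕ → Bool} {f : ℕ → V}
    (h : Rl G T dom v f) {kn : List ℕ} (hk : ∀ l ∈ kn, lv v l = true) {Q : ℕ}
    (hQ : vq T dom kn Q = true) :
    IP G (f (decq Q).1) (f (decq Q).2.1) (f (decq Q).2.2.1) (f (decq Q).2.2.2) := by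
  simp only [vq, Bool.and_eq_true, Bool.not_eq_true', inl_iff] at hQ
  obtain ⟨da, db, dc, dd, ab, ac, ad, bc, bd, cd, h1, h2, h3, h4, h5, h6⟩ := hQ
  have e : ∀ x y : ℕ, Nat.beq x y = false → x ≠ y := by
    intro x y h hxy; subst hxy; simp at h
  have neg : ∀ l, ng l ∈ kn → ¬ lv v l = true := by
    intro l hl hc
    have := hk _ hl
    rw [lv_ng, hc] at this; simp at this
  refine ⟨h.ne da dc (e _ _ ac), h.ne da dd (e _ _ ad), h.ne db dd (e _ _ bd),
    (h.adj da db (e _ _ ab)).2 (hk _ h1), (h.adj db dc (e _ _ bc)).2 (hk _ h2),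
    (h.adj dc dd (e _ _ cd)).2 (hk _ h3), ?_, ?_, ?_⟩
  · rw [h.adj da dc (e _ _ ac)]; exact neg _ h4
  · rw [h.adj da dd (e _ _ ad)]; exact neg _ h5
  · rw [h.adj db dd (e _ _ bd)]; exact neg _ h6

lemma vq_dom {T : ℕ → ℕ → ℕ} {dom : ℕ → Bool} {kn : List ℕ} {Q : ℕ}
    (hQ : vq T dom kn Q = true) : ∀ c ∈ codes Q, dom c = true := by
  simp only [vq, Bool.and_eq_true] at hQ
  intro c hc
  simp only [codes, List.mem_cons, List.not_mem_nil, or_false] at hc
  rcases hc with rfl | rfl | rfl | rfl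
  · exact hQ.1
  · exact hQ.2.1
  · exact hQ.2.2.1
  · exact hQ.2.2.2.1

lemma qset_eq {f : ℕ → V} {Q : ℕ} : qset f Q = (codes Q).toFinset.image f := by
  ext x
  simp [qset, codes]

lemma mem_addNew {l L : List ℕ} {c : ℕ} : c ∈ addNew l L ↔ c ∈ l ∨ c ∈ L := by
  induction L generalizing l with
  | nil => simp [addNew]
  | cons a t ih =>
    unfold addNew
    split_ifs with h
    · rw [ih, List.mem_cons]
      rw [inl_iff] at h
      constructor
      · rintro (h1 | h1)
        · exact Or.inl h1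
        · exact Or.inr (Or.inr h1)
      · rintro (h1 | rfl | h1)
        · exact Or.inl h1
        · exact Or.inl h
        · exact Or.inr h1
    · rw [ih, List.mem_cons, List.mem_cons]
      tauto

lemma mem_supp {qs : List ℕ} {c : ℕ} : c ∈ supp qs ↔ ∃ Q ∈ qs, c ∈ codes Q := by
  induction qs with
  | nil => simp [supp]
  | cons a t ih =>
    simp only [supp, mem_addNew, ih, List.mem_cons]
    constructor
    · rintro (⟨Q, h1, h2⟩ | h)
      · exact ⟨Q, Or.inr h1, h2⟩
      · exact ⟨a, Or.inl rfl, h⟩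
    · rintro ⟨Q, rfl | h1, h2⟩
      · exact Or.inr h2
      · exact Or.inl ⟨Q, h1, h2⟩

lemma allv_iff {T : ℕ → ℕ → ℕ} {dom : ℕ → Bool} {kn : List ℕ} {qs : List ℕ} :
    allv T dom kn qs = true ↔ ∀ Q ∈ qs, vq T dom kn Q = true := by
  induction qs with
  | nil => simp [allv]
  | cons a t ih => simp [allv, ih]

lemma difAll_iff {Q : ℕ} {L : List ℕ} : difAll Q L = true ↔ ∀ Q' ∈ L, dif Q Q' = true := by
  induction L with
  | nil => simp [difAll]
  | cons a t ih => simp [difAll, ih]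

lemma pieces_length (k N : ℕ) : (pieces k N).length = k := by
  induction k generalizing N with
  | zero => rfl
  | succ k ih => simp [pieces, ih]

lemma dif_ne {G : SimpleGraph V} {T : ℕ → ℕ → ℕ} {dom : ℕ → Bool} {v : ℕ → Bool} {f : ℕ → V}
    (h : Rl G T dom v f) {Q Q' : ℕ} (hQ : ∀ c ∈ codes Q, dom c = true)
    (hQ' : ∀ c ∈ codes Q', dom c = true) (hd : dif Q Q' = true) : qset f Q ≠ qset f Q' := by
  have key : ∃ c ∈ codes Q, c ∉ codes Q' := by
    simp only [dif, Bool.or_eq_true, Bool.not_eq_true', ← Bool.not_eq_true, inl_iff] at hd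
    rcases hd with h1 | h1 | h1 | h1
    · exact ⟨_, by simp [codes], h1⟩
    · exact ⟨_, by simp [codes], h1⟩
    · exact ⟨_, by simp [codes], h1⟩
    · exact ⟨_, by simp [codes], h1⟩
  obtain ⟨c, hc, hc'⟩ := key
  intro he
  have h1 : f c ∈ qset f Q := by
    rw [qset_eq]; exact mem_image_of_mem _ (by simpa using hc)
  rw [he, qset_eq, mem_image] at h1
  obtain ⟨d, hd1, hd2⟩ := h1
  rw [List.mem_toFinset] at hd1
  have hne : d ≠ c := by rintro rfl; exact hc' hd1
  exact h.ne (hQ' d hd1) (hQ c hc) hne hd2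

lemma qs_card {G : SimpleGraph V} {T : ℕ → ℕ → ℕ} {dom : ℕ → Bool} {v : ℕ → Bool} {f : ℕ → V}
    (h : Rl G T dom v f) :
    ∀ qs : List ℕ, (∀ Q ∈ qs, ∀ c ∈ codes Q, dom c = true) → pw qs = true →
      (qs.map (qset f)).toFinset.card = qs.length := by
  intro qs
  induction qs with
  | nil => intro _ _; simp
  | cons a t ih =>
    intro h1 h2
    simp only [pw, Bool.and_eq_true] at h2
    rw [List.map_cons, List.toFinset_cons, card_insert_of_notMem, ih (fun Q hQ => h1 Q (List.mem_cons_of_mem _ hQ)) h2.2]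
    · simp
    · rw [List.mem_toFinset, List.mem_map]
      rintro ⟨Q, hQ, he⟩
      exact dif_ne h (h1 a (by simp)) (h1 Q (List.mem_cons_of_mem _ hQ)) (difAll_iff.1 h2.1 Q hQ) he.symm

/-- what a leaf gives -/
theorem leaf_facts {G : SimpleGraph V} {T : ℕ → ℕ → ℕ} {dom : ℕ → Bool} {v : ℕ → Bool} {f : ℕ → V}
    (h : Rl G T dom v f) {TT : ℕ} {ok : List ℕ → List ℕ → ℕ → Bool} {kn : List ℕ}
    (hk : ∀ l ∈ kn, lv v l = true) {N e : ℕ} (hl : leafok T dom TT ok kn N e = true) :
    ((supp (pieces TT N)).toFinset.image f).card ≤ TT + 1 ∧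
    TT ≤ (P4s G ((supp (pieces TT N)).toFinset.image f)).card ∧
    ok kn (supp (pieces TT N)) e = true := by
  simp only [leafok, Bool.and_eq_true, allv_iff, Nat.ble_eq] at hl
  obtain ⟨h1, h2, h3, h4⟩ := hl
  refine ⟨?_, ?_, h4⟩
  · refine card_image_le.trans ((List.toFinset_card_le _).trans h3)
  · have hd : ∀ Q ∈ pieces TT N, ∀ c ∈ codes Q, dom c = true := fun Q hQ => vq_dom (h1 Q hQ)
    have hc := qs_card h _ hd h2
    rw [pieces_length] at hc
    refine le_trans hc.ge (card_le_card ?_)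
    intro A hA
    rw [List.mem_toFinset, List.mem_map] at hA
    obtain ⟨Q, hQ, rfl⟩ := hA
    rw [mem_P4s]
    refine ⟨?_, _, _, _, _, rfl, vq_ip h hk (h1 Q hQ)⟩
    rw [qset_eq]
    apply image_subset_image
    intro c hc
    rw [List.mem_toFinset] at *
    exact mem_supp.2 ⟨Q, hQ, hc⟩

end Pool.Agent.H60
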