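import Pool.Agent.H60.Order

/-! Decomposition trees. -/

set_option autoImplicit false
set_option linter.unusedSimpArgs false
set_option linter.unnecessarySeqFocus false
set_option linter.unusedVariables false
set_option linter.deprecated false

namespace Pool.Agent.H60

open Finset Classical

section
variable {V : Type} {G : SimpleGraph V}

/-- outside neighbourhood of `x` -/
noncomputable def on (G : SimpleGraph V) (R A : Finset V) (x : V) : Finset V :=
  (R \ A).filter (fun y => G.Adj x y)

/-- number of outside neighbourhoods of elements of `A` in `R` -/
noncomputable def rows (G : SimpleGraph V) (R A : Finset V) : ℕ := (A.image (on G R A)).card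

/-- trees of sets with few rows -/
inductive TD (G : SimpleGraph V) (K : ℕ) (R : Finset V) : Finset V → Prop
  | leaf (x : V) : TD G K R {x}
  | node {A B : Finset V} (hd : Disjoint A B) (hA : TD G K R A) (hB : TD G K R B)
      (h : rows G R (A ∪ B) ≤ K) : TD G K R (A ∪ B)

lemma mem_on {R A : Finset V} {x y : V} : y ∈ on G R A x ↔ (y ∈ R ∧ y ∉ A) ∧ G.Adj x y := by
  simp [on]

lemma card_image_le_of {α β γ : Type} [DecidableEq β] [DecidableEq γ] {A : Finset α} {f : α → β} {g : α → γ}
    (h : ∀ x ∈ A, ∀ y ∈ A, f x = f y → g x = g y) : (A.image g).card ≤ (A.image f).card := by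
  have hex : ∀ z ∈ A.image g, ∃ x ∈ A, g x = z := fun z hz => mem_image.1 hz
  by_cases hne : A.Nonempty
  swap
  · rw [not_nonempty_iff_eq_empty] at hne
    subst hne; simp
  have : Nonempty α := ⟨hne.choose⟩
  choose! s hs1 hs2 using hex
  refine card_le_card_of_injOn (fun z => f (s z)) ?_ ?_
  · intro z hz
    exact mem_coe.2 (mem_image_of_mem _ (hs1 z hz))
  · intro z hz w hw he
    have := h _ (hs1 z hz) _ (hs1 w hw) he
    rw [hs2 z hz, hs2 w hw] at this
    exact this

lemma TD.sub {K : ℕ} {M R : Finset V} (hMR : M ⊆ R)
    (hmod : ∀ z ∈ R, z ∉ M → ∀ x ∈ M, ∀ y ∈ M, (G.Adj z x ↔ G.Adj z y)) {A : Finset V}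
    (h : TD G K M A) : A ⊆ M → TD G K R A := by
  induction h with
  | leaf x => intro _; exact TD.leaf x
  | @node A B hd _ _ h iA iB =>
    intro hAB
    refine TD.node hd (iA (subset_union_left.trans hAB)) (iB (subset_union_right.trans hAB))
      (le_trans ?_ h)
    apply card_image_le_of
    intro x hx y hy he
    ext z
    rw [mem_on, mem_on]
    by_cases hz : z ∈ M
    · have h1 : z ∈ on G M (A ∪ B) x ↔ z ∈ on G M (A ∪ B) y := by rw [he]
      rw [mem_on, mem_on] at h1
      tauto
    · have h1 : z ∈ R → (G.Adj x z ↔ G.Adj y z) := by
        intro hzR
        rw [G.adj_comm x, G.adj_comm y]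
        exact hmod z hzR hz x (hAB hx) y (hAB hy)
      tauto

/-- substitution of a module -/
lemma TD.subst {K : ℕ} {M R : Finset V} (hMR : M ⊆ R)
    (hmod : ∀ z ∈ R, z ∉ M → ∀ x ∈ M, ∀ y ∈ M, (G.Adj z x ↔ G.Adj z y)) {m : V} (hm : m ∈ M)
    (hT : TD G K R M) {C : Finset V} (h : TD G K (R \ M.erase m) C) :
    C ⊆ R \ M.erase m → TD G K R (if m ∈ C then C ∪ M else C) := by
  induction h with
  | leaf x =>
    intro hx
    by_cases hxm : m ∈ ({x} : Finset V)
    · rw [if_pos hxm]
      rw [mem_singleton] at hxm
      subst hxm
      have : {m} ∪ M = M := by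
        ext z; simp only [mem_union, mem_singleton]
        constructor
        · rintro (rfl | h)
          · exact hm
          · exact h
        · exact Or.inr
      rw [this]; exact hT
    · rw [if_neg hxm]; exact TD.leaf x
  | @node A B hd _ _ h iA iB =>
    intro hAB
    have hA := subset_union_left.trans hAB
    have hB := subset_union_right.trans hAB
    have hcap : ∀ z, z ∈ A ∪ B → z ∈ M → z = m := by
      intro z hz hzM
      have := hAB hz
      simp only [mem_sdiff, mem_erase, not_and] at this
      by_contra hne
      exact this.2 hne hzM
    have heq : (if m ∈ A ∪ B then (A ∪ B) ∪ M else A ∪ B) =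
        (if m ∈ A then A ∪ M else A) ∪ (if m ∈ B then B ∪ M else B) := by
      by_cases h1 : m ∈ A <;> by_cases h2 : m ∈ B
      · exact (disjoint_left.1 hd h1 h2).elim
      · simp only [mem_union, h1, h2, true_or, if_true, if_false]
        ext z; simp only [mem_union]; tauto
      · simp only [mem_union, h1, h2, or_true, if_true, if_false]
        ext z; simp only [mem_union]; tauto
      · simp only [mem_union, h1, h2, or_false, if_false]
    rw [heq]
    refine TD.node ?_ (iA hA) (iB hB) ?_
    · rw [disjoint_left]
      intro z hz1 hz2
      by_cases h1 : m ∈ A <;> by_cases h2 : m ∈ B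
      · exact disjoint_left.1 hd h1 h2
      · rw [if_pos h1] at hz1
        rw [if_neg h2] at hz2
        rcases mem_union.1 hz1 with h3 | h3
        · exact disjoint_left.1 hd h3 hz2
        · have := hcap z (mem_union_right _ hz2) h3
          subst this
          exact h2 hz2
      · rw [if_neg h1] at hz1
        rw [if_pos h2] at hz2
        rcases mem_union.1 hz2 with h3 | h3
        · exact disjoint_left.1 hd hz1 h3
        · have := hcap z (mem_union_left _ hz1) h3
          subst this
          exact h1 hz1
      · rw [if_neg h1] at hz1
        rw [if_neg h2] at hz2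
        exact disjoint_left.1 hd hz1 hz2
    · rw [← heq]
      refine le_trans ?_ h
      set C := A ∪ B with hC
      set Ch := (if m ∈ C then C ∪ M else C) with hCh
      let s : V → V := fun x => if x ∈ M then m else x
      have hs : ∀ x ∈ Ch, s x ∈ C := by
        intro x hx
        by_cases hxM : x ∈ M
        · simp only [s, hxM, if_true]
          by_contra hmC
          rw [hCh, if_neg hmC] at hx
          have := hcap x hx hxM
          subst this
          exact hmC hx
        · simp only [s, hxM, if_false]
          rw [hCh] at hx
          split_ifs at hx with h1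
          · rcases mem_union.1 hx with h2 | h2
            · exact h2
            · exact (hxM h2).elim
          · exact hx
      have key : (Ch.image (on G R Ch)).card ≤ (Ch.image (fun x => on G (R \ M.erase m) C (s x))).card := by
        apply card_image_le_of
        intro x hx y hy he
        have hmem : ∀ z, z ∈ on G (R \ M.erase m) C (s x) ↔ z ∈ on G (R \ M.erase m) C (s y) := by
          intro z; rw [he]
        have hCR : C ⊆ R := hAB.trans sdiff_subset
        have hxR : ∀ x ∈ Ch, x ∈ R := by
          intro x hx
          rw [hCh] at hx
          split_ifs at hx with h1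
          · rcases mem_union.1 hx with h2 | h2
            · exact hCR h2
            · exact hMR h2
          · exact hCR hx
        ext z
        rw [mem_on, mem_on]
        refine and_congr_right fun hz => ?_
        obtain ⟨hzR, hzC⟩ := hz
        have hzC' : z ∉ C := by
          intro h; apply hzC; rw [hCh]; split_ifs
          · exact mem_union_left _ h
          · exact h
        by_cases hzM : z ∈ M
        · -- then `m ∉ C`
          have hmC : m ∉ C := by
            intro h; apply hzC; rw [hCh, if_pos h]; exact mem_union_right _ hzM
          have hnM : ∀ x ∈ Ch, x ∉ M := by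
            intro x' hx' hxM'
            rw [hCh, if_neg hmC] at hx'
            rw [hcap x' hx' hxM'] at hx'
            exact hmC hx'
          have h1 := hmem m
          rw [mem_on, mem_on] at h1
          simp only [s, hnM x hx, hnM y hy, if_false] at h1
          have h2 : m ∈ R \ M.erase m := by simp [hMR hm]
          have h3 := hmod x (hxR x hx) (hnM x hx) z hzM m hm
          have h4 := hmod y (hxR y hy) (hnM y hy) z hzM m hm
          tauto
        · have h1 := hmem z
          rw [mem_on, mem_on] at h1
          have h2 : z ∈ R \ M.erase m := by simp [hzR, hzM]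
          have h3 : ∀ x, G.Adj (s x) z ↔ G.Adj x z := by
            intro x
            by_cases hxM : x ∈ M
            · simp only [s, hxM, if_true]
              rw [G.adj_comm _ z, G.adj_comm _ z]
              exact hmod z hzR hzM m hm x hxM
            · simp only [s, hxM, if_false]
          rw [h3, h3] at h1
          tauto
      refine key.trans (card_le_card ?_)
      intro r hr
      obtain ⟨x, hx, rfl⟩ := mem_image.1 hr
      exact mem_image_of_mem _ (hs x hx)

end

/-- induced subgraphs -/
lemma Few.induce {V : Type} {G : SimpleGraph V} {q : ℕ} (h : Few G q) (R : Finset V) :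
    Few (G.induce (R : Set V)) q := by
  intro S hS
  let f : (R : Set V) ↪ V := Function.Embedding.subtype _
  have h1 := h (S.map f) (by rw [card_map]; exact hS)
  refine le_trans ?_ h1
  refine card_le_card_of_injOn (fun A => A.map f) ?_ ?_
  · intro A hA
    have hA' := mem_P4s.1 (mem_coe.1 hA)
    rw [mem_coe, mem_P4s]
    refine ⟨map_subset_map.2 hA'.1, ?_⟩
    obtain ⟨a, b, c, d, rfl, h1, h2, h3, h4⟩ := hA'.2
    refine ⟨a, b, c, d, ?_, ?_, ?_, ?_, ?_⟩
    · ext x; simp [f]
    · intro he; exact h1 (Subtype.ext he)
    · intro he; exact h2 (Subtype.ext he)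
    · intro he; exact h3 (Subtype.ext he)
    · simpa using h4
  · intro A _ B _ he
    exact map_injective f he

/-- decomposition trees of all graphs -/
theorem td_all (q : ℕ) (hq : 8 ≤ q) : ∃ K : ℕ, ∀ (V : Type) (G : SimpleGraph V), Few G q →
    ∀ R : Finset V, R.Nonempty → TD G K R R := by
  obtain ⟨K0, hK0⟩ := order q hq
  refine ⟨K0 + 2, fun V G hF => ?_⟩
  have main : ∀ (n : ℕ) (R : Finset V), R.card = n → R.Nonempty → TD G (K0 + 2) R R := by
    intro n
    induction n using Nat.strong_induction_on with
    | _ n ih =>
      intro R hRn hRne
      by_cases h1 : R.card ≤ 1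
      · obtain ⟨x, hx⟩ := card_eq_one.1 (le_antisymm h1 (card_pos.2 hRne))
        rw [hx]; exact TD.leaf x
      by_cases h2 : R.card = 2
      · obtain ⟨x, y, hxy, hR⟩ := card_eq_two.1 h2
        have : R = {x} ∪ {y} := by rw [hR]; rfl
        rw [this]
        refine TD.node (by simpa using hxy) (TD.leaf x) (TD.leaf y) ?_
        refine card_image_le.trans ?_
        rw [← this, h2]; omega
      by_cases hmod : ∃ M ⊆ R, 2 ≤ M.card ∧ M ≠ R ∧
          ∀ z ∈ R, z ∉ M → ∀ x ∈ M, ∀ y ∈ M, (G.Adj z x ↔ G.Adj z y)
      · obtain ⟨M, hMR, hM2, hMne, hM⟩ := hmod
        have hlt : M.card < R.card := card_lt_card ⟨hMR, fun h => hMne (Subset.antisymm hMR h)⟩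
        obtain ⟨m, hm⟩ : M.Nonempty := card_pos.1 (by omega)
        have hT : TD G (K0 + 2) R M := (ih M.card (by omega) M rfl ⟨m, hm⟩).sub hMR hM (Subset.refl _)
        have hmR : m ∈ R \ M.erase m := by simp [hMR hm]
        have hc : (R \ M.erase m).card < n := by
          rw [card_sdiff_of_subset ((erase_subset _ _).trans hMR), card_erase_of_mem hm]
          omega
        have h3 := TD.subst hMR hM hm hT (ih _ hc (R \ M.erase m) rfl ⟨m, hmR⟩) (Subset.refl _)
        rw [if_pos hmR] at h3
        have h4 : (R \ M.erase m) ∪ M = R := by
          ext z
          simp only [mem_union, mem_sdiff, mem_erase]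
          constructor
          · rintro (h | h)
            · exact h.1
            · exact hMR h
          · intro h
            by_cases hz : z ∈ M
            · exact Or.inr hz
            · exact Or.inl ⟨h, fun h' => hz h'.2⟩
        rwa [h4] at h3
      · -- prime
        push Not at hmod
        let G' := G.induce (R : Set V)
        have hP : Prm G' := by
          constructor
          · obtain ⟨a, b, c, ha, hb, hc, h3, h4, h5⟩ := Finset.two_lt_card_iff.1 (show 2 < R.card by omega)
            exact ⟨⟨a, ha⟩, ⟨b, hb⟩, ⟨c, hc⟩, fun h => h3 (congrArg Subtype.val h),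
              fun h => h4 (congrArg Subtype.val h), fun h => h5 (congrArg Subtype.val h)⟩
          · intro H hH
            by_contra hcon
            push Not at hcon
            obtain ⟨h3, h4⟩ := hcon
            set M := R.filter (fun x => ∃ h : x ∈ (R : Set V), (⟨x, h⟩ : (R : Set V)) ∈ H) with hM
            have hmM : ∀ (x : V) (h : x ∈ (R : Set V)), x ∈ M ↔ (⟨x, h⟩ : (R : Set V)) ∈ H := by
              intro x h
              rw [hM, mem_filter]
              constructor
              · rintro ⟨_, _, h'⟩; exact h'
              · intro h'; exact ⟨h, h, h'⟩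
            obtain ⟨x, hx, y, hy, hxy⟩ := h3
            have hM2 : 2 ≤ M.card := by
              have : 1 < M.card := one_lt_card.2 ⟨x.1, (hmM x.1 x.2).2 hx, y.1, (hmM y.1 y.2).2 hy,
                fun h => hxy (Subtype.ext h)⟩
              omega
            have hMne : M ≠ R := by
              intro he
              apply h4
              ext z
              simp only [Set.mem_univ, iff_true]
              have : z.1 ∈ M := by rw [he]; exact z.2
              exact (hmM z.1 z.2).1 this
            obtain ⟨z, hzR, hzM, u, hu, v, hv, hne⟩ := hmod M (filter_subset _ _) hM2 hMne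
            have hzR' : z ∈ (R : Set V) := hzR
            have huR : u ∈ (R : Set V) := (mem_filter.1 hu).1
            have hvR : v ∈ (R : Set V) := (mem_filter.1 hv).1
            have h5 := hH ⟨z, hzR'⟩ (fun h => hzM ((hmM z hzR').2 h)) ⟨u, huR⟩ ((hmM u huR).1 hu)
              ⟨v, hvR⟩ ((hmM v hvR).1 hv)
            simp only [G', SimpleGraph.comap_adj, Function.Embedding.subtype_apply] at h5
            rcases hne with ⟨h6, h7⟩ | ⟨h6, h7⟩
            · exact h7 (h5.1 h6)
            · exact h6 (h5.2 h7)
        obtain ⟨g, hg1, hg2⟩ := hK0 (R : Set V) G' (hF.induce R) hP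
        -- prefixes
        let A : ℕ → Finset V := fun t => (univ.filter (fun v : (R : Set V) => g v < t)).image Subtype.val
        let F : ℕ → Finset V := fun t => (univ.filter (fun v : (R : Set V) => g v = t)).image Subtype.val
        have hmA : ∀ t z, z ∈ A t ↔ ∃ h : z ∈ (R : Set V), g ⟨z, h⟩ < t := by
          intro t z
          simp only [A, mem_image, mem_filter, mem_univ, true_and]
          constructor
          · rintro ⟨v, hv, rfl⟩; exact ⟨v.2, hv⟩
          · rintro ⟨h, hv⟩; exact ⟨⟨z, h⟩, hv, rfl⟩
        have hmF : ∀ t z, z ∈ F t ↔ ∃ h : z ∈ (R : Set V), g ⟨z, h⟩ = t := by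
          intro t z
          simp only [F, mem_image, mem_filter, mem_univ, true_and]
          constructor
          · rintro ⟨v, hv, rfl⟩; exact ⟨v.2, hv⟩
          · rintro ⟨h, hv⟩; exact ⟨⟨z, h⟩, hv, rfl⟩
        have hAF : ∀ t, A (t + 1) = A t ∪ F t := by
          intro t
          ext z
          rw [mem_union, hmA, hmA, hmF]
          constructor
          · rintro ⟨h, h'⟩
            by_cases h3 : g ⟨z, h⟩ < t
            · exact Or.inl ⟨h, h3⟩
            · exact Or.inr ⟨h, by omega⟩
          · rintro (⟨h, h'⟩ | ⟨h, h'⟩)
            · exact ⟨h, by omega⟩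
            · exact ⟨h, by omega⟩
        have hdAF : ∀ t, Disjoint (A t) (F t) := by
          intro t
          rw [disjoint_left]
          intro z h3 h4
          obtain ⟨h, h5⟩ := (hmA t z).1 h3
          obtain ⟨h', h6⟩ := (hmF t z).1 h4
          omega
        have hrA : ∀ t, rows G R (A t) ≤ K0 + 2 := by
          intro t
          have : rows G R (A t) ≤ ((univ.filter (fun v => g v < t)).image (row G' g t)).card := by
            unfold rows
            simp only [A, image_image]
            apply card_image_le_of
            intro x hx y hy he
            ext z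
            simp only [Function.comp]
            rw [mem_on, mem_on]
            refine and_congr_right fun hz => ?_
            obtain ⟨hzR, hzA⟩ := hz
            have hzR' : z ∈ (R : Set V) := hzR
            have h3 : t ≤ g ⟨z, hzR'⟩ := by
              by_contra hc
              exact hzA ((hmA t z).2 ⟨hzR', by omega⟩)
            have h4 : (⟨z, hzR'⟩ : (R : Set V)) ∈ row G' g t x ↔ (⟨z, hzR'⟩ : (R : Set V)) ∈ row G' g t y := by
              rw [he]
            simp only [row, mem_filter, mem_univ, true_and, h3, G', SimpleGraph.comap_adj,
              Function.Embedding.subtype_apply] at h4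
            exact h4
          have h7 : ((univ.filter (fun v => g v < t)).image (row G' g t)).card ≤ K0 := by
            convert hg2 t
          exact (this.trans h7).trans (Nat.le_add_right _ _)
        have hF2 : ∀ t, (F t).card ≤ 2 := fun t => card_image_le.trans (hg1 t)
        have hTF : ∀ t, F t = ∅ ∨ TD G (K0 + 2) R (F t) := by
          intro t
          have h3 := hF2 t
          rcases (show (F t).card = 0 ∨ (F t).card = 1 ∨ (F t).card = 2 by omega) with h4 | h4 | h4
          · left; exact card_eq_zero.1 h4
          · right
            obtain ⟨x, hx⟩ := card_eq_one.1 h4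
            rw [hx]; exact TD.leaf x
          · right
            obtain ⟨x, y, hxy, hx⟩ := card_eq_two.1 h4
            have : F t = {x} ∪ {y} := by rw [hx]; rfl
            rw [this]
            refine TD.node (by simpa using hxy) (TD.leaf x) (TD.leaf y) ?_
            refine card_image_le.trans ?_
            rw [← this, h4]; omega
        have hTA : ∀ t, A t = ∅ ∨ TD G (K0 + 2) R (A t) := by
          intro t
          induction t with
          | zero =>
            left
            ext z
            rw [hmA]
            simp
          | succ t iht =>
            rcases hTF t with h3 | h3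
            · rw [hAF t, h3, union_empty]; exact iht
            · rcases iht with h4 | h4
              · right; rw [hAF t, h4, empty_union]; exact h3
              · right
                have h5 := hrA (t + 1)
                rw [hAF t] at h5 ⊢
                exact TD.node (hdAF t) h4 h3 h5
        -- the last prefix is everything
        obtain ⟨T, hT⟩ : ∃ T, ∀ v, g v < T := by
          refine ⟨univ.sup g + 1, fun v => ?_⟩
          have := Finset.le_sup (f := g) (mem_univ v)
          omega
        have hAT : A T = R := by
          ext z
          rw [hmA]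
          constructor
          · rintro ⟨h, _⟩; exact h
          · intro h; exact ⟨h, hT _⟩
        rcases hTA T with h3 | h3
        · rw [hAT] at h3
          rw [h3] at hRne
          exact (Finset.not_nonempty_empty hRne).elim
        · rwa [hAT] at h3
  intro R hR
  exact main R.card R rfl hR

end Pool.Agent.H60
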