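import Mathlib

/-! Clique-width expressions. -/

set_option autoImplicit false

namespace Pool.Agent.H60

/-- Labelled graphs that can be built with labels `Fin k`. -/
inductive CwB (k : ℕ) : ∀ V : Type, SimpleGraph V → (V → Fin k) → Prop
  | single (i : Fin k) : CwB k Unit ⊥ (fun _ => i)
  | union (V W : Type) (G : SimpleGraph V) (H : SimpleGraph W) (l : V → Fin k) (m : W → Fin k) :
      CwB k V G l → CwB k W H m → CwB k (V ⊕ W) (G ⊕g H) (Sum.elim l m)
  | join (V : Type) (G : SimpleGraph V) (l : V → Fin k) (i j : Fin k) : i ≠ j →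
      CwB k V G l →
      CwB k V (G ⊔ SimpleGraph.fromRel (fun u v => l u = i ∧ l v = j)) l
  | relabel (V : Type) (G : SimpleGraph V) (l : V → Fin k) (i j : Fin k) :
      CwB k V G l → CwB k V G (fun v => if l v = i then j else l v)

end Pool.Agent.H60
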