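import Pool.Agent.H60.Sp

/-! Uniform pairs extracted from scattered sets. -/

set_option autoImplicit false
set_option linter.unusedSimpArgs false
set_option linter.unnecessarySeqFocus false
set_option linter.unusedVariables false
set_option linter.deprecated false

namespace Pool.Agent.H60

open Finset Classical

theorem unf (n r : ℕ) : ∃ N : ℕ, ∀ (V : Type) (G : SimpleGraph V), Prm G → ∀ X : Finset V,
    N ≤ X.card → ∀ x : ℕ → V, (∀ s, s < r → ∀ u ∈ X, ∀ v ∈ X, (G.Adj (x s) u ↔ G.Adj (x s) v)) →
    ∃ (u w : ℕ → V) (uu ww g d : Bool) (xw : ℕ → Bool), Unf G n u w uu ww g d ∧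
      (∀ k, k < n → u k ∈ X) ∧ (∀ k, k < n → w k ∈ mx G (X : Set V)) ∧
      (∀ s, s < r → ∀ k, k < n → x s ≠ w k ∧ (G.Adj (x s) (w k) ↔ xw s = true)) := by
  obtain ⟨N1, hN1⟩ := ramsey ((Bool × Bool × Bool) × (Bool × Bool × Bool) × (Fin r → Bool)) (n + 3)
  obtain ⟨N2, hN2⟩ := ext_seq Bool N1
  refine ⟨N2, fun V G hG X hX x hx => ?_⟩
  obtain ⟨a, z, col, ha, h1, h2, h3, h4⟩ := hN2 V V (fun z u => decide (G.Adj z u))
    (fun z a b => z ≠ a ∧ z ≠ b) (fun _ _ _ h => ⟨h.2, h.1⟩) X hX (by
      intro u hu v hv huv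
      obtain ⟨z, hz1, hz2, hz3⟩ := hG.ds huv
      exact ⟨z, ⟨hz1, hz2⟩, by simpa using hz3⟩)
  obtain ⟨gg, ⟨⟨x1, x2, x3⟩, ⟨x4, x5, x6⟩, xs⟩, hg1, hg2, hg3⟩ := hN1
    (fun k l => ((decide (G.Adj (a k) (a l)), decide (G.Adj (z k) (z l)), decide (G.Adj (z k) (a l))),
      (decide (G.Adj (z l) (a k)), decide (z k = a l), decide (z l = a k)),
      fun s : Fin r => decide (G.Adj (x s) (z k))))
    (range N1) (by rw [card_range])
  have hgN : ∀ k, k < n + 3 → gg k < N1 := fun k hk => mem_range.1 (hg1 k hk)
  have hcolor : ∀ k l, k < l → l < n + 3 →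
      (G.Adj (a (gg k)) (a (gg l)) ↔ x1 = true) ∧ (G.Adj (z (gg k)) (z (gg l)) ↔ x2 = true) ∧
      (G.Adj (z (gg k)) (a (gg l)) ↔ x3 = true) ∧ (G.Adj (z (gg l)) (a (gg k)) ↔ x4 = true) ∧
      (z (gg k) = a (gg l) ↔ x5 = true) ∧ (z (gg l) = a (gg k) ↔ x6 = true) ∧
      (∀ s : Fin r, (G.Adj (x s) (z (gg k)) ↔ xs s = true)) := by
    intro k l hkl hl
    have := hg3 k l hkl hl
    simp only [Prod.mk.injEq] at this
    obtain ⟨⟨y1, y2, y3⟩, ⟨y4, y5, y6⟩, y7⟩ := this
    refine ⟨?_, ?_, ?_, ?_, ?_, ?_, ?_⟩
    · rw [← y1]; simp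
    · rw [← y2]; simp
    · rw [← y3]; simp
    · rw [← y4]; simp
    · rw [← y5]; simp
    · rw [← y6]; simp
    · intro s; rw [← y7]; simp
  have hane : ∀ k l, k < l → l < n + 3 → a (gg k) ≠ a (gg l) := fun k l hkl hl =>
    (h1 _ _ (hg2 k l hkl hl) (hgN l hl)).1
  have hx5 : ¬ x5 = true := by
    intro h5
    have e1 := (hcolor 0 1 (by omega) (by omega)).2.2.2.2.1.2 h5
    have e2 := (hcolor 0 2 (by omega) (by omega)).2.2.2.2.1.2 h5
    exact hane 1 2 (by omega) (by omega) (e1.symm.trans e2)
  have hx6 : ¬ x6 = true := by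
    intro h5
    have e1 := (hcolor 0 2 (by omega) (by omega)).2.2.2.2.2.1.2 h5
    have e2 := (hcolor 1 2 (by omega) (by omega)).2.2.2.2.2.1.2 h5
    exact hane 0 1 (by omega) (by omega) (e1.symm.trans e2)
  have hmix : ∀ k, k < n + 3 → z (gg k) ∈ mx G (X : Set V) := by
    intro k hk
    obtain ⟨b, hb, c, hc, hbc⟩ := h3 _ (hgN k hk)
    have hbc' : ¬ (G.Adj (z (gg k)) b ↔ G.Adj (z (gg k)) c) := by simpa using hbc
    by_cases h : G.Adj (z (gg k)) b
    · exact ⟨b, hb, c, hc, h, by tauto⟩
    · exact ⟨c, hc, b, hb, by tauto, h⟩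
  refine ⟨fun k => a (gg k), fun k => z (gg k), x1, x2, x3, x4,
    fun s => if h : s < r then xs ⟨s, h⟩ else false, ?_, ?_, ?_, ?_⟩
  · constructor
    · intro i j hi hj; exact hane i j hi (by omega)
    · intro i j hi hj; exact h4 _ _ (hg2 i j hi (by omega)) (hgN j (by omega))
    · intro i j hi hj
      rcases Nat.lt_trichotomy i j with h | h | h
      · intro he; exact hx5 ((hcolor i j h (by omega)).2.2.2.2.1.1 he)
      · subst h
        obtain ⟨_, b, _, h5, _⟩ := h2 _ (hgN i (by omega))
        exact h5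
      · intro he; exact hx6 ((hcolor j i h (by omega)).2.2.2.2.2.1.1 he)
    · intro i j hi hj; exact (hcolor i j hi (by omega)).1
    · intro i j hi hj; exact (hcolor i j hi (by omega)).2.1
    · intro i j hi hj; exact (hcolor i j hi (by omega)).2.2.1
    · intro i j hi hj; exact (hcolor i j hi (by omega)).2.2.2.1
    · intro i hi
      have e1 := (hcolor i (i + 1) (by omega) (by omega)).2.2.1
      have e2 := (h1 _ _ (hg2 i (i + 1) (by omega) (by omega)) (hgN (i + 1) (by omega))).2
      have e3 := (h2 _ (hgN i (by omega))).1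
      rw [← e2] at e3
      simp only [ne_eq, decide_eq_decide] at e3
      rw [e1] at e3
      cases x3 <;> simp_all
  · intro k hk; exact ha _ (hgN k (by omega))
  · intro k hk; exact hmix k (by omega)
  · intro s hs k hk
    constructor
    · intro he
      obtain ⟨b, hb, c, hc, hb', hc'⟩ := hmix k (by omega)
      have he' : z (gg k) = x s := he.symm
      rw [he'] at hb' hc'
      exact hc' ((hx s hs b hb c hc).1 hb')
    · simp only [hs, dif_pos]
      exact (hcolor k (k + 1) (by omega) (by omega)).2.2.2.2.2.2 ⟨s, hs⟩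

section
variable {V : Type} {G : SimpleGraph V} {n : ℕ} {u w : ℕ → V} {uu ww g d : Bool}

lemma Unf.mono (h : Unf G n u w uu ww g d) {m : ℕ} (hm : m ≤ n) : Unf G m u w uu ww g d where
  du i j hi hj := h.du i j hi (by omega)
  dw i j hi hj := h.dw i j hi (by omega)
  dd i j hi hj := h.dd i j (by omega) (by omega)
  auu i j hi hj := h.auu i j hi (by omega)
  aww i j hi hj := h.aww i j hi (by omega)
  ag i j hi hj := h.ag i j hi (by omega)
  ad i j hi hj := h.ad i j hi (by omega)
  ae i hi := h.ae i (by omega)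

lemma Unf.nestA (h : Unf G n u w false true g d) (hgd : g ≠ d) :
    ∃ ρ : ℕ → ℕ, (∀ i, i < n → ρ i < n) ∧ ∃ e, Nest G n (fun i => u (ρ i)) (fun i => w (ρ i)) e := by
  cases g with
  | false =>
    have hd : d = true := by cases d <;> simp_all
    subst hd
    refine ⟨id, fun i hi => hi, true, ?_⟩
    constructor
    · intro i j hi hj; exact h.du i j hi hj
    · intro i j hi hj; exact h.dw i j hi hj
    · intro i j hi hj; exact (h.dd j i hj hi).symm
    · intro i j hi hj; simpa using h.auu i j hi hj
    · intro i j hi hj; simpa using h.aww i j hi hj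
    · intro i j hi hj; simpa [G.adj_comm] using h.ad i j hi hj
    · intro i j hi hj; simpa using h.ag i j hi hj
    · intro i hi; simpa [G.adj_comm] using h.ae i hi
  | true =>
    have hd : d = false := by cases d <;> simp_all
    subst hd
    refine ⟨fun i => n - 1 - i, fun i hi => by show n - 1 - i < n; omega, false, ?_⟩
    constructor
    · intro i j hi hj; exact (h.du (n - 1 - j) (n - 1 - i) (by omega) (by omega)).symm
    · intro i j hi hj; exact (h.dw (n - 1 - j) (n - 1 - i) (by omega) (by omega)).symm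
    · intro i j hi hj; exact (h.dd (n - 1 - j) (n - 1 - i) (by omega) (by omega)).symm
    · intro i j hi hj
      have := h.auu (n - 1 - j) (n - 1 - i) (by omega) (by omega)
      rw [G.adj_comm]; simpa using this
    · intro i j hi hj
      have := h.aww (n - 1 - j) (n - 1 - i) (by omega) (by omega)
      rw [G.adj_comm]; simpa using this
    · intro i j hi hj
      have := h.ag (n - 1 - j) (n - 1 - i) (by omega) (by omega)
      rw [G.adj_comm]; simpa using this
    · intro i j hi hj
      have := h.ad (n - 1 - j) (n - 1 - i) (by omega) (by omega)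
      simpa using this
    · intro i hi
      have := h.ae (n - 1 - i) (by omega)
      rw [G.adj_comm]; simpa using this

lemma Unf.nestB (h : Unf G n u w true false g d) (hgd : g ≠ d) :
    ∃ ρ : ℕ → ℕ, (∀ i, i < n → ρ i < n) ∧ ∃ e, Nest G n (fun i => w (ρ i)) (fun i => u (ρ i)) e := by
  cases g with
  | true =>
    have hd : d = false := by cases d <;> simp_all
    subst hd
    refine ⟨id, fun i hi => hi, false, ?_⟩
    constructor
    · intro i j hi hj; exact h.dw i j hi hj
    · intro i j hi hj; exact h.du i j hi hj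
    · intro i j hi hj; exact (h.dd i j hi hj)
    · intro i j hi hj; simpa using h.aww i j hi hj
    · intro i j hi hj; simpa using h.auu i j hi hj
    · intro i j hi hj; simpa using h.ag i j hi hj
    · intro i j hi hj; rw [G.adj_comm]; simpa using h.ad i j hi hj
    · intro i hi; simpa using h.ae i hi
  | false =>
    have hd : d = true := by cases d <;> simp_all
    subst hd
    refine ⟨fun i => n - 1 - i, fun i hi => by show n - 1 - i < n; omega, true, ?_⟩
    constructor
    · intro i j hi hj; exact (h.dw (n - 1 - j) (n - 1 - i) (by omega) (by omega)).symm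
    · intro i j hi hj; exact (h.du (n - 1 - j) (n - 1 - i) (by omega) (by omega)).symm
    · intro i j hi hj; exact (h.dd (n - 1 - i) (n - 1 - j) (by omega) (by omega))
    · intro i j hi hj
      have := h.aww (n - 1 - j) (n - 1 - i) (by omega) (by omega)
      rw [G.adj_comm]; simpa using this
    · intro i j hi hj
      have := h.auu (n - 1 - j) (n - 1 - i) (by omega) (by omega)
      rw [G.adj_comm]; simpa using this
    · intro i j hi hj
      have := h.ad (n - 1 - j) (n - 1 - i) (by omega) (by omega)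
      simpa using this
    · intro i j hi hj
      have := h.ag (n - 1 - j) (n - 1 - i) (by omega) (by omega)
      rw [G.adj_comm]; simpa using this
    · intro i hi
      have := h.ae (n - 1 - i) (by omega)
      simpa using this

lemma Unf.spd1 (h : Unf G n u w true false g g) : Spd G n u w g := by
  constructor
  · exact h.du
  · exact h.dw
  · intro i j hi hj; exact (h.dd j i hj hi).symm
  · intro i j hi hj; simpa using h.auu i j hi hj
  · intro i j hi hj; simpa using h.aww i j hi hj
  · intro i hi; rw [G.adj_comm]; exact h.ae i hi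
  · intro i j hij hi hj
    rw [G.adj_comm]
    rcases Nat.lt_or_gt_of_ne hij with h1 | h1
    · exact h.ad i j h1 hj
    · exact h.ag j i h1 hi

lemma Unf.spd2 (h : Unf G n u w false true g g) : Spd G n w u g := by
  constructor
  · exact h.dw
  · exact h.du
  · intro i j hi hj; exact (h.dd i j hi hj)
  · intro i j hi hj; simpa using h.aww i j hi hj
  · intro i j hi hj; simpa using h.auu i j hi hj
  · intro i hi; exact h.ae i hi
  · intro i j hij hi hj
    rcases Nat.lt_or_gt_of_ne hij with h1 | h1
    · exact h.ag i j h1 hj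
    · exact h.ad j i h1 hi

end

/-- the family which lies outside the scattered set -/
def Oth {V : Type} (G : SimpleGraph V) (X : Finset V) (r : ℕ) (x : ℕ → V) (n : ℕ) (p : ℕ → V)
    (xw : ℕ → Bool) : Prop :=
  ∀ i, i < n → p i ∈ mx G (X : Set V) ∧ ∀ s, s ≤ r → x s ≠ p i ∧ (G.Adj (x s) (p i) ↔ xw s = true)

theorem extract (q : ℕ) (hq : 8 ≤ q) (n r : ℕ) (hr : 1 ≤ r) : ∃ N : ℕ, ∀ (V : Type)
    (G : SimpleGraph V), Few G q → Prm G → ∀ X : Finset V, Scat G X → N ≤ X.card →
    ∀ x : ℕ → V, (∀ u ∈ X, G.Adj (x 0) u) →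
      (∀ s, 1 ≤ s → s ≤ r → ∀ u ∈ X, ¬ G.Adj (x s) u ∧ x s ≠ u) →
    (∃ u w xw, (PA G n u w ∨ PA Gᶜ n u w) ∧ (∀ i, i < n → u i ∈ X) ∧ Oth G X r x n w xw ∧
      xw 0 = true ∧ ∀ s, 1 ≤ s → s ≤ r → xw s = false) ∨
    (∃ U W e xw, Nest G n U W e ∧ (((∀ i, i < n → U i ∈ X) ∧ Oth G X r x n W xw) ∨
      ((∀ i, i < n → W i ∈ X) ∧ Oth G X r x n U xw))) := by
  obtain ⟨N1, hN1⟩ := sp q hq
  obtain ⟨N2, hN2⟩ := unf (n + N1 + 2 * q + 5) (r + 1)
  refine ⟨N2, fun V G hF hG X hS hX x hx0 hx1 => ?_⟩
  obtain ⟨u, w, uu, ww, g, d, xw, hU, hu, hw, hxw⟩ := hN2 V G hG X hX x (by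
    intro s hs a ha b hb
    by_cases h0 : s = 0
    · subst h0; exact ⟨fun _ => hx0 b hb, fun _ => hx0 a ha⟩
    · have h1 := (hx1 s (by omega) (by omega) a ha).1
      have h2 := (hx1 s (by omega) (by omega) b hb).1
      tauto)
  have key : ∀ s, 1 ≤ s → s ≤ r →
      (uu = false ∧ ww = false ∧ g = false ∧ d = false ∧ xw 0 = true ∧ xw s = false) ∨
      (uu = true ∧ ww = true ∧ g = true ∧ d = true ∧ xw 0 = true ∧ xw s = false) ∨ uu ≠ ww := by
    intro s hs1 hs2
    have hu0 := hu 0 (by omega)
    refine use1 hq hF (n := n + N1 + 2 * q + 5) (by omega) hU (x := x 0) (y := x s) ?_ ?_ ?_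
    · intro he
      have h1 := hx0 _ hu0
      rw [he] at h1
      exact (hx1 s hs1 hs2 _ hu0).1 h1
    · intro i hi
      exact ⟨hx0 _ (hu i hi), hxw 0 (by omega) i hi⟩
    · intro i hi
      obtain ⟨h1, h2⟩ := hx1 s hs1 hs2 _ (hu i hi)
      exact ⟨h2, h1, hxw s (by omega) i hi⟩
  have hOth : ∀ ρ : ℕ → ℕ, (∀ i, i < n → ρ i < n) → Oth G X r x n (fun i => w (ρ i)) xw := by
    intro ρ hρ i hi
    have := hρ i hi
    exact ⟨hw _ (by omega), fun s hs => hxw s (by omega) _ (by omega)⟩
  by_cases hne : uu = ww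
  · left
    refine ⟨u, w, xw, ?_, fun i hi => hu i (by omega), hOth id (fun i hi => hi), ?_, ?_⟩
    · rcases key 1 le_rfl hr with ⟨rfl, rfl, rfl, rfl, _, _⟩ | ⟨rfl, rfl, rfl, rfl, _, _⟩ | h
      · left
        constructor
        · intro i hi; rw [G.adj_comm]; simpa using hU.ae i (by omega)
        · intro i j hi hj
          have d1 := hU.du i j hi (by omega)
          have d2 := hU.dw i j hi (by omega)
          have d3 := (hU.dd j i (by omega) (by omega)).symm
          have d4 := (hU.dd i j (by omega) (by omega))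
          have a1 := hU.auu i j hi (by omega)
          have a2 := hU.aww i j hi (by omega)
          have a3 := hU.ag i j hi (by omega)
          have a4 := hU.ad i j hi (by omega)
          rw [G.adj_comm] at a4
          simp only [Bool.false_eq_true, iff_false] at a1 a2 a3 a4
          exact ⟨d1, d2, d3, d4, a1, a2, a4, a3⟩
      · right
        constructor
        · intro i hi
          have := hU.ae i (by omega)
          rw [G.adj_comm] at this
          simp only [Bool.true_eq_false, iff_false] at this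
          exact ⟨(hU.dd i i (by omega) (by omega)).symm, this⟩
        · intro i j hi hj
          have d1 := hU.du i j hi (by omega)
          have d2 := hU.dw i j hi (by omega)
          have d3 := (hU.dd j i (by omega) (by omega)).symm
          have d4 := (hU.dd i j (by omega) (by omega))
          have a1 := hU.auu i j hi (by omega)
          have a2 := hU.aww i j hi (by omega)
          have a3 := hU.ag i j hi (by omega)
          have a4 := hU.ad i j hi (by omega)
          rw [G.adj_comm] at a4
          simp only [iff_true] at a1 a2 a3 a4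
          simp only [SimpleGraph.compl_adj, not_and, not_not]
          exact ⟨d1, d2, d3, d4, fun _ => a1, fun _ => a2, fun _ => a4, fun _ => a3⟩
      · exact (h hne).elim
    · rcases key 1 le_rfl hr with h | h | h
      · exact h.2.2.2.2.1
      · exact h.2.2.2.2.1
      · exact (h hne).elim
    · intro s hs1 hs2
      rcases key s hs1 hs2 with h | h | h
      · exact h.2.2.2.2.2
      · exact h.2.2.2.2.2
      · exact (h hne).elim
  · by_cases hgd : g = d
    · exfalso
      subst hgd
      have hU' := hU.mono (m := N1) (by omega)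
      cases huu : uu with
      | true =>
        have hww : ww = false := by cases ww <;> simp_all
        subst huu hww
        obtain ⟨i, j, hij, hj, h1, h2⟩ := hN1 V G hF u w g hU'.spd1
        exact hS (u i) (hu i (by omega)) (u j) (hu j (by omega)) (hU'.du i j hij hj)
          ⟨w i, w j, hU'.dw i j hij hj, h1, h2⟩
      | false =>
        have hww : ww = true := by cases ww <;> simp_all
        subst huu hww
        obtain ⟨i, j, hij, hj, h1, h2⟩ := hN1 V G hF w u g hU'.spd2
        exact hS (u i) (hu i (by omega)) (u j) (hu j (by omega)) (hU'.du i j hij hj)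
          ⟨w i, w j, hU'.dw i j hij hj, h2, h1⟩
    · right
      have hU' := hU.mono (m := n) (by omega)
      cases huu : uu with
      | true =>
        have hww : ww = false := by cases ww <;> simp_all
        subst huu hww
        obtain ⟨ρ, hρ, e, hN⟩ := hU'.nestB hgd
        exact ⟨_, _, e, xw, hN, Or.inr ⟨fun i hi => hu _ (by have := hρ i hi; omega), hOth ρ hρ⟩⟩
      | false =>
        have hww : ww = true := by cases ww <;> simp_all
        subst huu hww
        obtain ⟨ρ, hρ, e, hN⟩ := hU'.nestA hgd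
        exact ⟨_, _, e, xw, hN, Or.inl ⟨fun i hi => hu _ (by have := hρ i hi; omega), hOth ρ hρ⟩⟩

end Pool.Agent.H60
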