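import Pool.Agent.H60.Cw

/-! Translation between the two forms of the hypothesis and of the conclusion. -/

set_option autoImplicit false
set_option linter.unusedSimpArgs false
set_option linter.unnecessarySeqFocus false
set_option linter.unusedVariables false
set_option linter.deprecated false

namespace Pool.Agent.H60

open Finset Classical

lemma isP4_iso {V : Type} {G : SimpleGraph V} {A : Finset V} (h : IsP4 G A) :
    A.card = 4 ∧ Nonempty (G.induce (A : Set V) ≃g SimpleGraph.pathGraph 4) := by
  obtain ⟨a, b, c, d, rfl, h1, h2, h3, h4, h5, h6, h7, h8, h9⟩ := h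
  have n1 := h4.ne
  have n2 := h5.ne
  have n3 := h6.ne
  let f : Fin 4 → V := ![a, b, c, d]
  have hf : ∀ i, f i ∈ (({a, b, c, d} : Finset V) : Set V) := by
    intro i; fin_cases i <;> simp [f]
  have hinj : Function.Injective f := by
    intro i j hij
    fin_cases i <;> fin_cases j <;> simp [f] at hij ⊢ <;> simp_all
  have hbij : Function.Bijective (fun i : Fin 4 => (⟨f i, hf i⟩ : (({a, b, c, d} : Finset V) : Set V))) := by
    constructor
    · intro i j hij
      exact hinj (congrArg Subtype.val hij)
    · rintro ⟨x, hx⟩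
      simp only [coe_insert, coe_singleton, Set.mem_insert_iff, Set.mem_singleton_iff] at hx
      rcases hx with rfl | rfl | rfl | rfl
      · exact ⟨0, rfl⟩
      · exact ⟨1, rfl⟩
      · exact ⟨2, rfl⟩
      · exact ⟨3, rfl⟩
  constructor
  · have : ({a, b, c, d} : Finset V) = univ.image f := by
      ext x
      simp only [mem_insert, mem_singleton, mem_image, mem_univ, true_and]
      constructor
      · rintro (rfl | rfl | rfl | rfl)
        · exact ⟨0, rfl⟩
        · exact ⟨1, rfl⟩
        · exact ⟨2, rfl⟩
        · exact ⟨3, rfl⟩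
      · rintro ⟨i, rfl⟩
        fin_cases i <;> simp [f]
    rw [this, card_image_of_injective _ hinj]; simp
  · refine ⟨SimpleGraph.Iso.symm ⟨Equiv.ofBijective _ hbij, ?_⟩⟩
    intro i j
    simp only [Equiv.ofBijective_apply, SimpleGraph.comap_adj, Function.Embedding.subtype_apply,
      SimpleGraph.pathGraph_adj]
    have h4' := h4.symm
    have h5' := h5.symm
    have h6' := h6.symm
    have h7' : ¬ G.Adj c a := fun h => h7 h.symm
    have h8' : ¬ G.Adj d a := fun h => h8 h.symm
    have h9' : ¬ G.Adj d b := fun h => h9 h.symm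
    fin_cases i <;> fin_cases j <;> simp [f, *]

lemma few_of {V : Type} {G : SimpleGraph V} {q : ℕ}
    (h : ∀ S : Finset V, S.card ≤ q →
        {A : Finset V | A ⊆ S ∧ A.card = 4 ∧
            Nonempty (G.induce (A : Set V) ≃g SimpleGraph.pathGraph 4)}.ncard ≤ q - 2) :
    Few G q := by
  intro S hS
  refine le_trans ?_ (h S hS)
  rw [← Set.ncard_coe_finset]
  apply Set.ncard_le_ncard
  · intro A hA
    have h1 := mem_P4s.1 (mem_coe.1 hA)
    exact ⟨h1.1, isP4_iso h1.2⟩
  · apply (Set.Finite.subset (S.powerset.finite_toSet))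
    intro A hA
    simpa using hA.1

lemma sum_eq {V W : Type} (G : SimpleGraph V) (H : SimpleGraph W) :
    G ⊕g H = G.map Function.Embedding.inl ⊔ H.map Function.Embedding.inr := by
  ext x y
  rcases x with x | x <;> rcases y with y | y <;> simp [SimpleGraph.map_adj]

lemma built {k : ℕ} (P : ∀ W : Type, SimpleGraph W → (W → Fin k) → Prop)
    (p1 : ∀ i : Fin k, P Unit ⊥ (fun _ => i))
    (p2 : ∀ (W₁ W₂ : Type) (G₁ : SimpleGraph W₁) (G₂ : SimpleGraph W₂)
            (l₁ : W₁ → Fin k) (l₂ : W₂ → Fin k),
            P W₁ G₁ l₁ → P W₂ G₂ l₂ →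
            P (W₁ ⊕ W₂)
              (G₁.map Function.Embedding.inl ⊔ G₂.map Function.Embedding.inr)
              (Sum.elim l₁ l₂))
    (p4 : ∀ (W : Type) (H : SimpleGraph W) (l' : W → Fin k) (i j : Fin k),
            P W H l' → P W H (fun x => if l' x = i then j else l' x))
    (p5 : ∀ (W : Type) (H : SimpleGraph W) (l' : W → Fin k) (i j : Fin k), i ≠ j →
            P W H l' →
            P W (H ⊔ SimpleGraph.fromRel (fun x y => l' x = i ∧ l' y = j)) l')
    {W : Type} {G : SimpleGraph W} {l : W → Fin k} (h : CwB k W G l) : P W G l := by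
  induction h with
  | single i => exact p1 i
  | union V W G H l m _ _ ih1 ih2 =>
    rw [sum_eq]; exact p2 _ _ _ _ _ _ ih1 ih2
  | join V G l i j hij _ ih => exact p5 _ _ _ i j hij ih
  | relabel V G l i j _ ih => exact p4 _ _ _ i j ih

end Pool.Agent.H60
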