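import Pool.Agent.H60.Extract

/-! Growth inside nested blocks. -/

set_option autoImplicit false
set_option linter.unusedSimpArgs false
set_option linter.unnecessarySeqFocus false
set_option linter.unusedVariables false
set_option linter.deprecated false

namespace Pool.Agent.H60

open Finset Classical

variable {V : Type}

def bb (q : ℕ) : ℕ → ℕ
  | 0 => 0
  | t + 1 => 2 * bb q t + 3 * (2 * q + 5) + 2

lemma bb_mono {q : ℕ} {s t : ℕ} (h : s ≤ t) : bb q s ≤ bb q t := by
  induction t, h using Nat.le_induction with
  | base => exact le_rfl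
  | succ t _ ih => simp only [bb]; omega

/-- bad blocks of `z` -/
noncomputable def Bd (G : SimpleGraph V) (n : ℕ) (U W : ℕ → V) (z : V) : Finset ℕ :=
  (range n).filter (fun i => ¬ Gd G (U i) (W i) z)

lemma growB {G : SimpleGraph V} {q n : ℕ} (hq : 8 ≤ q) (hF : Few G q) {U W : ℕ → V} {e : Bool}
    (hN : Nest G n U W e) {P : Set V} (hP : ∀ z ∈ P, ∀ i, i < n → Gd G (U i) (W i) z) (τ : ℕ) :
    ∀ z ∈ cl G τ P, (Bd G n U W z).card ≤ bb q τ := by
  induction τ with
  | zero =>
    intro z hz
    have : Bd G n U W z = ∅ := by
      rw [Bd, filter_eq_empty_iff]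
      intro i hi
      rw [not_not]
      exact hP z hz i (mem_range.1 hi)
    rw [this]; simp
  | succ τ ih =>
    intro z hz
    by_cases hz0 : z ∈ cl G τ P
    · exact (ih z hz0).trans (bb_mono (Nat.le_succ _))
    · obtain ⟨p, hp, r, hr, hzp, hzr⟩ := hz.resolve_left hz0
      have hzr' : z ≠ r := fun h => hz0 (h ▸ hr)
      have h1 := ih p hp
      have h2 := ih r hr
      let J : Bool → Bool → Finset ℕ := fun a b => (range n).filter (fun i =>
        Gd G (U i) (W i) p ∧ Gd G (U i) (W i) r ∧ z ≠ U i ∧ z ≠ W i ∧
        (G.Adj z (U i) ↔ a = true) ∧ (G.Adj z (W i) ↔ b = true))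
      have hJ : ∀ a b, (a, b) ≠ (false, true) → (J a b).card ≤ 2 * q + 4 := by
        intro a b hab
        by_contra hc
        push Not at hc
        obtain ⟨g, hg1, hg2⟩ := incr (J a b)
        have hgJ : ∀ i, i < 2 * q + 5 → g i ∈ J a b := fun i hi => hg1 i (by omega)
        have hgn : ∀ i, i < 2 * q + 5 → g i < n := fun i hi => mem_range.1 (mem_filter.1 (hgJ i hi)).1
        have hN' := hN.comp (m := 2 * q + 5) hgn (fun i j hi hj => hg2 i j hi (by omega))
        have := use4 hq hF le_rfl hN' hzp hzr hzr'
          (fun i hi => (mem_filter.1 (hgJ i hi)).2.1)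
          (fun i hi => (mem_filter.1 (hgJ i hi)).2.2.1)
          (fun i hi => (mem_filter.1 (hgJ i hi)).2.2.2)
        exact hab (by rw [this.1, this.2])
      let Eu := (range n).filter (fun i => z = U i)
      let Ew := (range n).filter (fun i => z = W i)
      have hEu : Eu.card ≤ 1 := by
        rw [card_le_one]
        intro a ha b hb
        obtain ⟨ha1, ha2⟩ := mem_filter.1 ha
        obtain ⟨hb1, hb2⟩ := mem_filter.1 hb
        rw [mem_range] at ha1 hb1
        rcases Nat.lt_trichotomy a b with h | h | h
        · exact (hN.dU a b h hb1 (ha2.symm.trans hb2)).elim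
        · exact h
        · exact (hN.dU b a h ha1 (hb2.symm.trans ha2)).elim
      have hEw : Ew.card ≤ 1 := by
        rw [card_le_one]
        intro a ha b hb
        obtain ⟨ha1, ha2⟩ := mem_filter.1 ha
        obtain ⟨hb1, hb2⟩ := mem_filter.1 hb
        rw [mem_range] at ha1 hb1
        rcases Nat.lt_trichotomy a b with h | h | h
        · exact (hN.dW a b h hb1 (ha2.symm.trans hb2)).elim
        · exact h
        · exact (hN.dW b a h ha1 (hb2.symm.trans ha2)).elim
      have hsub : Bd G n U W z ⊆ (Bd G n U W p ∪ Bd G n U W r) ∪ ((Eu ∪ Ew) ∪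
          ((J false false ∪ J true false) ∪ J true true)) := by
        intro i hi
        obtain ⟨hi1, hi2⟩ := mem_filter.1 hi
        by_cases hp' : Gd G (U i) (W i) p
        · by_cases hr' : Gd G (U i) (W i) r
          · by_cases hu : z = U i
            · have : i ∈ Eu := mem_filter.2 ⟨hi1, hu⟩
              simp only [mem_union]; tauto
            · by_cases hw : z = W i
              · have : i ∈ Ew := mem_filter.2 ⟨hi1, hw⟩
                simp only [mem_union]; tauto
              · by_cases a1 : G.Adj z (U i)
                · by_cases a2 : G.Adj z (W i)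
                  · have : i ∈ J true true := mem_filter.2 ⟨hi1, hp', hr', hu, hw, by simp [a1], by simp [a2]⟩
                    simp only [mem_union]; tauto
                  · have : i ∈ J true false := mem_filter.2 ⟨hi1, hp', hr', hu, hw, by simp [a1], by simp [a2]⟩
                    simp only [mem_union]; tauto
                · by_cases a2 : G.Adj z (W i)
                  · exact (hi2 ⟨a2, a1, hu⟩).elim
                  · have : i ∈ J false false := mem_filter.2 ⟨hi1, hp', hr', hu, hw, by simp [a1], by simp [a2]⟩
                    simp only [mem_union]; tauto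
          · have : i ∈ Bd G n U W r := mem_filter.2 ⟨hi1, hr'⟩
            simp only [mem_union]; tauto
        · have : i ∈ Bd G n U W p := mem_filter.2 ⟨hi1, hp'⟩
          simp only [mem_union]; tauto
      have c1 := card_le_card hsub
      have c2 := card_union_le (Bd G n U W p ∪ Bd G n U W r) ((Eu ∪ Ew) ∪
          ((J false false ∪ J true false) ∪ J true true))
      have c3 := card_union_le (Bd G n U W p) (Bd G n U W r)
      have c4 := card_union_le (Eu ∪ Ew) ((J false false ∪ J true false) ∪ J true true)
      have c5 := card_union_le Eu Ew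
      have c6 := card_union_le (J false false ∪ J true false) (J true true)
      have c7 := card_union_le (J false false) (J true false)
      have c8 := hJ false false (by simp)
      have c9 := hJ true false (by simp)
      have c10 := hJ true true (by simp)
      simp only [bb]
      omega

lemma growB5 {G : SimpleGraph V} {q n : ℕ} (hq : 8 ≤ q) (hF : Few G q) {U W : ℕ → V} {e : Bool}
    (hN : Nest G n U W e) {P : Set V} (hP : ∀ z ∈ P, ∀ i, i < n → Gd G (U i) (W i) z)
    {a b c : V} (hab : G.Adj a b) (hbc : G.Adj b c)
    (hac : ¬ G.Adj a c) (hac' : a ≠ c) (hU : ∀ i, i < n → Trc G a b c (U i))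
    (hW : ∀ i, i < n → Trc G a b c (W i)) (hP' : ∀ z ∈ P, Trc G a b c z) (T : ℕ)
    (hn : 3 * bb q T + 2 * q + 4 ≤ n) (τ : ℕ) (hτ : τ ≤ T) :
    ∀ z ∈ cl G τ P, Trc G a b c z := by
  induction τ with
  | zero => exact hP'
  | succ τ ih =>
    intro z hz
    have ih' := ih (by omega)
    by_cases hz0 : z ∈ cl G τ P
    · exact ih' z hz0
    · obtain ⟨p, hp, r, hr, hzp, hzr⟩ := hz.resolve_left hz0
      have hzr' : z ≠ r := fun h => hz0 (h ▸ hr)
      have h1 := growB hq hF hN hP τ p hp
      have h2 := growB hq hF hN hP τ r hr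
      have h3 := growB hq hF hN hP (τ + 1) z hz
      have h4 : bb q (τ + 1) ≤ bb q T := bb_mono hτ
      have h5 : bb q τ ≤ bb q T := bb_mono (by omega)
      let J := (range n).filter (fun i => Gd G (U i) (W i) p ∧ Gd G (U i) (W i) r ∧ Gd G (U i) (W i) z)
      have hsub : range n ⊆ J ∪ (Bd G n U W p ∪ (Bd G n U W r ∪ Bd G n U W z)) := by
        intro i hi
        by_cases a1 : Gd G (U i) (W i) p
        · by_cases a2 : Gd G (U i) (W i) r
          · by_cases a3 : Gd G (U i) (W i) z
            · have : i ∈ J := mem_filter.2 ⟨hi, a1, a2, a3⟩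
              simp only [mem_union]; tauto
            · have : i ∈ Bd G n U W z := mem_filter.2 ⟨hi, a3⟩
              simp only [mem_union]; tauto
          · have : i ∈ Bd G n U W r := mem_filter.2 ⟨hi, a2⟩
            simp only [mem_union]; tauto
        · have : i ∈ Bd G n U W p := mem_filter.2 ⟨hi, a1⟩
          simp only [mem_union]; tauto
      have c1 := card_le_card hsub
      rw [card_range] at c1
      have c2 := card_union_le J (Bd G n U W p ∪ (Bd G n U W r ∪ Bd G n U W z))
      have c3 := card_union_le (Bd G n U W p) (Bd G n U W r ∪ Bd G n U W z)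
      have c4 := card_union_le (Bd G n U W r) (Bd G n U W z)
      have hJc : 2 * q + 4 ≤ J.card := by omega
      obtain ⟨g, hg1, hg2⟩ := incr J
      have hgJ : ∀ i, i < 2 * q + 4 → g i ∈ J := fun i hi => hg1 i (by omega)
      have hgn : ∀ i, i < 2 * q + 4 → g i < n := fun i hi => mem_range.1 (mem_filter.1 (hgJ i hi)).1
      have hN' := hN.comp (m := 2 * q + 4) hgn (fun i j hi hj => hg2 i j hi (by omega))
      exact use5b hq hF le_rfl hN' hab hbc hac hac' (fun i hi => hU _ (hgn i hi))
        (fun i hi => hW _ (hgn i hi)) hzp hzr hzr'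
        (fun i hi => (mem_filter.1 (hgJ i hi)).2.1)
        (fun i hi => (mem_filter.1 (hgJ i hi)).2.2.1)
        (fun i hi => (mem_filter.1 (hgJ i hi)).2.2.2) (ih' p hp) (ih' r hr)

end Pool.Agent.H60
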