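import Pool.Agent.H60.GrowA
import Pool.Agent.H60.GrowB

/-! From a large scattered set with a complete and an anticomplete vertex we get a pair with a
small closure. -/

set_option autoImplicit false
set_option linter.unusedSimpArgs false
set_option linter.unnecessarySeqFocus false
set_option linter.unusedVariables false
set_option linter.deprecated false

namespace Pool.Agent.H60

open Finset Classical

variable {V : Type}

lemma blk_of_PA {G : SimpleGraph V} {n : ℕ} {u w : ℕ → V} (h : PA G n u w) {L : Set V}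
    (hu : ∀ i, i < n → u i ∈ L) (hw : ∀ i, i < n → w i ∈ L) : Blk G L n (fun i => {u i, w i}) where
  ne i _ := ⟨_, Set.mem_insert _ _⟩
  sub i hi := by
    intro z hz
    rcases hz with rfl | hz
    · exact hu i hi
    · rw [Set.mem_singleton_iff] at hz; rw [hz]; exact hw i hi
  con i hi := Con.pair (h.e i hi)
  anti i j hij hj := by
    intro a ha b hb
    obtain ⟨h1, h2, h3, h4, h5, h6, h7, h8⟩ := h.x i j hij hj
    simp only [Set.mem_insert_iff, Set.mem_singleton_iff] at ha hb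
    rcases ha with rfl | rfl <;> rcases hb with rfl | rfl
    · exact ⟨h5, h1⟩
    · exact ⟨h7, h3⟩
    · exact ⟨h8, h4⟩
    · exact ⟨h6, h2⟩

/-- growth of an anticomplete family in `G` or its complement -/
lemma grow_PA {q : ℕ} (hq : 8 ≤ q) (r τ : ℕ) : ∃ N : ℕ, ∀ (V : Type) (G : SimpleGraph V), Few G q →
    ∀ (x : ℕ → V) (sg : ℕ → Bool) (u w : ℕ → V), (PA G N u w ∨ PA Gᶜ N u w) →
    (∀ i, i < N → u i ∈ Lam G r x sg) → (∀ i, i < N → w i ∈ Lam G r x sg) →
    ∃ i, i < N ∧ cl G τ {u i, w i} ⊆ Lam G r x sg := by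
  obtain ⟨N, hN⟩ := growA q hq r τ
  refine ⟨N, fun V G hF x sg u w hP hu hw => ?_⟩
  rcases hP with hP | hP
  · exact hN V G hF x sg _ (blk_of_PA hP hu hw)
  · have hB : Blk Gᶜ (Lam Gᶜ r x (fun s => !(sg s))) N (fun i => {u i, w i}) := by
      rw [Lam_compl]; exact blk_of_PA hP hu hw
    obtain ⟨i, hi, h⟩ := hN V Gᶜ hF.compl x _ _ hB
    rw [Lam_compl, cl_compl] at h
    exact ⟨i, hi, h⟩

/-- the innermost pair is good for the other blocks -/
lemma Nest.good {G : SimpleGraph V} {n : ℕ} {U W : ℕ → V} {e : Bool} (h : Nest G (n + 1) U W e) :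
    ∀ z ∈ ({U 0, W 0} : Set V), ∀ i, i < n → Gd G (U (i + 1)) (W (i + 1)) z := by
  intro z hz i hi
  simp only [Set.mem_insert_iff, Set.mem_singleton_iff] at hz
  rcases hz with rfl | rfl
  · exact ⟨h.ag 0 (i + 1) (by omega) (by omega), h.aU 0 (i + 1) (by omega) (by omega),
      h.dU 0 (i + 1) (by omega) (by omega)⟩
  · exact ⟨h.aW 0 (i + 1) (by omega) (by omega), h.ad 0 (i + 1) (by omega) (by omega),
      (h.dd (i + 1) 0 (by omega) (by omega)).symm⟩

lemma Nest.shift {G : SimpleGraph V} {n : ℕ} {U W : ℕ → V} {e : Bool} (h : Nest G (n + 1) U W e) :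
    Nest G n (fun i => U (i + 1)) (fun i => W (i + 1)) e :=
  h.comp (g := fun i => i + 1) (fun i hi => by show i + 1 < n + 1; omega)
    (fun i j hi hj => by show i + 1 < j + 1; omega)

/-- growth in nested blocks -/
lemma grow_nest {G : SimpleGraph V} {q n : ℕ} (hq : 8 ≤ q) (hF : Few G q) {U W : ℕ → V} {e : Bool}
    {τ : ℕ} (h : Nest G (n + 1) U W e) (hn : bb q τ + 2 ≤ n) :
    (∀ z ∈ cl G τ {U 0, W 0}, ∃ i, i < n + 1 ∧ G.Adj z (W i) ∧ ¬ G.Adj z (U i)) ∧
    cl G τ {U 0, W 0} ≠ Set.univ := by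
  have hg := growB hq hF h.shift h.good τ
  constructor
  · intro z hz
    have h1 := hg z hz
    obtain ⟨i, hi1, hi2⟩ : ∃ i ∈ range n, i ∉ Bd G n (fun i => U (i + 1)) (fun i => W (i + 1)) z := by
      by_contra hcon
      push Not at hcon
      have := card_le_card (show range n ⊆ _ from hcon)
      rw [card_range] at this
      omega
    rw [mem_range] at hi1
    have hG : Gd G (U (i + 1)) (W (i + 1)) z := by
      by_contra hc
      exact hi2 (mem_filter.2 ⟨mem_range.2 hi1, hc⟩)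
    exact ⟨i + 1, by omega, hG.1, hG.2.1⟩
  · intro hu
    have h1 := hg (U n) (by rw [hu]; trivial)
    have h2 : range (n - 1) ⊆ Bd G n (fun i => U (i + 1)) (fun i => W (i + 1)) (U n) := by
      intro i hi
      rw [mem_range] at hi
      refine mem_filter.2 ⟨mem_range.2 (by omega), ?_⟩
      intro hG
      exact h.ad (i + 1) n (by omega) (by omega) hG.1.symm
    have h3 := card_le_card h2
    rw [card_range] at h3
    omega

theorem gl (q : ℕ) (hq : 8 ≤ q) (τ : ℕ) : ∃ N : ℕ, ∀ (V : Type) (G : SimpleGraph V), Few G q →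
    Prm G → ∀ X : Finset V, Scat G X → N ≤ X.card → ∀ x y : V, (∀ u ∈ X, G.Adj x u) →
    (∀ u ∈ X, ¬ G.Adj y u ∧ y ≠ u) →
    ∃ p p', p ≠ p' ∧ cl G τ {p, p'} ⊆ cl G 2 ((X : Set V) ∪ {x, y}) ∧
      cl G τ {p, p'} ≠ Set.univ := by
  obtain ⟨N1, hN1⟩ := grow_PA hq 1 τ
  obtain ⟨N, hN⟩ := extract q hq (N1 + bb q τ + 3) 1 le_rfl
  refine ⟨N, fun V G hF hG X hS hX x y hx hy => ?_⟩
  set n := N1 + bb q τ + 3 with hn
  have hsub : mx G (X : Set V) ⊆ cl G 1 ((X : Set V) ∪ {x, y}) := by
    intro z hz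
    exact Or.inr (mx_mono Set.subset_union_left hz)
  have hsub' : (X : Set V) ⊆ cl G 1 ((X : Set V) ∪ {x, y}) := by
    intro z hz
    exact Or.inl (Or.inl hz)
  rcases hN V G hF hG X hS hX (s2 x y) (fun u hu => hx u hu) (by
    intro s hs1 hs2 u hu
    have : s = 1 := by omega
    subst this
    exact hy u hu) with ⟨u, w, xw, hP, hu, hO, h0, h1⟩ | ⟨U, W, e, xw, hNe, hUW⟩
  · -- pairwise anticomplete edges
    set sg : ℕ → Bool := fun s => decide (s = 0) with hsg
    have hmem : ∀ z, z ∈ Lam G 1 (s2 x y) sg ↔ G.Adj x z ∧ ¬ G.Adj y z ∧ y ≠ z := by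
      intro z
      simp only [Lam, Set.mem_setOf_eq]
      constructor
      · intro h
        have e0 := h 0 (by norm_num)
        have e1 := h 1 (by norm_num)
        simp only [Ok1, s2, hsg] at e0 e1
        exact ⟨e0.1 (by simp), (e1.2 (by simp)).1, (e1.2 (by simp)).2⟩
      · rintro ⟨h1, h2, h3⟩ s hs
        rcases (show s = 0 ∨ s = 1 by omega) with rfl | rfl
        · exact ⟨fun _ => h1, fun h => by simp [hsg] at h⟩
        · exact ⟨fun h => by simp [hsg] at h, fun _ => ⟨h2, h3⟩⟩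
    have hPn : PA G N1 u w ∨ PA Gᶜ N1 u w := by
      rcases hP with hP | hP
      · left; exact ⟨fun i hi => hP.e i (by omega), fun i j hi hj => hP.x i j hi (by omega)⟩
      · right; exact ⟨fun i hi => hP.e i (by omega), fun i j hi hj => hP.x i j hi (by omega)⟩
    obtain ⟨i, hi, hcl⟩ := hN1 V G hF (s2 x y) sg u w hPn
      (fun i hi => (hmem _).2 ⟨hx _ (hu i (by omega)), (hy _ (hu i (by omega))).1, (hy _ (hu i (by omega))).2⟩)
      (fun i hi => by
        obtain ⟨_, h2⟩ := hO i (by omega)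
        have e0 := h2 0 (by norm_num)
        have e1 := h2 1 (by norm_num)
        rw [h0] at e0
        rw [h1 1 le_rfl le_rfl] at e1
        simp only [s2] at e0 e1
        exact (hmem _).2 ⟨by simpa using e0.2, by simpa using e1.2, e1.1⟩)
    refine ⟨u i, w i, ?_, ?_, ?_⟩
    · rcases hPn with hP | hP
      · exact (hP.e i hi).ne
      · exact (hP.e i hi).ne
    · intro z hz
      obtain ⟨h1, h2, _⟩ := (hmem z).1 (hcl hz)
      have : z ∈ cl G 1 ((X : Set V) ∪ {x, y}) :=
        Or.inr ⟨x, Or.inr (by simp), y, Or.inr (by simp), h1.symm, fun h => h2 h.symm⟩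
      exact cl_mono (by norm_num) this
    · intro he
      have : x ∈ cl G τ {u i, w i} := by rw [he]; trivial
      exact G.irrefl ((hmem x).1 (hcl this)).1
  · obtain ⟨h1, h2⟩ := grow_nest (n := n - 1) hq hF (τ := τ)
      (show Nest G (n - 1 + 1) U W e by rw [show n - 1 + 1 = n by omega]; exact hNe) (by omega)
    refine ⟨U 0, W 0, hNe.dd 0 0 (by omega) (by omega), ?_, h2⟩
    intro z hz
    obtain ⟨i, hi, h3, h4⟩ := h1 z hz
    have hi' : i < n := by omega
    have hW : W i ∈ cl G 1 ((X : Set V) ∪ {x, y}) := by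
      rcases hUW with ⟨a, b⟩ | ⟨a, b⟩
      · exact hsub (b i hi').1
      · exact hsub' (a i hi')
    have hU : U i ∈ cl G 1 ((X : Set V) ∪ {x, y}) := by
      rcases hUW with ⟨a, b⟩ | ⟨a, b⟩
      · exact hsub' (a i hi')
      · exact hsub (b i hi').1
    exact mem_cl_of_mx hW hU h3 h4

end Pool.Agent.H60
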