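import Pool.Agent.H60.Extract

/-! Growth of pairwise anticomplete connected blocks. -/

set_option autoImplicit false
set_option linter.unusedSimpArgs false
set_option linter.unnecessarySeqFocus false
set_option linter.unusedVariables false
set_option linter.deprecated false

namespace Pool.Agent.H60

open Finset Classical

/-- `z` has the prescribed adjacency to `x s` -/
def Ok1 {V : Type} (G : SimpleGraph V) (x : V) (s : Bool) (z : V) : Prop :=
  (s = true → G.Adj x z) ∧ (s = false → ¬ G.Adj x z ∧ x ≠ z)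

def Lam {V : Type} (G : SimpleGraph V) (r : ℕ) (x : ℕ → V) (sg : ℕ → Bool) : Set V :=
  {z | ∀ s, s ≤ r → Ok1 G (x s) (sg s) z}

lemma Ok1_compl {V : Type} {G : SimpleGraph V} {x z : V} {s : Bool} :
    Ok1 Gᶜ x (!s) z ↔ Ok1 G x s z := by
  unfold Ok1
  simp only [SimpleGraph.compl_adj]
  cases s with
  | true =>
    simp only [Bool.not_true, Bool.false_eq_true, false_imp_iff, forall_const, true_and, and_true,
      Bool.true_eq_false]
    constructor
    · rintro ⟨h1, h2⟩
      by_contra h; exact h1 ⟨h2, h⟩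
    · intro h
      exact ⟨fun h' => h'.2 h, h.ne⟩
  | false =>
    simp only [Bool.not_false, Bool.true_eq_false, false_imp_iff, forall_const, true_and, and_true,
      Bool.false_eq_true]
    tauto

lemma Lam_compl {V : Type} {G : SimpleGraph V} {r : ℕ} {x : ℕ → V} {sg : ℕ → Bool} :
    Lam Gᶜ r x (fun s => !(sg s)) = Lam G r x sg := by
  unfold Lam
  ext z
  exact forall_congr' fun s => imp_congr_right fun _ => Ok1_compl

def Con {V : Type} (G : SimpleGraph V) (H : Set V) : Prop :=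
  ∀ P : V → Prop, (∃ x ∈ H, P x) → (∃ y ∈ H, ¬ P y) → ∃ p ∈ H, ∃ t ∈ H, G.Adj p t ∧ P p ∧ ¬ P t

lemma Con.insert {V : Type} {G : SimpleGraph V} {H : Set V} (hH : Con G H) {z h : V} (hh : h ∈ H)
    (hz : G.Adj z h) : Con G (insert z H) := by
  rintro P ⟨x, hx, hPx⟩ ⟨y, hy, hPy⟩
  by_cases hPz : P z
  · by_cases hPh : P h
    · rcases hy with rfl | hy
      · exact (hPy hPz).elim
      · obtain ⟨p, hp, t, ht, h1⟩ := hH P ⟨h, hh, hPh⟩ ⟨y, hy, hPy⟩
        exact ⟨p, Set.mem_insert_of_mem _ hp, t, Set.mem_insert_of_mem _ ht, h1⟩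
    · exact ⟨z, Set.mem_insert _ _, h, Set.mem_insert_of_mem _ hh, hz, hPz, hPh⟩
  · by_cases hPh : P h
    · exact ⟨h, Set.mem_insert_of_mem _ hh, z, Set.mem_insert _ _, hz.symm, hPh, hPz⟩
    · rcases hx with rfl | hx
      · exact (hPz hPx).elim
      · obtain ⟨p, hp, t, ht, h1⟩ := hH P ⟨x, hx, hPx⟩ ⟨h, hh, hPh⟩
        exact ⟨p, Set.mem_insert_of_mem _ hp, t, Set.mem_insert_of_mem _ ht, h1⟩

lemma Con.pair {V : Type} {G : SimpleGraph V} {p t : V} (h : G.Adj p t) : Con G {p, t} := by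
  rintro P ⟨x, hx, hPx⟩ ⟨y, hy, hPy⟩
  simp only [Set.mem_insert_iff, Set.mem_singleton_iff] at hx hy
  rcases hx with rfl | rfl <;> rcases hy with rfl | rfl
  · exact (hPy hPx).elim
  · exact ⟨x, by simp, y, by simp, h, hPx, hPy⟩
  · exact ⟨x, by simp, y, by simp, h.symm, hPx, hPy⟩
  · exact (hPy hPx).elim

structure Blk {V : Type} (G : SimpleGraph V) (L : Set V) (n : ℕ) (H : ℕ → Set V) : Prop where
  ne : ∀ i, i < n → (H i).Nonempty
  sub : ∀ i, i < n → H i ⊆ L
  con : ∀ i, i < n → Con G (H i)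
  anti : ∀ i j, i < j → j < n → ∀ a ∈ H i, ∀ b ∈ H j, ¬ G.Adj a b ∧ a ≠ b

lemma Blk.anti' {V : Type} {G : SimpleGraph V} {L : Set V} {n : ℕ} {H : ℕ → Set V}
    (h : Blk G L n H) {i j : ℕ} (hij : i ≠ j) (hi : i < n) (hj : j < n) :
    ∀ a ∈ H i, ∀ b ∈ H j, ¬ G.Adj a b ∧ a ≠ b := by
  rcases Nat.lt_or_gt_of_ne hij with h1 | h1
  · exact h.anti i j h1 hj
  · intro a ha b hb
    obtain ⟨h2, h3⟩ := h.anti j i h1 hi b hb a ha
    exact ⟨fun h' => h2 h'.symm, h3.symm⟩

/-- `z` is mixed on few blocks -/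
lemma Blk.few {V : Type} {G : SimpleGraph V} {L : Set V} {n : ℕ} {H : ℕ → Set V} {q : ℕ}
    (hq : 8 ≤ q) (hF : Few G q) (h : Blk G L n H) (hn : 2 * q + 4 ≤ n) (z : V)
    (hz : ∀ i, i < n → z ∉ H i ∧ z ∈ mx G (H i)) : False := by
  have key : ∀ i, i < n → ∃ p t, p ∈ H i ∧ t ∈ H i ∧ G.Adj p t ∧ G.Adj z p ∧ ¬ G.Adj z t := by
    intro i hi
    obtain ⟨_, x, hx, y, hy, h1, h2⟩ := hz i hi
    obtain ⟨p, hp, t, ht, h3⟩ := h.con i hi (fun v => G.Adj z v) ⟨x, hx, h1⟩ ⟨y, hy, h2⟩
    exact ⟨p, t, hp, ht, h3⟩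
  have : Nonempty V := ⟨z⟩
  choose! p t hp ht h1 h2 h3 using key
  refine use3a hq hF hn (z := z) (p := p) (r := t) ?_ ?_
  · intro i hi
    exact ⟨fun he => (hz i hi).1 (he ▸ ht i hi), h2 i hi, h3 i hi, h1 i hi⟩
  · intro i j hij hj
    have hi : i < n := by omega
    obtain ⟨a1, a2⟩ := h.anti i j hij hj _ (hp i hi) _ (hp j hj)
    obtain ⟨a3, a4⟩ := h.anti i j hij hj _ (ht i hi) _ (ht j hj)
    obtain ⟨a5, a6⟩ := h.anti i j hij hj _ (hp i hi) _ (ht j hj)
    obtain ⟨a7, a8⟩ := h.anti i j hij hj _ (ht i hi) _ (hp j hj)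
    exact ⟨a2, a4, a6, a8, a1, a3, a5, a7⟩

lemma Blk.comp {V : Type} {G : SimpleGraph V} {L : Set V} {n : ℕ} {H : ℕ → Set V}
    (h : Blk G L n H) {m : ℕ} {g : ℕ → ℕ} (hg : ∀ i, i < m → g i < n)
    (hg' : ∀ i j, i < j → j < m → g i < g j) : Blk G L m (fun i => H (g i)) where
  ne i hi := h.ne _ (hg i hi)
  sub i hi := h.sub _ (hg i hi)
  con i hi := h.con _ (hg i hi)
  anti i j hi hj := h.anti _ _ (hg' i j hi hj) (hg j hj)

theorem growA (q : ℕ) (hq : 8 ≤ q) (r τ : ℕ) : ∃ N : ℕ, ∀ (V : Type) (G : SimpleGraph V), Few G q →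
    ∀ (x : ℕ → V) (sg : ℕ → Bool) (H : ℕ → Set V), Blk G (Lam G r x sg) N H →
    ∃ i, i < N ∧ cl G τ (H i) ⊆ Lam G r x sg := by
  induction τ with
  | zero =>
    refine ⟨1, fun V G _ x sg H hH => ⟨0, by norm_num, hH.sub 0 (by norm_num)⟩⟩
  | succ τ ih =>
    obtain ⟨N0, hN0⟩ := ih
    obtain ⟨N, hN⟩ := ramsey ((Bool × Bool × Bool) × (Bool × Bool × Bool) × Option (Fin (r + 1)))
      (N0 + 2 * q + 6)
    refine ⟨N, fun V G hF x sg H hH => ?_⟩
    by_contra hcon
    push Not at hcon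
    have key : ∀ i, i < N → ∃ v z p t, v ∉ Lam G r x sg ∧ v ∈ cl G τ (insert z (H i)) ∧ z ∉ H i ∧
        z ∈ mx G (H i) ∧ p ∈ H i ∧ t ∈ H i ∧ G.Adj p t ∧ G.Adj z p ∧ ¬ G.Adj z t := by
      intro i hi
      obtain ⟨v, hv, hvL⟩ := Set.not_subset.1 (hcon i hi)
      have hvH : v ∉ H i := fun h => hvL (hH.sub i hi h)
      obtain ⟨z, h1, h2, h3⟩ := first_step (hH.ne i hi) τ v hv hvH
      obtain ⟨x', hx, y, hy, h4, h5⟩ := h2
      obtain ⟨p, hp, t, ht, h6, h7, h8⟩ := hH.con i hi (fun v => G.Adj z v) ⟨x', hx, h4⟩ ⟨y, hy, h5⟩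
      exact ⟨v, z, p, t, hvL, h3, h1, ⟨x', hx, y, hy, h4, h5⟩, hp, ht, h6, h7, h8⟩
    have : Nonempty V := ⟨x 0⟩
    choose! v z p t kv1 kv2 kz1 kz2 kp kt kpt kzp kzt using key
    have kz3 : ∀ i j, i < N → j < N → z i ∉ H j := by
      intro i j hi hj
      by_cases hij : i = j
      · subst hij; exact kz1 i hi
      · intro h
        exact (hH.anti' (Ne.symm hij) hj hi _ h _ (kp i hi)).1 (kzp i hi)
    obtain ⟨g, ⟨⟨c1, c2, c3⟩, ⟨c4, c5, c6⟩, c7⟩, hg1, hg2, hg3⟩ := hN
      (fun i j => ((decide (z i ∈ mx G (H j)), decide (z j ∈ mx G (H i)), decide (∃ a ∈ H j, G.Adj (z i) a)),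
        (decide (∃ a ∈ H i, G.Adj (z j) a), decide (G.Adj (z i) (z j)), decide (z i = z j)),
        if h : ∃ s : Fin (r + 1), ¬ Ok1 G (x s) (sg s) (z i) then some (Classical.choose h) else none))
      (range N) (by rw [card_range])
    set n0 := N0 + 2 * q + 6 with hn0
    have hgN : ∀ k, k < n0 → g k < N := fun k hk => mem_range.1 (hg1 k hk)
    have hcolor : ∀ k l, k < l → l < n0 →
        (z (g k) ∈ mx G (H (g l)) ↔ c1 = true) ∧ (z (g l) ∈ mx G (H (g k)) ↔ c2 = true) ∧
        ((∃ a ∈ H (g l), G.Adj (z (g k)) a) ↔ c3 = true) ∧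
        ((∃ a ∈ H (g k), G.Adj (z (g l)) a) ↔ c4 = true) ∧
        (G.Adj (z (g k)) (z (g l)) ↔ c5 = true) ∧ (z (g k) = z (g l) ↔ c6 = true) ∧
        (c7 = none → z (g k) ∈ Lam G r x sg) ∧
        (∀ s : Fin (r + 1), c7 = some s → ¬ Ok1 G (x s) (sg s) (z (g k))) := by
      intro k l hkl hl
      have := hg3 k l hkl hl
      simp only [Prod.mk.injEq] at this
      obtain ⟨⟨y1, y2, y3⟩, ⟨y4, y5, y6⟩, y7⟩ := this
      refine ⟨?_, ?_, ?_, ?_, ?_, ?_, ?_, ?_⟩
      · rw [← y1]; simp
      · rw [← y2]; simp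
      · rw [← y3]; simp
      · rw [← y4]; simp
      · rw [← y5]; simp
      · rw [← y6]; simp
      · intro h
        rw [h] at y7
        split_ifs at y7 with h1
        push Not at h1
        intro s hs
        exact h1 ⟨s, by omega⟩
      · intro s h
        rw [h] at y7
        split_ifs at y7 with h1
        rw [Option.some.injEq] at y7
        rw [← y7]
        exact Classical.choose_spec h1
    have hc1 : c1 = false := by
      by_contra h
      have h : c1 = true := by simpa using h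
      refine Blk.few hq hF (hH.comp (m := 2 * q + 4) (g := fun i => g (i + 1))
        (fun i hi => hgN _ (by omega)) (fun i j hi hj => hg2 _ _ (by omega) (by omega))) le_rfl
        (z (g 0)) ?_
      intro i hi
      exact ⟨kz3 _ _ (hgN 0 (by omega)) (hgN _ (by omega)),
        (hcolor 0 (i + 1) (by omega) (by omega)).1.2 h⟩
    have hc2 : c2 = false := by
      by_contra h
      have h : c2 = true := by simpa using h
      refine Blk.few hq hF (hH.comp (m := 2 * q + 4) (g := fun i => g i)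
        (fun i hi => hgN _ (by omega)) (fun i j hi hj => hg2 _ _ (by omega) (by omega))) le_rfl
        (z (g (2 * q + 4))) ?_
      intro i hi
      exact ⟨kz3 _ _ (hgN _ (by omega)) (hgN _ (by omega)),
        (hcolor i (2 * q + 4) (by omega) (by omega)).2.1.2 h⟩
    have hc6 : c6 = false := by
      by_contra h
      have h : c6 = true := by simpa using h
      obtain ⟨e1, _, _, _, _, e6, _⟩ := hcolor 0 1 (by omega) (by omega)
      have h1 := e6.2 h
      have h2 := kz2 (g 1) (hgN 1 (by omega))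
      rw [← h1] at h2
      rw [e1.1 h2] at hc1
      exact absurd hc1 (by simp)
    have huni : ∀ k l, k < l → l < n0 → ∀ a ∈ H (g l), (G.Adj (z (g k)) a ↔ c3 = true) := by
      intro k l hkl hl a ha
      obtain ⟨e1, _, e3, _⟩ := hcolor k l hkl hl
      rw [hc1] at e1
      constructor
      · intro h; exact e3.1 ⟨a, ha, h⟩
      · intro h
        obtain ⟨b, hb, hb'⟩ := e3.2 h
        by_contra hc
        exact absurd (e1.1 ⟨b, hb, a, ha, hb', hc⟩) (by simp)
    have huni' : ∀ k l, k < l → l < n0 → ∀ a ∈ H (g k), (G.Adj (z (g l)) a ↔ c4 = true) := by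
      intro k l hkl hl a ha
      obtain ⟨_, e1, _, e3, _⟩ := hcolor k l hkl hl
      rw [hc2] at e1
      constructor
      · intro h; exact e3.1 ⟨a, ha, h⟩
      · intro h
        obtain ⟨b, hb, hb'⟩ := e3.2 h
        by_contra hc
        exact absurd (e1.1 ⟨b, hb, a, ha, hb', hc⟩) (by simp)
    have hPZ : PZ G n0 (fun i => p (g i)) (fun i => t (g i)) (fun i => z (g i)) c3 c4 c5 := by
      refine { e := ?_, x := ?_, z0 := ?_, z1 := ?_, z2 := ?_, z3 := ?_ }
      · intro i hi; exact kpt _ (hgN i hi)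
      · intro i j hij hj
        have hi : i < n0 := by omega
        have hgi := hgN i hi
        have hgj := hgN j hj
        have hgij := hg2 i j hij hj
        obtain ⟨a1, a2⟩ := hH.anti _ _ hgij hgj _ (kp _ hgi) _ (kp _ hgj)
        obtain ⟨a3, a4⟩ := hH.anti _ _ hgij hgj _ (kt _ hgi) _ (kt _ hgj)
        obtain ⟨a5, a6⟩ := hH.anti _ _ hgij hgj _ (kp _ hgi) _ (kt _ hgj)
        obtain ⟨a7, a8⟩ := hH.anti _ _ hgij hgj _ (kt _ hgi) _ (kp _ hgj)
        exact ⟨a2, a4, a6, a8, a1, a3, a5, a7⟩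
      · intro i hi
        exact ⟨fun he => kz1 _ (hgN i hi) (he ▸ kt _ (hgN i hi)), kzp _ (hgN i hi), kzt _ (hgN i hi)⟩
      · intro i j hij hj
        have hi : i < n0 := by omega
        have hgi := hgN i hi
        have hgj := hgN j hj
        exact ⟨fun he => kz3 _ _ hgi hgj (he ▸ kp _ hgj), fun he => kz3 _ _ hgi hgj (he ▸ kt _ hgj),
          huni i j hij hj _ (kp _ hgj), huni i j hij hj _ (kt _ hgj)⟩
      · intro i j hij hj
        have hi : i < n0 := by omega
        have hgi := hgN i hi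
        have hgj := hgN j hj
        exact ⟨fun he => kz3 _ _ hgj hgi (he ▸ kp _ hgi), fun he => kz3 _ _ hgj hgi (he ▸ kt _ hgi),
          huni' i j hij hj _ (kp _ hgi), huni' i j hij hj _ (kt _ hgi)⟩
      · intro i j hij hj
        obtain ⟨_, _, _, _, e5, e6, _⟩ := hcolor i j hij hj
        refine ⟨?_, e5⟩
        intro he
        rw [e6.1 he] at hc6
        exact absurd hc6 (by simp)
    obtain ⟨hc3, hc4, hc5⟩ := use3b hq hF (by omega) hPZ
    subst hc3 hc4 hc5
    have hc7 : c7 = none := by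
      by_contra hne
      obtain ⟨s, hs⟩ := Option.ne_none_iff_exists'.1 hne
      have hPZ' : PZ G (2 * q + 4) (fun i => p (g i)) (fun i => t (g i)) (fun i => z (g i))
          false false false :=
        { e := fun i hi => hPZ.e i (by omega)
          x := fun i j hi hj => hPZ.x i j hi (by omega)
          z0 := fun i hi => hPZ.z0 i (by omega)
          z1 := fun i j hi hj => hPZ.z1 i j hi (by omega)
          z2 := fun i j hi hj => hPZ.z2 i j hi (by omega)
          z3 := fun i j hi hj => hPZ.z3 i j hi (by omega) }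
      have hbad : ∀ i, i < 2 * q + 4 → ¬ Ok1 G (x s) (sg s) (z (g i)) := by
        intro i hi
        exact (hcolor i (i + 1) (by omega) (by omega)).2.2.2.2.2.2.2 s hs
      have hsr : (s : ℕ) ≤ r := by omega
      cases hsg : sg s with
      | true =>
        refine use3x hq hF le_rfl hPZ' (x := x s) ?_
        intro i hi
        have hgi := hgN i (by omega)
        have h1 := (hH.sub _ hgi (kp _ hgi) s hsr).1 hsg
        have h2 := (hH.sub _ hgi (kt _ hgi) s hsr).1 hsg
        have h3 := hbad i hi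
        rw [hsg] at h3
        refine ⟨h1, h2, ?_, ?_⟩
        · intro h
          exact h3 ⟨fun _ => h, fun h => by simp at h⟩
        · intro he
          have hgi' := hgN (i + 1) (by omega)
          have h4 := (hH.sub _ hgi' (kp _ hgi') s hsr).1 hsg
          rw [he] at h4
          have := (huni i (i + 1) (by omega) (by omega) _ (kp _ hgi')).1 h4
          simp at this
      | false =>
        refine use3y hq hF le_rfl hPZ' (y := x s) ?_
        intro i hi
        have hgi := hgN i (by omega)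
        obtain ⟨h1, h1'⟩ := (hH.sub _ hgi (kp _ hgi) s hsr).2 hsg
        obtain ⟨h2, h2'⟩ := (hH.sub _ hgi (kt _ hgi) s hsr).2 hsg
        have h3 := hbad i hi
        rw [hsg] at h3
        refine ⟨h1', h2', h1, h2, ?_⟩
        by_contra h
        have h5 : x s ≠ z (g i) := by
          intro he
          rw [he] at h1
          exact h1 (kzp _ hgi)
        exact h3 ⟨fun h => by simp at h, fun _ => ⟨h, h5⟩⟩
    have hB : Blk G (Lam G r x sg) N0 (fun i => insert (z (g i)) (H (g i))) := by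
      refine ⟨?_, ?_, ?_, ?_⟩
      · intro i hi; exact ⟨_, Set.mem_insert _ _⟩
      · intro i hi
        refine Set.insert_subset ?_ (hH.sub _ (hgN i (by omega)))
        exact (hcolor i (i + 1) (by omega) (by omega)).2.2.2.2.2.2.1 hc7
      · intro i hi
        have hgi := hgN i (by omega)
        exact (hH.con _ hgi).insert (kp _ hgi) (kzp _ hgi)
      · intro i j hij hj a ha b hb
        have hgi := hgN i (by omega)
        have hgj := hgN j (by omega)
        rcases ha with rfl | ha <;> rcases hb with rfl | hb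
        · obtain ⟨h1, h2⟩ := hPZ.z3 i j hij (by omega)
          exact ⟨by simpa using h2, h1⟩
        · refine ⟨?_, fun he => kz3 _ _ hgi hgj (he ▸ hb)⟩
          have := huni i j hij (by omega) _ hb
          simpa using this
        · refine ⟨?_, fun he => kz3 _ _ hgj hgi (he ▸ ha)⟩
          have := huni' i j hij (by omega) _ ha
          rw [G.adj_comm]
          simpa using this
        · exact hH.anti _ _ (hg2 i j hij (by omega)) hgj a ha b hb
    obtain ⟨i, hi, hi'⟩ := hN0 V G hF x sg _ hB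
    exact kv1 _ (hgN i (by omega)) (hi' (kv2 _ (hgN i (by omega))))

end Pool.Agent.H60
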