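import Pool.Agent.H60.Bounded

/-! Scattered subsets of any layer are bounded. -/

set_option autoImplicit false
set_option linter.unusedSimpArgs false
set_option linter.unnecessarySeqFocus false
set_option linter.unusedVariables false
set_option linter.deprecated false

namespace Pool.Agent.H60

open Finset Classical

lemma iter_eq_mono {V : Type} {c : V → V} {v v' : V} {i j : ℕ} (hij : i ≤ j)
    (h : c^[i] v = c^[i] v') : c^[j] v = c^[j] v' := by
  obtain ⟨k, rfl⟩ := Nat.exists_eq_add_of_le hij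
  rw [add_comm, Function.iterate_add_apply, Function.iterate_add_apply, h]

lemma Ly.chd_iter {V : Type} {G : SimpleGraph V} {a b : V} {lev : V → ℕ} {c : V → V}
    (h : Ly G a b lev c) {v : V} {i : ℕ} (hi : i + 1 ≤ lev v) :
    Chd G a lev (c^[i] v) (c^[i + 1] v) := by
  rw [Function.iterate_succ', Function.comp]
  obtain ⟨h1, h2⟩ := h.ch (c^[i] v) (by rw [h.iter (by omega)]; omega)
  exact ⟨h1.symm, h2⟩

/-- chains of unlinked vertices do not meet at high levels -/
lemma merge {V : Type} {G : SimpleGraph V} {q : ℕ} (hq : 8 ≤ q) (hF : Few G q) {a b : V}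
    {lev : V → ℕ} {c : V → V} (h : Ly G a b lev c) {v v' : V} {s : ℕ} (hv : lev v = s)
    (hv' : lev v' = s) (hne : c (c v) ≠ c (c v')) :
    ∀ i, i + (q + 3) ≤ s → c^[i] v ≠ c^[i] v' := by
  intro i
  induction i with
  | zero =>
    intro _ he
    exact hne (iter_eq_mono (i := 0) (j := 2) (by omega) he)
  | succ i ih =>
    intro hi he
    have ih' := ih (by omega)
    by_cases hi2 : i < 2
    · exact hne (iter_eq_mono (i := i + 1) (j := 2) (by omega) he)
    · obtain ⟨k, rfl⟩ : ∃ k, i = k + 2 := ⟨i - 2, by omega⟩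
      have l1 := h.iter (v := v) (i := k + 2 + 1) (by omega)
      refine ylem hq hF h (z := c^[k + 2 + 1] v) (x1 := c^[k + 2] v) (x2 := c^[k + 1] v)
        (x3 := c^[k] v) (y1 := c^[k + 2] v') (y2 := c^[k + 1] v') (y3 := c^[k] v')
        (by omega) (h.chd_iter (by omega)) (h.chd_iter (by omega)) (h.chd_iter (by omega)) ?_
        (h.chd_iter (by omega)) (h.chd_iter (by omega)) ih' ?_ ?_
      · rw [he]; exact h.chd_iter (by omega)
      · intro he'; exact ih' (iter_eq_mono (by omega) he')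
      · intro he'; exact ih' (iter_eq_mono (by omega) he')

/-- no sun of unlinked vertices -/
lemma nosun {V : Type} {G : SimpleGraph V} {q : ℕ} (hq : 8 ≤ q) (hF : Few G q) {a b : V}
    {lev : V → ℕ} {c : V → V} (h : Ly G a b lev c) {Y : Finset V} {p : V → V} (hY : Sun G Y p)
    (hc : 3 ≤ Y.card) (hlY : ∀ u ∈ Y, lev u = q + 3) {x1 x2 x3 x4 : V → V}
    (h1 : ∀ u ∈ Y, Chd G a lev (x1 u) u) (h2 : ∀ u ∈ Y, Chd G a lev (x2 u) (x1 u))
    (h3 : ∀ u ∈ Y, Chd G a lev (x3 u) (x2 u)) (h4 : ∀ u ∈ Y, Chd G a lev (x4 u) (x3 u))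
    (n1 : ∀ u ∈ Y, ∀ u' ∈ Y, u ≠ u' → x1 u ≠ x1 u') (n2 : ∀ u ∈ Y, ∀ u' ∈ Y, u ≠ u' → x2 u ≠ x2 u')
    (n3 : ∀ u ∈ Y, ∀ u' ∈ Y, u ≠ u' → x3 u ≠ x3 u') (n4 : ∀ u ∈ Y, ∀ u' ∈ Y, u ≠ u' → x4 u ≠ x4 u') :
    False := by
  have l1 : ∀ u ∈ Y, lev (x1 u) = q + 4 := fun u hu => by rw [(h1 u hu).1, hlY u hu]
  have l2 : ∀ u ∈ Y, lev (x2 u) = q + 5 := fun u hu => by rw [(h2 u hu).1, l1 u hu]
  have k1 : ∀ u ∈ Y, ∀ u0 ∈ Y, u ≠ u0 → x1 u = p u ∨ x1 u = p u0 := by
    intro u hu u0 hu0 hne
    have e1 := l1 u hu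
    rcases hY.par hu hu0 hne (v := x1 u) (by intro he; rw [he, hlY u hu] at e1; omega)
      (by intro he; rw [he, hlY u0 hu0] at e1; omega) with h5 | h5 | h5
    · exact Or.inl h5
    · exact Or.inr h5
    · exfalso
      have hch : Chd G a lev (x1 u) u0 := by
        refine ⟨by rw [e1, hlY u0 hu0], ?_⟩
        rw [← h5]; exact (h1 u hu).2
      exact ylem hq hF h (by rw [hlY u0 hu0]) hch (h2 u hu) (h3 u hu) (h1 u0 hu0) (h2 u0 hu0)
        (h3 u0 hu0) (n1 u hu u0 hu0 hne) (n2 u hu u0 hu0 hne) (n3 u hu u0 hu0 hne)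
  have k2 : ∀ u ∈ Y, x1 u = p u := by
    intro u hu
    obtain ⟨u0, hu0, u1, hu1, h01⟩ := one_lt_card.1 (show 1 < (Y.erase u).card by
      rw [card_erase_of_mem hu]; omega)
    have e0 := ne_of_mem_erase hu0
    have e1 := ne_of_mem_erase hu1
    have m0 := mem_of_mem_erase hu0
    have m1 := mem_of_mem_erase hu1
    rcases k1 u hu u0 m0 e0.symm with h5 | h5
    · exact h5
    · rcases k1 u hu u1 m1 e1.symm with h6 | h6
      · exact h6
      · exact (hY.ne u0 m0 u1 m1 h01 (h5.symm.trans h6)).elim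
  obtain ⟨u, hu, u', hu', hne⟩ := one_lt_card.1 (show 1 < Y.card by omega)
  have e2 := l2 u hu
  have hch : Chd G a lev (x2 u) (x1 u') := by
    refine ⟨by rw [e2, l1 u' hu'], ?_⟩
    have h5 : x2 u ∉ Ds G (p u) (p u') := by
      rw [hY.ds' u hu u' hu' hne]
      rintro (h6 | h6)
      · rw [h6, hlY u hu] at e2; omega
      · rw [Set.mem_singleton_iff] at h6
        rw [h6, hlY u' hu'] at e2; omega
    have h6 : x2 u ≠ p u := by
      intro he
      rw [← k2 u hu] at he
      rw [he, l1 u hu] at e2; omega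
    have h7 : x2 u ≠ p u' := by
      intro he
      rw [← k2 u' hu'] at he
      rw [he, l1 u' hu'] at e2; omega
    have h8 : G.Adj (x2 u) (p u) ↔ G.Adj (x2 u) (p u') := by
      by_contra hc
      exact h5 ⟨h6, h7, hc⟩
    rw [k2 u' hu', ← h8, ← k2 u hu]
    exact (h2 u hu).2
  exact ylem hq hF h (z := x1 u') (by rw [l1 u' hu']; omega) hch (h3 u hu) (h4 u hu) (h2 u' hu')
    (h3 u' hu') (h4 u' hu') (n2 u hu u' hu' hne) (n3 u hu u' hu' hne) (n4 u hu u' hu' hne)

/-- scattered subsets of any level are bounded -/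
theorem levb (q : ℕ) (hq : 8 ≤ q) : ∃ C : ℕ, ∀ (V : Type) [Finite V] (G : SimpleGraph V),
    Few G q → Prm G → ∀ (a b : V) (lev : V → ℕ) (c : V → V), Ly G a b lev c → Mxp G a b →
    ∀ j, ∀ X : Finset V, Scat G X → (∀ v ∈ X, lev v = j) → X.card ≤ C := by
  choose C hC using lowb q hq
  obtain ⟨D, hD⟩ := d2 q hq
  obtain ⟨N, hN⟩ := scat_or_sun (C (q + 3) + 1) 3
  refine ⟨∑ j ∈ range (q + 7), C j + D * N, fun V _ G hF hG a b lev c hL hM s X hS hX => ?_⟩
  by_cases hs : s < q + 7
  · have h1 := hC s V G hF hG a b lev c hL hM X hS hX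
    have h2 : C s ≤ ∑ j ∈ range (q + 7), C j :=
      single_le_sum (fun _ _ => Nat.zero_le _) (mem_range.2 hs)
    omega
  · have hX2 : (X.image (fun v => c (c v))).card ≤ N := by
      by_contra hcon
      have hex : ∀ w ∈ X.image (fun v => c (c v)), ∃ v ∈ X, c (c v) = w := fun w hw => mem_image.1 hw
      have : Nonempty V := ⟨a⟩
      choose! t ht htc using hex
      set X2 := X.image (fun v => c (c v)) with hX2
      have hmerge : ∀ w ∈ X2, ∀ w' ∈ X2, w ≠ w' → ∀ i, i + (q + 3) ≤ s → c^[i] (t w) ≠ c^[i] (t w') := by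
        intro w hw w' hw' hne
        refine merge hq hF hL (hX _ (ht w hw)) (hX _ (ht w' hw')) ?_
        rw [htc w hw, htc w' hw']; exact hne
      have hinj : Set.InjOn (fun w => c^[s - (q + 3)] (t w)) (X2 : Set V) := by
        intro w hw w' hw' he
        by_contra hne
        exact hmerge w hw w' hw' hne _ (by omega) he
      rcases hN V G (X2.image (fun w => c^[s - (q + 3)] (t w))) (by
        rw [card_image_of_injOn hinj]; omega) with ⟨Y, hY, hYS, hYc⟩ | ⟨Y, hY, hYc, p, hp⟩
      · have := hC (q + 3) V G hF hG a b lev c hL hM Y hYS (by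
          intro v hv
          obtain ⟨w, hw, rfl⟩ := mem_image.1 (hY hv)
          rw [hL.iter (by rw [hX _ (ht w hw)]; omega), hX _ (ht w hw)]
          omega)
        omega
      · have hex2 : ∀ u ∈ Y, ∃ w ∈ X2, c^[s - (q + 3)] (t w) = u := fun u hu => mem_image.1 (hY hu)
        choose! r hr hrc using hex2
        have hlr : ∀ u ∈ Y, lev (t (r u)) = s := fun u hu => hX _ (ht _ (hr u hu))
        have hrn : ∀ u ∈ Y, ∀ u' ∈ Y, u ≠ u' → r u ≠ r u' := by
          intro u hu u' hu' hne he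
          apply hne
          rw [← hrc u hu, ← hrc u' hu', he]
        have hm : ∀ k, k ≤ s - (q + 3) → ∀ u ∈ Y, ∀ u' ∈ Y, u ≠ u' →
            c^[k] (t (r u)) ≠ c^[k] (t (r u')) := by
          intro k hk u hu u' hu' hne
          exact hmerge _ (hr u hu) _ (hr u' hu') (hrn u hu u' hu' hne) k (by omega)
        obtain ⟨k, hk⟩ : ∃ k, s = k + 4 + (q + 3) := ⟨s - (q + 7), by omega⟩
        have hk' : s - (q + 3) = k + 4 := by omega
        refine nosun hq hF hL hp hYc (x1 := fun u => c^[k + 3] (t (r u)))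
          (x2 := fun u => c^[k + 2] (t (r u))) (x3 := fun u => c^[k + 1] (t (r u)))
          (x4 := fun u => c^[k] (t (r u))) ?_ ?_ ?_ ?_ ?_ (hm _ (by omega)) (hm _ (by omega))
          (hm _ (by omega)) (hm _ (by omega))
        · intro u hu
          have e1 := hrc u hu
          rw [hk'] at e1
          have e2 := hL.iter (v := t (r u)) (i := k + 4) (by rw [hlr u hu]; omega)
          rw [e1, hlr u hu] at e2
          omega
        · intro u hu
          have e1 := hrc u hu
          rw [hk'] at e1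
          have e2 := hL.chd_iter (v := t (r u)) (i := k + 3) (by rw [hlr u hu]; omega)
          rw [show k + 3 + 1 = k + 4 by omega, e1] at e2
          exact e2
        · intro u hu
          exact hL.chd_iter (v := t (r u)) (i := k + 2) (by rw [hlr u hu]; omega)
        · intro u hu
          exact hL.chd_iter (v := t (r u)) (i := k + 1) (by rw [hlr u hu]; omega)
        · intro u hu
          exact hL.chd_iter (v := t (r u)) (i := k) (by rw [hlr u hu]; omega)
    have h1 : X.card ≤ D * (X.image (fun v => c (c v))).card := by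
      apply card_le_mul_card_image
      intro z hz
      obtain ⟨v0, hv0, hz0⟩ := mem_image.1 hz
      have hl0 : lev z + 2 = s := by
        have e1 := (hL.ch v0 (by rw [hX v0 hv0]; omega)).1
        have e2 := (hL.ch (c v0) (by rw [hX v0 hv0] at e1; omega)).1
        rw [hX v0 hv0] at e1
        rw [hz0] at e2
        omega
      refine hD V G hF hG a b lev c hL z (by omega) _ (hS.mono (filter_subset _ _)) ?_
      intro v hv
      obtain ⟨h1, h2⟩ := mem_filter.1 hv
      exact ⟨by rw [hX v h1]; omega, h2⟩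
    have h2 : D * (X.image (fun v => c (c v))).card ≤ D * N := Nat.mul_le_mul_left D hX2
    omega

end Pool.Agent.H60
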