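import Pool.Agent.H60.GL

/-! Layers of the closure of a pair, chains, the broom lemma. -/

set_option autoImplicit false
set_option linter.unusedSimpArgs false
set_option linter.unnecessarySeqFocus false
set_option linter.unusedVariables false
set_option linter.deprecated false

namespace Pool.Agent.H60

open Finset Classical

variable {V : Type}

/-- layers of the pair `a, b` with a choice of children -/
structure Ly (G : SimpleGraph V) (a b : V) (lev : V → ℕ) (c : V → V) : Prop where
  ne : a ≠ b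
  mem : ∀ v k, v ∈ cl G k {a, b} ↔ lev v ≤ k
  ch : ∀ v, 1 ≤ lev v → lev (c v) + 1 = lev v ∧ ¬ (G.Adj v (c v) ↔ G.Adj v a)

lemma exists_ly [Finite V] {G : SimpleGraph V} (hG : Prm G) {a b : V} (hab : a ≠ b) :
    ∃ lev c, Ly G a b lev c := by
  obtain ⟨T, hT⟩ := hG.exists_univ (Set.nontrivial_pair hab)
  have hex : ∀ v, ∃ k, v ∈ cl G k {a, b} := fun v => ⟨T, by rw [hT]; trivial⟩
  let lev : V → ℕ := fun v => Nat.find (hex v)
  have hmem : ∀ v k, v ∈ cl G k {a, b} ↔ lev v ≤ k := by
    intro v k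
    constructor
    · intro h; exact Nat.find_min' _ h
    · intro h; exact cl_mono h (Nat.find_spec (hex v))
  have key : ∀ v, ∃ u, 1 ≤ lev v → lev u + 1 = lev v ∧ ¬ (G.Adj v u ↔ G.Adj v a) := by
    intro v
    by_cases hv : 1 ≤ lev v
    · obtain ⟨k, hk⟩ : ∃ k, lev v = k + 1 := ⟨lev v - 1, by omega⟩
      have h1 : v ∈ cl G (k + 1) {a, b} := (hmem v (k + 1)).2 (by omega)
      have h2 : v ∉ cl G k {a, b} := fun h => by have := (hmem v k).1 h; omega
      obtain ⟨x, hx, y, hy, h3, h4⟩ := h1.resolve_left h2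
      have ha0 : a ∈ cl G 0 {a, b} := Set.mem_insert _ _
      obtain ⟨u, hu, hun⟩ : ∃ u ∈ cl G k {a, b}, ¬ (G.Adj v u ↔ G.Adj v a) := by
        by_cases h5 : G.Adj v a
        · exact ⟨y, hy, by tauto⟩
        · exact ⟨x, hx, by tauto⟩
      refine ⟨u, fun _ => ⟨?_, hun⟩⟩
      have hle := (hmem u k).1 hu
      by_contra hne
      have hlt : lev u + 1 ≤ k := by omega
      obtain ⟨k', hk'⟩ : ∃ k', k = k' + 1 := ⟨k - 1, by omega⟩
      subst hk'
      have hu' : u ∈ cl G k' {a, b} := (hmem u k').2 (by omega)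
      exact hun (homog h2 hu' (cl_mono (Nat.zero_le _) ha0))
    · exact ⟨v, fun h => (hv h).elim⟩
  choose c hc using key
  exact ⟨lev, c, hab, hmem, hc⟩

section
variable {G : SimpleGraph V} {a b : V} {lev : V → ℕ} {c : V → V}

lemma Ly.lev0 (h : Ly G a b lev c) {v : V} : lev v = 0 ↔ v = a ∨ v = b := by
  rw [← Nat.le_zero, ← h.mem v 0]
  simp [cl]

lemma Ly.lev_a (h : Ly G a b lev c) : lev a = 0 := h.lev0.2 (Or.inl rfl)
lemma Ly.lev_b (h : Ly G a b lev c) : lev b = 0 := h.lev0.2 (Or.inr rfl)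

lemma Ly.hom (h : Ly G a b lev c) {u v : V} (huv : lev u + 2 ≤ lev v) :
    G.Adj v u ↔ G.Adj v a := by
  have h1 : v ∉ cl G (lev u + 1) {a, b} := by rw [h.mem]; omega
  exact homog h1 ((h.mem u _).2 le_rfl) ((h.mem a _).2 (by rw [h.lev_a]; omega))

/-- iterated children -/
lemma Ly.iter (h : Ly G a b lev c) {v : V} {i : ℕ} (hi : i ≤ lev v) :
    lev (c^[i] v) = lev v - i := by
  induction i with
  | zero => simp
  | succ i ih =>
    have h1 := ih (by omega)
    rw [Function.iterate_succ', Function.comp]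
    have h2 := (h.ch (c^[i] v) (by omega)).1
    omega

lemma Ly.bot (h : Ly G a b lev c) {v : V} (hv : lev v = 1) : c v = b := by
  obtain ⟨h1, h2⟩ := h.ch v (by omega)
  rcases h.lev0.1 (show lev (c v) = 0 by omega) with h3 | h3
  · rw [h3] at h2; exact (h2 Iff.rfl).elim
  · exact h3

end

/-- chains -/
structure Chn (G : SimpleGraph V) (m : ℕ) (f : ℕ → V) (β : ℕ → Bool) : Prop where
  ne : ∀ i j, i < j → j < m → f i ≠ f j
  ad : ∀ i j, i < j → j < m →
    (G.Adj (f i) (f j) ↔ (if i + 1 = j then β j = false else β j = true))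

lemma Chn.mono {G : SimpleGraph V} {m : ℕ} {f : ℕ → V} {β : ℕ → Bool} (h : Chn G m f β) {m' : ℕ}
    (hm : m' ≤ m) : Chn G m' f β :=
  ⟨fun i j hi hj => h.ne i j hi (by omega), fun i j hi hj => h.ad i j hi (by omega)⟩

/-- an upper part of a chain is a chain -/
lemma Chn.drop {G : SimpleGraph V} {m : ℕ} {f : ℕ → V} {β : ℕ → Bool} {k : ℕ}
    (h : Chn G (k + m) f β) : Chn G m (fun i => f (k + i)) (fun i => β (k + i)) := by
  refine ⟨fun i j hi hj => h.ne _ _ (by omega) (by omega), fun i j hi hj => ?_⟩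
  have := h.ad (k + i) (k + j) (by omega) (by omega)
  simp only [show k + i + 1 = k + j ↔ i + 1 = j by omega] at this
  exact this

/-- the canonical chain below a vertex -/
def fch (a : V) (c : V → V) (s : ℕ) (v : V) (j : ℕ) : V := if j = 0 then a else c^[s + 1 - j] v

noncomputable def bch (G : SimpleGraph V) (a : V) (f : ℕ → V) (j : ℕ) : Bool :=
  if j = 1 then !(decide (G.Adj (f 1) a)) else decide (G.Adj (f j) a)

lemma Ly.fch_lev {G : SimpleGraph V} {a b : V} {lev : V → ℕ} {c : V → V} (h : Ly G a b lev c)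
    {v : V} {j : ℕ} (hj : 1 ≤ j) (hj' : j ≤ lev v + 1) : lev (fch a c (lev v) v j) = j - 1 := by
  unfold fch
  rw [if_neg (by omega), h.iter (by omega)]
  omega

lemma Ly.fch_one {G : SimpleGraph V} {a b : V} {lev : V → ℕ} {c : V → V} (h : Ly G a b lev c)
    {v : V} (hv : 1 ≤ lev v) : fch a c (lev v) v 1 = b := by
  unfold fch
  rw [if_neg (by omega)]
  obtain ⟨k, hk⟩ : ∃ k, lev v = k + 1 := ⟨lev v - 1, by omega⟩
  rw [hk, show k + 1 + 1 - 1 = k + 1 by omega, Function.iterate_succ', Function.comp]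
  apply h.bot
  rw [h.iter (by omega)]
  omega

lemma Ly.fch_succ {G : SimpleGraph V} {a b : V} {lev : V → ℕ} {c : V → V} (h : Ly G a b lev c)
    {v : V} {j : ℕ} (hj : 1 ≤ j) (hj' : j ≤ lev v) :
    fch a c (lev v) v j = c (fch a c (lev v) v (j + 1)) := by
  unfold fch
  rw [if_neg (by omega), if_neg (by omega), show lev v + 1 - j = (lev v + 1 - (j + 1)) + 1 by omega,
    Function.iterate_succ', Function.comp]

lemma Ly.chain {G : SimpleGraph V} {a b : V} {lev : V → ℕ} {c : V → V} (h : Ly G a b lev c)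
    {v : V} (hv : 1 ≤ lev v) :
    Chn G (lev v + 2) (fch a c (lev v) v) (bch G a (fch a c (lev v) v)) := by
  have h0 : fch a c (lev v) v 0 = a := by simp [fch]
  constructor
  · intro i j hij hj
    by_cases hi : i = 0
    · subst hi
      rw [h0]
      by_cases hj1 : j = 1
      · subst hj1
        rw [h.fch_one hv]; exact h.ne
      · intro he
        have h1 := h.fch_lev (v := v) (j := j) (by omega) (by omega)
        rw [← he, h.lev_a] at h1
        omega
    · intro he
      have h1 := h.fch_lev (v := v) (j := j) (by omega) (by omega)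
      have h2 := h.fch_lev (v := v) (j := i) (by omega) (by omega)
      rw [← he] at h1
      omega
  · intro i j hij hj
    by_cases hi : i = 0
    · subst hi
      rw [h0, G.adj_comm]
      by_cases hj1 : j = 1
      · subst hj1
        simp [bch]
      · simp only [bch, show ¬ (0 + 1 = j) by omega, hj1, if_false, decide_eq_true_eq]
    · by_cases hij1 : i + 1 = j
      · subst hij1
        simp only [if_true, bch, show ¬ (i + 1 = 1) by omega, if_false, decide_eq_false_iff_not]
        have h1 := h.fch_lev (v := v) (j := i + 1) (by omega) (by omega)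
        have h2 := (h.ch (fch a c (lev v) v (i + 1)) (by omega)).2
        rw [← h.fch_succ (by omega) (by omega)] at h2
        rw [G.adj_comm]
        tauto
      · simp only [bch, if_neg hij1, show ¬ (j = 1) by omega, if_false, decide_eq_true_eq]
        rw [G.adj_comm]
        apply h.hom
        rw [h.fch_lev (by omega) (by omega), h.fch_lev (by omega) (by omega)]
        omega

/-! ### the certificate C7 -/

lemma use7 {G : SimpleGraph V} {q : ℕ} (hq : 8 ≤ q) (hF : Few G q) {f : ℕ → V} {β : ℕ → Bool}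
    (hf : Chn G 7 f β) {a b c : V} (hab : G.Adj a b) (hbc : G.Adj b c)
    (hac : ¬ G.Adj a c) (hac' : a ≠ c) (ht : ∀ i, i < 7 → Trc G a b c (f i)) {X : Finset V}
    (hX : q ≤ X.card) (hXt : ∀ u ∈ X, Trc G a b c u) : False := by
  let F : ℕ → V := fun i => if i < 7 then f i else s3 a b c (i - 7)
  let v : ℕ → Bool := fun i => if i = 0 then true else β i
  have hdom : ∀ i, d10 i = true → i < 10 := by
    intro i hi; simpa [d10] using hi
  have hR : Rl G t7 d10 v F := by
    have key : ∀ i j, i < j → j < 10 → (j < 7) ∨ (i < 7 ∧ (j = 7 ∨ j = 8 ∨ j = 9)) ∨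
        (i = 7 ∧ j = 8) ∨ (i = 7 ∧ j = 9) ∨ (i = 8 ∧ j = 9) := by
      intro i j h1 h2; omega
    constructor
    · intro i j hi hj hij
      have hj' := hdom j hj
      rcases key i j hij hj' with h1 | ⟨h1, h2⟩ | ⟨rfl, rfl⟩ | ⟨rfl, rfl⟩ | ⟨rfl, rfl⟩
      · have hi7 : i < 7 := by omega
        simp only [F, hi7, h1, if_true]
        rw [hf.ad i j hij h1]
        have hj0 : j ≠ 0 := by omega
        simp only [t7, Nat.blt_eq, h1, if_true, Nat.beq_eq]
        split_ifs with h2
        · rw [lv_odd]; simp [v, hj0]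
        · rw [lv_even]; simp [v, hj0]
      · obtain ⟨e1, e2, e3, e4, e5⟩ := ht i h1
        have hj7 : ¬ (j < 7) := by omega
        simp only [F, h1, hj7, if_true, if_false]
        rcases h2 with rfl | rfl | rfl
        · simp only [t7, Nat.blt_eq, Nat.beq_eq, h1, if_true, s3]
          simp [lv, nb01, v, G.adj_comm, e1]
        · simp only [t7, Nat.blt_eq, Nat.beq_eq, h1, if_true, s3]
          simp [lv, nb11, v]; exact fun h => e2 h.symm
        · simp only [t7, Nat.blt_eq, Nat.beq_eq, h1, if_true, s3]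
          simp [lv, nb11, v]; exact fun h => e3 h.symm
      · simp [F, t7, s3, lv, nb01, v, hab]
      · simp [F, t7, s3, lv, nb11, v, hac]
      · simp [F, t7, s3, lv, nb01, v, hbc]
    · intro i j hi hj hij
      have hj' := hdom j hj
      rcases key i j hij hj' with h1 | ⟨h1, h2⟩ | ⟨rfl, rfl⟩ | ⟨rfl, rfl⟩ | ⟨rfl, rfl⟩
      · have hi7 : i < 7 := by omega
        simp only [F, hi7, h1, if_true]
        exact hf.ne i j hij h1
      · obtain ⟨e1, e2, e3, e4, e5⟩ := ht i h1
        have hj7 : ¬ (j < 7) := by omega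
        simp only [F, h1, hj7, if_true, if_false]
        rcases h2 with rfl | rfl | rfl
        · exact e1.ne.symm
        · exact e4.symm
        · exact e5.symm
      · exact hab.ne
      · exact hac'
      · exact hbc.ne
  obtain ⟨kn, N, e, hk, hl⟩ := chk_sound v (ex := fun _ => false) (fun _ h => by simp at h) c7 [0] c7_ok
    (by simp [lv, nb01, v])
  obtain ⟨g1, g2, g3⟩ := leaf_facts hR hk hl
  simp only [ok7, Bool.and_eq_true, inl_iff] at g3
  obtain ⟨m7, m8, m9⟩ := g3
  refine ext_contra' (by omega) hF _ (g1.trans (by omega)) (by omega) X hX ?_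
  intro u hu
  obtain ⟨e1, e2, e3, e4, e5⟩ := hXt u hu
  refine ⟨{u, a, b, c}, ⟨u, a, b, c, rfl, e4.symm, e5.symm, hac', e1.symm, hab, hbc,
    fun h => e2 h.symm, fun h => e3 h.symm, hac⟩, by simp, ?_⟩
  have n7 : a ∈ (supp (pieces 7 N)).toFinset.image F := mem_image.2 ⟨7, by simpa using m7, rfl⟩
  have n8 : b ∈ (supp (pieces 7 N)).toFinset.image F := mem_image.2 ⟨8, by simpa using m8, rfl⟩
  have n9 : c ∈ (supp (pieces 7 N)).toFinset.image F := mem_image.2 ⟨9, by simpa using m9, rfl⟩
  intro z hz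
  simp only [mem_insert, mem_singleton] at hz
  rcases hz with rfl | rfl | rfl | rfl
  · exact mem_insert_self _ _
  · exact mem_insert_of_mem n7
  · exact mem_insert_of_mem n8
  · exact mem_insert_of_mem n9

/-- a pair whose fifth closure has a constant trace on a path -/
lemma small_pair [Finite V] {G : SimpleGraph V} {q : ℕ} (hq : 8 ≤ q) (hF : Few G q) (hG : Prm G)
    {p p' : V} (hpp : p ≠ p') {a b c : V} (hab : G.Adj a b) (hbc : G.Adj b c)
    (hac : ¬ G.Adj a c) (hac' : a ≠ c) (ht : ∀ z ∈ cl G 5 {p, p'}, Trc G a b c z) {X : Finset V}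
    (hX : q ≤ X.card) (hXt : ∀ u ∈ X, Trc G a b c u) : False := by
  obtain ⟨lev, ch, hL⟩ := exists_ly hG hpp
  have hb : ¬ (lev b ≤ 5) := by
    intro h
    exact (ht b ((hL.mem b 5).2 h)).2.2.2.1 rfl
  obtain ⟨v, hv⟩ : ∃ v, lev v = 5 := ⟨ch^[lev b - 5] b, by rw [hL.iter (by omega)]; omega⟩
  have hC := hL.chain (v := v) (by omega)
  rw [hv] at hC
  refine use7 hq hF hC hab hbc hac hac' ?_ hX hXt
  intro i hi
  apply ht
  rw [hL.mem]
  by_cases hi0 : i = 0
  · subst hi0
    simp only [fch, if_true]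
    rw [hL.lev_a]; omega
  · have := hL.fch_lev (v := v) (j := i) (by omega) (by omega)
    rw [hv] at this
    omega

theorem broom (q : ℕ) (hq : 8 ≤ q) : ∃ N : ℕ, ∀ (V : Type) [Finite V] (G : SimpleGraph V), Few G q →
    Prm G → ∀ X : Finset V, Scat G X → N ≤ X.card → ∀ a b c : V, G.Adj a b → G.Adj b c →
    ¬ G.Adj a c → a ≠ c → (∀ u ∈ X, Trc G a b c u) → False := by
  obtain ⟨N1, hN1⟩ := grow_PA hq 2 5
  obtain ⟨N, hN⟩ := extract q hq (N1 + 3 * bb q 5 + 2 * q + 5) 2 (by norm_num)
  refine ⟨max N q, fun V _ G hF hG X hS hX a b c hab hbc hac hac' hXt => ?_⟩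
  set n := N1 + 3 * bb q 5 + 2 * q + 5 with hn
  have hXq : q ≤ X.card := (le_max_right _ _).trans hX
  rcases hN V G hF hG X hS ((le_max_left _ _).trans hX) (s3 a b c) (fun u hu => (hXt u hu).1) (by
    intro s hs1 hs2 u hu
    obtain ⟨e1, e2, e3, e4, e5⟩ := hXt u hu
    rcases (show s = 1 ∨ s = 2 by omega) with rfl | rfl
    · exact ⟨e2, e4⟩
    · exact ⟨e3, e5⟩) with ⟨u, w, xw, hP, hu, hO, h0, h1⟩ | ⟨U, W, e, xw, hNe, hUW⟩
  · -- pairwise anticomplete edges
    set sg : ℕ → Bool := fun s => decide (s = 0) with hsg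
    have hmem : ∀ z, z ∈ Lam G 2 (s3 a b c) sg ↔ Trc G a b c z := by
      intro z
      simp only [Lam, Set.mem_setOf_eq]
      constructor
      · intro h
        have e0 := h 0 (by norm_num)
        have e1 := h 1 (by norm_num)
        have e2 := h 2 (by norm_num)
        simp only [Ok1, s3, hsg] at e0 e1 e2
        exact ⟨e0.1 (by simp), (e1.2 (by simp)).1, (e2.2 (by simp)).1, (e1.2 (by simp)).2,
          (e2.2 (by simp)).2⟩
      · rintro ⟨h1, h2, h3, h4, h5⟩ s hs
        rcases (show s = 0 ∨ s = 1 ∨ s = 2 by omega) with rfl | rfl | rfl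
        · exact ⟨fun _ => h1, fun h => by simp [hsg] at h⟩
        · exact ⟨fun h => by simp [hsg] at h, fun _ => ⟨h2, h4⟩⟩
        · exact ⟨fun h => by simp [hsg] at h, fun _ => ⟨h3, h5⟩⟩
    have hPn : PA G N1 u w ∨ PA Gᶜ N1 u w := by
      rcases hP with hP | hP
      · left; exact ⟨fun i hi => hP.e i (by omega), fun i j hi hj => hP.x i j hi (by omega)⟩
      · right; exact ⟨fun i hi => hP.e i (by omega), fun i j hi hj => hP.x i j hi (by omega)⟩
    obtain ⟨i, hi, hcl⟩ := hN1 V G hF (s3 a b c) sg u w hPn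
      (fun i hi => (hmem _).2 (hXt _ (hu i (by omega))))
      (fun i hi => by
        obtain ⟨_, h2⟩ := hO i (by omega)
        have e0 := h2 0 (by norm_num)
        have e1 := h2 1 (by norm_num)
        have e2 := h2 2 (by norm_num)
        rw [h0] at e0
        rw [h1 1 le_rfl (by norm_num)] at e1
        rw [h1 2 (by norm_num) le_rfl] at e2
        simp only [s3] at e0 e1 e2
        exact (hmem _).2 ⟨by simpa using e0.2, by simpa using e1.2, by simpa using e2.2, e1.1, e2.1⟩)
    have hne : u i ≠ w i := by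
      rcases hPn with hP | hP
      · exact (hP.e i hi).ne
      · exact (hP.e i hi).ne
    exact small_pair hq hF hG hne hab hbc hac hac' (fun z hz => (hmem z).1 (hcl hz)) hXq hXt
  · have hT : (∀ i, i < n → Trc G a b c (U i)) ∧ ∀ i, i < n → Trc G a b c (W i) := by
      have hconv : ∀ p : ℕ → V, Oth G X 2 (s3 a b c) n p xw → ∀ i, i < n → a ≠ p i ∧ b ≠ p i ∧ c ≠ p i ∧
          (G.Adj a (p i) ↔ xw 0 = true) ∧ (G.Adj b (p i) ↔ xw 1 = true) ∧
          (G.Adj c (p i) ↔ xw 2 = true) := by
        intro p hO i hi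
        obtain ⟨_, h2⟩ := hO i hi
        have e0 := h2 0 (by norm_num)
        have e1 := h2 1 (by norm_num)
        have e2 := h2 2 (by norm_num)
        exact ⟨e0.1, e1.1, e2.1, e0.2, e1.2, e2.2⟩
      rcases hUW with ⟨hA, hO⟩ | ⟨hA, hO⟩
      · have h1 := hconv W hO
        have h2 := use5a0 hq hF (n := n) (by omega) hNe hab hbc hac hac' (fun i hi => hXt _ (hA i hi)) h1
        refine ⟨fun i hi => hXt _ (hA i hi), fun i hi => ?_⟩
        obtain ⟨e1, e2, e3, e4, e5, e6⟩ := h1 i hi
        rw [h2.1] at e4; rw [h2.2.1] at e5; rw [h2.2.2] at e6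
        exact ⟨by simpa using e4, by simpa using e5, by simpa using e6, e2, e3⟩
      · have h1 := hconv U hO
        have h2 := use5a1 hq hF (n := n) (by omega) hNe hab hbc hac hac' (fun i hi => hXt _ (hA i hi)) h1
        refine ⟨fun i hi => ?_, fun i hi => hXt _ (hA i hi)⟩
        obtain ⟨e1, e2, e3, e4, e5, e6⟩ := h1 i hi
        rw [h2.1] at e4; rw [h2.2.1] at e5; rw [h2.2.2] at e6
        exact ⟨by simpa using e4, by simpa using e5, by simpa using e6, e2, e3⟩
    have hNe' : Nest G (n - 1 + 1) U W e := by rw [show n - 1 + 1 = n by omega]; exact hNe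
    refine small_pair hq hF hG (hNe.dd 0 0 (by omega) (by omega)) hab hbc hac hac' ?_ hXq hXt
    refine growB5 hq hF hNe'.shift hNe'.good hab hbc hac hac' (fun i hi => hT.1 _ (by omega))
      (fun i hi => hT.2 _ (by omega)) ?_ 5 (by omega) 5 le_rfl
    intro z hz
    simp only [Set.mem_insert_iff, Set.mem_singleton_iff] at hz
    rcases hz with rfl | rfl
    · exact hT.1 0 (by omega)
    · exact hT.2 0 (by omega)

end Pool.Agent.H60
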