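import Pool.Agent.H60.High

/-! A linear order of a prime graph all of whose cuts have few rows. -/

set_option autoImplicit false
set_option linter.unusedSimpArgs false
set_option linter.unnecessarySeqFocus false
set_option linter.unusedVariables false
set_option linter.deprecated false

namespace Pool.Agent.H60

open Finset Classical

section
variable {V : Type} {G : SimpleGraph V}

lemma Sun.p_mem {Y : Finset V} {p : V → V} (h : Sun G Y p) {u v : V} (hu : u ∈ Y) (hv : v ∈ Y)
    (huv : u ≠ v) : p u ∈ Ds G u v ∧ p v ∈ Ds G u v := by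
  rw [h.ds u hu v hv huv]; simp

/-- partners do not depend on the sun -/
lemma Sun.unique {Y Y' : Finset V} {p p' : V → V} (h : Sun G Y p) (h' : Sun G Y' p')
    (hY : 3 ≤ Y.card) (hY' : 7 ≤ Y'.card) {u : V} (hu : u ∈ Y) (hu' : u ∈ Y') : p u = p' u := by
  by_contra hne
  -- choose `v`
  obtain ⟨v, hv, hvu, hpv⟩ : ∃ v ∈ Y, v ≠ u ∧ p v ≠ p' u := by
    obtain ⟨v1, hv1, v2, hv2, h12⟩ := one_lt_card.1 (show 1 < (Y.erase u).card by
      rw [card_erase_of_mem hu]; omega)
    have e1 := ne_of_mem_erase hv1
    have e2 := ne_of_mem_erase hv2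
    have m1 := mem_of_mem_erase hv1
    have m2 := mem_of_mem_erase hv2
    by_cases hc : p v1 = p' u
    · exact ⟨v2, m2, e2, fun h3 => h.ne v1 m1 v2 m2 h12 (hc.trans h3.symm)⟩
    · exact ⟨v1, m1, e1, hc⟩
  -- choose `w`
  let E1 := Y'.filter (fun w => p' w = p u)
  let E2 := Y'.filter (fun w => p' w = p v)
  have hE1 : E1.card ≤ 1 := by
    rw [card_le_one]
    intro x hx y hy
    obtain ⟨x1, x2⟩ := mem_filter.1 hx
    obtain ⟨y1, y2⟩ := mem_filter.1 hy
    by_contra hc
    exact h'.ne x x1 y y1 hc (x2.trans y2.symm)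
  have hE2 : E2.card ≤ 1 := by
    rw [card_le_one]
    intro x hx y hy
    obtain ⟨x1, x2⟩ := mem_filter.1 hx
    obtain ⟨y1, y2⟩ := mem_filter.1 hy
    by_contra hc
    exact h'.ne x x1 y y1 hc (x2.trans y2.symm)
  obtain ⟨w, hw⟩ : (((Y' \ {u, v, p u, p v}) \ E1) \ E2).Nonempty := by
    apply card_pos.1
    have e1 := le_card_sdiff E2 ((Y' \ {u, v, p u, p v}) \ E1)
    have e2 := le_card_sdiff E1 (Y' \ {u, v, p u, p v})
    have e3 := le_card_sdiff {u, v, p u, p v} Y'
    have e4 : ({u, v, p u, p v} : Finset V).card ≤ 4 := card_le_four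
    omega
  simp only [E1, E2, mem_sdiff, mem_insert, mem_singleton, mem_filter, not_or, not_and] at hw
  obtain ⟨⟨⟨hwY, hwu, hwv, hwpu, hwpv⟩, h1⟩, h2⟩ := hw
  have h1 := h1 hwY
  have h2 := h2 hwY
  obtain ⟨d1, d2⟩ := h.p_mem hu hv hvu.symm
  have a1 : G.Adj (p u) u ↔ G.Adj (p u) w := by
    by_contra hc
    have : p u ∈ Ds G u w := ⟨d1.1, fun he => hwpu he.symm, hc⟩
    rw [h'.ds u hu' w hwY (Ne.symm hwu)] at this
    rcases this with h3 | h3
    · exact hne h3
    · exact h1 h3.symm
  have a2 : G.Adj (p v) u ↔ G.Adj (p v) w := by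
    by_contra hc
    have : p v ∈ Ds G u w := ⟨d2.1, fun he => hwpv he.symm, hc⟩
    rw [h'.ds u hu' w hwY (Ne.symm hwu)] at this
    rcases this with h3 | h3
    · exact hpv h3
    · exact h2 h3.symm
  have a3 : u ∈ Ds G (p u) (p v) := by rw [h.ds' u hu v hv hvu.symm]; simp
  have a4 := a3.2.2
  have a5 : w ∈ Ds G (p u) (p v) := by
    refine ⟨hwpu, hwpv, ?_⟩
    rw [G.adj_comm w, G.adj_comm w, ← a1, ← a2, G.adj_comm _ u, G.adj_comm _ u]
    exact a4
  rw [h.ds' u hu v hv hvu.symm] at a5
  rcases a5 with h3 | h3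
  · exact hwu h3
  · exact hwv h3

/-- the partners form a sun -/
lemma Sun.flip {Y : Finset V} {p : V → V} (h : Sun G Y p) :
    ∃ p', Sun G (Y.image p) p' ∧ ∀ u ∈ Y, p' (p u) = u := by
  by_cases hne : Nonempty V
  swap
  · exact ⟨p, ⟨fun u => (hne ⟨u⟩).elim, fun u => (hne ⟨u⟩).elim, fun u => (hne ⟨u⟩).elim⟩,
      fun u => (hne ⟨u⟩).elim⟩
  have hex : ∀ z ∈ Y.image p, ∃ u ∈ Y, p u = z := fun z hz => mem_image.1 hz
  choose! r hr1 hr2 using hex
  have key : ∀ u ∈ Y, r (p u) = u := by
    intro u hu
    by_contra hc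
    exact h.ne _ (hr1 _ (mem_image_of_mem _ hu)) _ hu hc (hr2 _ (mem_image_of_mem _ hu))
  refine ⟨r, ⟨?_, ?_, ?_⟩, key⟩
  · intro x hx y hy hxy
    obtain ⟨u, hu, rfl⟩ := mem_image.1 hx
    obtain ⟨v, hv, rfl⟩ := mem_image.1 hy
    have huv : u ≠ v := by rintro rfl; exact hxy rfl
    rw [key u hu, key v hv]; exact h.ds' u hu v hv huv
  · intro x hx y hy hxy
    obtain ⟨u, hu, rfl⟩ := mem_image.1 hx
    obtain ⟨v, hv, rfl⟩ := mem_image.1 hy
    have huv : u ≠ v := by rintro rfl; exact hxy rfl
    rw [key u hu, key v hv]; exact h.ds u hu v hv huv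
  · intro x hx y hy hxy
    obtain ⟨u, hu, rfl⟩ := mem_image.1 hx
    obtain ⟨v, hv, rfl⟩ := mem_image.1 hy
    have huv : u ≠ v := by rintro rfl; exact hxy rfl
    rw [key u hu, key v hv]; exact huv

lemma Sun.card_image {Y : Finset V} {p : V → V} (h : Sun G Y p) : (Y.image p).card = Y.card := by
  apply card_image_of_injOn
  intro u hu v hv he
  by_contra hc
  exact h.ne u hu v hv hc he

def Rich (G : SimpleGraph V) (u : V) : Prop := ∃ Y p, Sun G Y p ∧ 7 ≤ Y.card ∧ u ∈ Y

/-- the partner involution -/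
theorem exists_star (G : SimpleGraph V) : ∃ σ : V → V, (∀ u, σ (σ u) = u) ∧
    (∀ Y p, Sun G Y p → 7 ≤ Y.card → ∀ u ∈ Y, σ u = p u) ∧
    (∀ u, σ u ≠ u → ∃ Y p, Sun G Y p ∧ 7 ≤ Y.card ∧ u ∈ Y) := by
  have hex : ∀ u, ∃ z, (∀ Y p, Sun G Y p → 7 ≤ Y.card → u ∈ Y → z = p u) ∧
      (z ≠ u → ∃ Y p, Sun G Y p ∧ 7 ≤ Y.card ∧ u ∈ Y) := by
    intro u
    by_cases h : Rich G u
    · obtain ⟨Y, p, hY, hc, hu⟩ := h
      exact ⟨p u, fun Y' p' hY' hc' hu' => hY.unique hY' (by omega) hc' hu hu',
        fun _ => ⟨Y, p, hY, hc, hu⟩⟩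
    · exact ⟨u, fun Y p hY hc hu => (h ⟨Y, p, hY, hc, hu⟩).elim, fun h => (h rfl).elim⟩
  choose σ h1 h2 using hex
  refine ⟨σ, ?_, fun Y p hY hc u hu => h1 u Y p hY hc hu, h2⟩
  intro u
  by_cases hu : σ u = u
  · rw [hu, hu]
  · obtain ⟨Y, p, hY, hc, huY⟩ := h2 u hu
    obtain ⟨p', hp', hk⟩ := hY.flip
    rw [h1 u Y p hY hc huY]
    rw [h1 (p u) (Y.image p) p' hp' (by rw [hY.card_image]; exact hc) (mem_image_of_mem _ huY)]
    exact hk u huY

/-- levels of partners -/
lemma Sun.lev {a b : V} {lev : V → ℕ} {c : V → V} (hL : Ly G a b lev c) {Y : Finset V} {p : V → V}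
    (h : Sun G Y p) (hc : 4 ≤ Y.card) {u : V} (hu : u ∈ Y) (h1 : 1 ≤ lev u) :
    lev (p u) ≤ lev u + 1 := by
  by_contra hcon
  push Not at hcon
  obtain ⟨k1, k2⟩ := hL.ch u h1
  have key : ∀ v ∈ Y.erase u, p v = c u ∨ p v = a := by
    intro v hv
    have hvu := ne_of_mem_erase hv
    have hvY := mem_of_mem_erase hv
    obtain ⟨d1, d2⟩ := h.p_mem hu hvY hvu.symm
    have e1 := hL.hom (u := u) (v := p u) (by omega)
    have hlv : lev u + 1 ≤ lev v := by
      by_contra hl
      have e2 := hL.hom (u := v) (v := p u) (by omega)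
      exact d1.2.2 (e1.trans e2.symm)
    have e3 := hL.hom (u := c u) (v := v) (by omega)
    have hau := hL.ne_a h1
    have hav := hL.ne_a (v := v) (by omega)
    have hla := hL.lev_a
    have : c u ∈ Ds G u v ∨ a ∈ Ds G u v := by
      by_contra hno
      push Not at hno
      obtain ⟨n1, n2⟩ := hno
      have f1 : G.Adj (c u) u ↔ G.Adj (c u) v := by
        by_contra hc'
        exact n1 ⟨by intro he; rw [he] at k1; omega, by intro he; rw [he] at k1; omega, hc'⟩
      have f2 : G.Adj a u ↔ G.Adj a v := by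
        by_contra hc'
        exact n2 ⟨hau.symm, hav.symm, hc'⟩
      rw [G.adj_comm _ u, G.adj_comm _ v] at f1 f2
      exact k2 (f1.trans (e3.trans f2.symm))
    rw [h.ds u hu v hvY hvu.symm] at this
    rcases this with (h3 | h3) | (h3 | h3)
    · rw [← h3] at hcon; omega
    · left; exact h3.symm
    · rw [← h3] at hcon; omega
    · right; exact h3.symm
  have h2 : ((Y.erase u).image p).card = (Y.erase u).card := by
    apply card_image_of_injOn
    intro x hx y hy he
    by_contra hc'
    exact h.ne x (mem_of_mem_erase hx) y (mem_of_mem_erase hy) hc' he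
  have h3 : (Y.erase u).image p ⊆ {c u, a} := by
    intro z hz
    obtain ⟨v, hv, rfl⟩ := mem_image.1 hz
    rcases key v hv with h4 | h4 <;> simp [h4]
  have h4 := card_le_card h3
  have h5 : ({c u, a} : Finset V).card ≤ 2 := card_le_two
  rw [h2, card_erase_of_mem hu] at h4
  omega

end

/-- rows of a cut -/
noncomputable def row {V : Type} [Fintype V] (G : SimpleGraph V) (g : V → ℕ) (t : ℕ) (u : V) : Finset V :=
  univ.filter (fun z => t ≤ g z ∧ G.Adj u z)

theorem order (q : ℕ) (hq : 8 ≤ q) : ∃ K : ℕ, ∀ (V : Type) [Fintype V] (G : SimpleGraph V),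
    Few G q → Prm G → ∃ g : V → ℕ, (∀ t, (univ.filter (fun v => g v = t)).card ≤ 2) ∧
      ∀ t, ((univ.filter (fun v => g v < t)).image (row G g t)).card ≤ K := by
  obtain ⟨C, hC⟩ := levb q hq
  obtain ⟨N, hN⟩ := scat_or_sun (C * 3 + 1) 7
  refine ⟨2 + (1 + N), fun V _ G hF hG => ?_⟩
  obtain ⟨a, b, hab, hM⟩ := exists_mxp hG
  obtain ⟨lev, c, hL⟩ := exists_ly hG hab
  obtain ⟨σ, hσ, hσ1, hσ2⟩ := exists_star G
  set n := Fintype.card V with hn
  let e := Fintype.equivFin V
  let idx : V → ℕ := fun v => e v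
  have hidx : ∀ u v, idx u = idx v → u = v := fun u v h => e.injective (Fin.ext h)
  have hidn : ∀ u, idx u < n := fun u => (e u).2
  let m : V → ℕ := fun v => min (lev v) (lev (σ v))
  let rp : V → ℕ := fun v => min (idx v) (idx (σ v))
  have hmσ : ∀ v, m (σ v) = m v := by intro v; simp only [m, hσ, min_comm]
  have hrσ : ∀ v, rp (σ v) = rp v := by intro v; simp only [rp, hσ, min_comm]
  have hrn : ∀ v, rp v < n := fun v => lt_of_le_of_lt (min_le_left _ _) (hidn v)
  let g : V → ℕ := fun v => m v * n + rp v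
  have hgσ : ∀ v, g (σ v) = g v := by intro v; simp only [g, hmσ, hrσ]
  have hlm : ∀ v, v ≠ σ a → v ≠ σ b → lev v ≤ m v + 1 := by
    intro v h1 h2
    by_cases hv : σ v = v
    · simp only [m, hv, min_self]; omega
    · obtain ⟨Y, p, hY, hc, hvY⟩ := hσ2 v hv
      by_cases h0 : 1 ≤ lev (σ v)
      · have h3 := hY
        obtain ⟨p', hp', hk⟩ := hY.flip
        have h4 := hp'.lev hL (by rw [hY.card_image]; omega) (mem_image_of_mem p hvY)
          (by rw [← hσ1 Y p hY hc v hvY]; exact h0)
        rw [hk v hvY, ← hσ1 Y p hY hc v hvY] at h4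
        simp only [m]; omega
      · rcases hL.lev0.1 (show lev (σ v) = 0 by omega) with h3 | h3
        · exact (h1 (by rw [← h3, hσ])).elim
        · exact (h2 (by rw [← h3, hσ])).elim
  refine ⟨g, ?_, ?_⟩
  · intro t
    by_cases hne : (univ.filter (fun v => g v = t)).Nonempty
    · obtain ⟨u, hu⟩ := hne
      have hu' := (mem_filter.1 hu).2
      have hsub : univ.filter (fun v => g v = t) ⊆ {u, σ u} := by
        intro v hv
        have hv' := (mem_filter.1 hv).2
        have he : m u * n + rp u = m v * n + rp v := hu'.trans hv'.symm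
        have h1 : rp u = rp v := by
          have e1 : (m u * n + rp u) % n = rp u := by
            rw [Nat.mul_comm, Nat.mul_add_mod, Nat.mod_eq_of_lt (hrn u)]
          have e2 : (m v * n + rp v) % n = rp v := by
            rw [Nat.mul_comm, Nat.mul_add_mod, Nat.mod_eq_of_lt (hrn v)]
          rw [← e1, he, e2]
        simp only [mem_insert, mem_singleton]
        simp only [rp] at h1
        rcases le_total (idx u) (idx (σ u)) with h2 | h2 <;>
        rcases le_total (idx v) (idx (σ v)) with h3 | h3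
        · rw [min_eq_left h2, min_eq_left h3] at h1
          left; exact (hidx _ _ h1).symm
        · rw [min_eq_left h2, min_eq_right h3] at h1
          right; rw [hidx _ _ h1, hσ]
        · rw [min_eq_right h2, min_eq_left h3] at h1
          right; exact (hidx _ _ h1).symm
        · rw [min_eq_right h2, min_eq_right h3] at h1
          left
          have := hidx _ _ h1
          rw [← hσ v, ← this, hσ]
      exact (card_le_card hsub).trans card_le_two
    · rw [not_nonempty_iff_eq_empty] at hne
      rw [hne]; simp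
  · intro t
    have hn0 : 0 < n := by
      rw [hn]; exact Fintype.card_pos_iff.2 ⟨a⟩
    set j := t / n with hj
    have hout : ∀ z, t ≤ g z → j ≤ lev z := by
      intro z hz
      have h1 : j ≤ m z := by
        by_contra hc
        have h2 : m z + 1 ≤ j := by omega
        have h3 : (m z + 1) * n ≤ j * n := Nat.mul_le_mul_right n h2
        have h4 : j * n ≤ t := Nat.div_mul_le_self t n
        have h5 := hrn z
        have h6 : g z = m z * n + rp z := rfl
        rw [Nat.add_mul, Nat.one_mul] at h3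
        omega
      exact h1.trans (min_le_left _ _)
    have hin : ∀ v, g v < t → m v ≤ j := by
      intro v hv
      rw [hj, Nat.le_div_iff_mul_le hn0]
      have h6 : g v = m v * n + rp v := rfl
      omega
    set A := univ.filter (fun v => g v < t) with hA
    let E := A.filter (fun v => v = σ a ∨ v = σ b)
    let Lo := A.filter (fun v => lev v + 2 ≤ j)
    let Mi := A.filter (fun v => j ≤ lev v + 1 ∧ lev v ≤ j + 1)
    have hsub : A ⊆ E ∪ (Lo ∪ Mi) := by
      intro v hv
      have hv' := (mem_filter.1 hv).2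
      by_cases h1 : v = σ a ∨ v = σ b
      · exact mem_union_left _ (mem_filter.2 ⟨hv, h1⟩)
      · push Not at h1
        have h2 := hlm v h1.1 h1.2
        have h3 := hin v hv'
        by_cases h4 : lev v + 2 ≤ j
        · exact mem_union_right _ (mem_union_left _ (mem_filter.2 ⟨hv, h4⟩))
        · exact mem_union_right _ (mem_union_right _ (mem_filter.2 ⟨hv, by omega, by omega⟩))
    have c1 : (E.image (row G g t)).card ≤ 2 := by
      refine card_image_le.trans ?_
      have : E ⊆ {σ a, σ b} := by
        intro v hv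
        rcases (mem_filter.1 hv).2 with h | h <;> simp [h]
      exact (card_le_card this).trans card_le_two
    have c2 : (Lo.image (row G g t)).card ≤ 1 := by
      rw [card_le_one]
      intro x hx y hy
      obtain ⟨u, hu, rfl⟩ := mem_image.1 hx
      obtain ⟨v, hv, rfl⟩ := mem_image.1 hy
      have hu' := (mem_filter.1 hu).2
      have hv' := (mem_filter.1 hv).2
      ext z
      simp only [row, mem_filter, mem_univ, true_and]
      refine and_congr_right fun hz => ?_
      have hz' := hout z hz
      rw [G.adj_comm u, G.adj_comm v, hL.hom (u := u) (v := z) (by omega),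
        hL.hom (u := v) (v := z) (by omega)]
    have c3 : (Mi.image (row G g t)).card ≤ N := by
      by_contra hcon
      push Not at hcon
      have hex : ∀ r ∈ Mi.image (row G g t), ∃ u ∈ Mi, row G g t u = r := fun r hr => mem_image.1 hr
      have : Nonempty V := ⟨a⟩
      choose! s hs1 hs2 using hex
      have hsi : Set.InjOn s (Mi.image (row G g t) : Finset (Finset V)) := by
        intro x hx y hy he
        rw [← hs2 x hx, ← hs2 y hy, he]
      have hX : ∀ u ∈ (Mi.image (row G g t)).image s, u ∈ Mi := by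
        intro u hu
        obtain ⟨r, hr, rfl⟩ := mem_image.1 hu
        exact hs1 r hr
      have hXr : ∀ u ∈ (Mi.image (row G g t)).image s, ∀ v ∈ (Mi.image (row G g t)).image s,
          row G g t u = row G g t v → u = v := by
        intro u hu v hv he
        obtain ⟨x, hx, rfl⟩ := mem_image.1 hu
        obtain ⟨y, hy, rfl⟩ := mem_image.1 hv
        rw [hs2 x hx, hs2 y hy] at he
        rw [he]
      rcases hN V G ((Mi.image (row G g t)).image s) (by
        rw [card_image_of_injOn hsi]; omega) with ⟨Y, hY, hYS, hYc⟩ | ⟨Y, hY, hYc, p, hp⟩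
      · have h1 : Y.card ≤ C * (Y.image lev).card := by
          apply card_le_mul_card_image
          intro l _
          exact hC V G hF hG a b lev c hL hM l _ (hYS.mono (filter_subset _ _))
            (fun v hv => (mem_filter.1 hv).2)
        have h2 : Y.image lev ⊆ Icc (j - 1) (j + 1) := by
          intro l hl
          obtain ⟨v, hv, rfl⟩ := mem_image.1 hl
          have := (mem_filter.1 (hX v (hY hv))).2
          rw [mem_Icc]; omega
        have h3 := card_le_card h2
        rw [Nat.card_Icc] at h3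
        have h4 : C * (Y.image lev).card ≤ C * 3 := Nat.mul_le_mul_left C (by omega)
        omega
      · obtain ⟨u, hu, v, hv, huv⟩ := one_lt_card.1 (show 1 < Y.card by omega)
        have hne : row G g t u ≠ row G g t v := fun he => huv (hXr u (hY hu) v (hY hv) he)
        have hgu : g u < t := (mem_filter.1 (mem_filter.1 (hX u (hY hu))).1).2
        have hgv : g v < t := (mem_filter.1 (mem_filter.1 (hX v (hY hv))).1).2
        apply hne
        ext z
        simp only [row, mem_filter, mem_univ, true_and]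
        refine and_congr_right fun hz => ?_
        by_contra hc'
        have hzD : z ∈ Ds G u v := by
          refine ⟨?_, ?_, ?_⟩
          · rintro rfl; omega
          · rintro rfl; omega
          · rw [G.adj_comm z, G.adj_comm z]; exact hc'
        rw [hp.ds u hu v hv huv] at hzD
        rcases hzD with h1 | h1
        · rw [h1, ← hσ1 Y p hp hYc u hu, hgσ] at hz
          omega
        · rw [Set.mem_singleton_iff] at h1
          rw [h1, ← hσ1 Y p hp hYc v hv, hgσ] at hz
          omega
    have c4 := card_le_card (image_subset_image (f := row G g t) hsub)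
    rw [image_union, image_union] at c4
    have c5 := card_union_le (E.image (row G g t)) (Lo.image (row G g t) ∪ Mi.image (row G g t))
    have c6 := card_union_le (Lo.image (row G g t)) (Mi.image (row G g t))
    omega

end Pool.Agent.H60
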