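import Pool.Agent.H60.Ramsey

/-! Modules, closures, distinguishing sets and twin legs. -/

set_option autoImplicit false

namespace Pool.Agent.H60

open Finset Classical

variable {V : Type}

/-- vertices that distinguish `u` from `v` -/
def Ds (G : SimpleGraph V) (u v : V) : Set V := {z | z ≠ u ∧ z ≠ v ∧ ¬ (G.Adj z u ↔ G.Adj z v)}

/-- twin legs: `u`, `v` are distinguished exactly by two vertices which are distinguished exactly
by `u` and `v` -/
def Tw (G : SimpleGraph V) (u v : V) : Prop :=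
  ∃ p p', p ≠ p' ∧ Ds G u v = {p, p'} ∧ Ds G p p' = {u, v}

def Scat (G : SimpleGraph V) (X : Finset V) : Prop := ∀ u ∈ X, ∀ v ∈ X, u ≠ v → ¬ Tw G u v

def Modl (G : SimpleGraph V) (H : Set V) : Prop :=
  ∀ z, z ∉ H → ∀ x ∈ H, ∀ y ∈ H, (G.Adj z x ↔ G.Adj z y)

structure Prm (G : SimpleGraph V) : Prop where
  three : ∃ a b c : V, a ≠ b ∧ a ≠ c ∧ b ≠ c
  md : ∀ H : Set V, Modl G H → H.Subsingleton ∨ H = Set.univ

/-- vertices mixed on `H` -/
def mx (G : SimpleGraph V) (H : Set V) : Set V := {v | ∃ x ∈ H, ∃ y ∈ H, G.Adj v x ∧ ¬ G.Adj v y}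

/-- iterated closure -/
def cl (G : SimpleGraph V) : ℕ → Set V → Set V
  | 0, H => H
  | k + 1, H => cl G k H ∪ mx G (cl G k H)

lemma Ds_comm {G : SimpleGraph V} {u v : V} : Ds G u v = Ds G v u := by
  ext z; simp only [Ds, Set.mem_setOf_eq]; tauto

lemma Ds_compl {G : SimpleGraph V} {u v : V} : Ds Gᶜ u v = Ds G u v := by
  ext z; simp only [Ds, Set.mem_setOf_eq, SimpleGraph.compl_adj]
  constructor
  · rintro ⟨h1, h2, h3⟩; exact ⟨h1, h2, by tauto⟩
  · rintro ⟨h1, h2, h3⟩; exact ⟨h1, h2, by tauto⟩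

lemma Tw_comm {G : SimpleGraph V} {u v : V} (h : Tw G u v) : Tw G v u := by
  obtain ⟨p, p', h1, h2, h3⟩ := h
  exact ⟨p, p', h1, by rw [Ds_comm]; exact h2, by rw [h3, Set.pair_comm]⟩

lemma Tw_compl {G : SimpleGraph V} {u v : V} : Tw Gᶜ u v ↔ Tw G u v := by
  unfold Tw; simp only [Ds_compl]

lemma Scat_compl {G : SimpleGraph V} {X : Finset V} : Scat Gᶜ X ↔ Scat G X := by
  unfold Scat; simp only [Tw_compl]

lemma Scat.mono {G : SimpleGraph V} {X Y : Finset V} (h : Scat G X) (hY : Y ⊆ X) : Scat G Y :=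
  fun u hu v hv => h u (hY hu) v (hY hv)

lemma Modl_compl {G : SimpleGraph V} {H : Set V} (h : Modl Gᶜ H) : Modl G H := by
  intro z hz x hx y hy
  have := h z hz x hx y hy
  simp only [SimpleGraph.compl_adj] at this
  have h1 : z ≠ x := by rintro rfl; exact hz hx
  have h2 : z ≠ y := by rintro rfl; exact hz hy
  tauto

lemma Prm.compl {G : SimpleGraph V} (h : Prm G) : Prm Gᶜ :=
  ⟨h.three, fun H hH => h.md H (Modl_compl hH)⟩

lemma mx_compl {G : SimpleGraph V} {H : Set V} : H ∪ mx Gᶜ H = H ∪ mx G H := by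
  ext v
  simp only [Set.mem_union, mx, Set.mem_setOf_eq, SimpleGraph.compl_adj]
  constructor
  · rintro (h | ⟨x, hx, y, hy, h1, h2⟩)
    · exact Or.inl h
    · by_cases hv : v ∈ H
      · exact Or.inl hv
      · right
        refine ⟨y, hy, x, hx, ?_, h1.2⟩
        have : v ≠ y := by rintro rfl; exact hv hy
        tauto
  · rintro (h | ⟨x, hx, y, hy, h1, h2⟩)
    · exact Or.inl h
    · by_cases hv : v ∈ H
      · exact Or.inl hv
      · right
        refine ⟨y, hy, x, hx, ?_, ?_⟩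
        · exact ⟨by rintro rfl; exact hv hy, h2⟩
        · rintro ⟨_, h3⟩; exact h3 h1

lemma cl_compl {G : SimpleGraph V} {H : Set V} (k : ℕ) : cl Gᶜ k H = cl G k H := by
  induction k with
  | zero => rfl
  | succ k ih => simp only [cl, ih, mx_compl]

lemma mx_mono {G : SimpleGraph V} {H H' : Set V} (h : H ⊆ H') : mx G H ⊆ mx G H' := by
  rintro v ⟨x, hx, y, hy, h1⟩
  exact ⟨x, h hx, y, h hy, h1⟩

lemma cl_succ_sub {G : SimpleGraph V} {H : Set V} {k : ℕ} : cl G k H ⊆ cl G (k + 1) H :=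
  Set.subset_union_left

lemma cl_mono {G : SimpleGraph V} {H : Set V} {k l : ℕ} (h : k ≤ l) : cl G k H ⊆ cl G l H := by
  induction l, h using Nat.le_induction with
  | base => exact Set.Subset.refl _
  | succ l _ ih => exact ih.trans cl_succ_sub

lemma sub_cl {G : SimpleGraph V} {H : Set V} {k : ℕ} : H ⊆ cl G k H :=
  cl_mono (G := G) (H := H) (Nat.zero_le k)

lemma cl_mono_set {G : SimpleGraph V} {H H' : Set V} (h : H ⊆ H') (k : ℕ) :
    cl G k H ⊆ cl G k H' := by
  induction k with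
  | zero => exact h
  | succ k ih => exact Set.union_subset_union ih (mx_mono ih)

lemma cl_add {G : SimpleGraph V} {H : Set V} (k l : ℕ) : cl G (k + l) H = cl G k (cl G l H) := by
  induction k with
  | zero => simp [cl]
  | succ k ih =>
    rw [show k + 1 + l = (k + l) + 1 by omega]
    simp only [cl, ih]

lemma mem_cl_of_mx {G : SimpleGraph V} {H : Set V} {k : ℕ} {v x y : V} (hx : x ∈ cl G k H)
    (hy : y ∈ cl G k H) (h1 : G.Adj v x) (h2 : ¬ G.Adj v y) : v ∈ cl G (k + 1) H :=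
  Or.inr ⟨x, hx, y, hy, h1, h2⟩

/-- mixed, in `iff` form -/
lemma mem_cl_of_ne {G : SimpleGraph V} {H : Set V} {k : ℕ} {v x y : V} (hx : x ∈ cl G k H)
    (hy : y ∈ cl G k H) (h : ¬ (G.Adj v x ↔ G.Adj v y)) : v ∈ cl G (k + 1) H := by
  by_cases h1 : G.Adj v x
  · exact mem_cl_of_mx hx hy h1 (by tauto)
  · exact mem_cl_of_mx hy hx (by tauto) h1

/-- a vertex outside `cl (k+1)` is homogeneous on `cl k` -/
lemma homog {G : SimpleGraph V} {H : Set V} {k : ℕ} {v : V} (hv : v ∉ cl G (k + 1) H) {x y : V}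
    (hx : x ∈ cl G k H) (hy : y ∈ cl G k H) : G.Adj v x ↔ G.Adj v y := by
  by_contra h
  exact hv (mem_cl_of_ne hx hy h)

lemma Prm.step {G : SimpleGraph V} (hG : Prm G) {H : Set V} (hH : H.Nontrivial)
    (hu : H ≠ Set.univ) : ∃ v, v ∉ H ∧ v ∈ mx G H := by
  by_contra hcon
  push Not at hcon
  have hm : Modl G H := by
    intro z hz x hx y hy
    by_contra h
    apply hcon z hz
    by_cases h1 : G.Adj z x
    · exact ⟨x, hx, y, hy, h1, by tauto⟩
    · exact ⟨y, hy, x, hx, by tauto, h1⟩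
  rcases hG.md H hm with h | h
  · exact Set.not_subsingleton_iff.2 hH h
  · exact hu h

lemma Prm.ds {G : SimpleGraph V} (hG : Prm G) {u v : V} (h : u ≠ v) : ∃ z, z ∈ Ds G u v := by
  obtain ⟨a, b, c, h1, h2, h3⟩ := hG.three
  have hH : ({u, v} : Set V).Nontrivial := Set.nontrivial_pair h
  have hu : ({u, v} : Set V) ≠ Set.univ := by
    intro he
    have ha : a ∈ ({u, v} : Set V) := he ▸ Set.mem_univ a
    have hb : b ∈ ({u, v} : Set V) := he ▸ Set.mem_univ b
    have hc : c ∈ ({u, v} : Set V) := he ▸ Set.mem_univ c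
    simp only [Set.mem_insert_iff, Set.mem_singleton_iff] at ha hb hc
    rcases ha with rfl | rfl <;> rcases hb with rfl | rfl <;> rcases hc with rfl | rfl <;>
      simp_all
  obtain ⟨z, hz, x, hx, y, hy, h4, h5⟩ := hG.step hH hu
  simp only [Set.mem_insert_iff, Set.mem_singleton_iff, not_or] at hx hy hz
  refine ⟨z, hz.1, hz.2, ?_⟩
  rcases hx with rfl | rfl <;> rcases hy with rfl | rfl <;> tauto

lemma Prm.exists_univ {G : SimpleGraph V} [Finite V] (hG : Prm G) {H : Set V}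
    (hH : H.Nontrivial) : ∃ k, cl G k H = Set.univ := by
  by_contra hcon
  push Not at hcon
  have key : ∀ k, k ≤ (cl G k H).ncard := by
    intro k
    induction k with
    | zero => exact Nat.zero_le _
    | succ k ih =>
      obtain ⟨v, hv1, hv2⟩ := hG.step (hH.mono sub_cl) (hcon k)
      have h1 : cl G k H ⊂ cl G (k + 1) H :=
        ⟨cl_succ_sub, fun h => hv1 (h (Or.inr hv2))⟩
      have := Set.ncard_lt_ncard h1 (Set.toFinite _)
      omega
  have h1 := key (Nat.card V + 1)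
  have h2 : (cl G (Nat.card V + 1) H).ncard ≤ Nat.card V := by
    rw [← Set.ncard_univ]
    exact Set.ncard_le_ncard (Set.subset_univ _) (Set.toFinite _)
  omega

/-- the first step of a closure -/
lemma first_step {G : SimpleGraph V} {H : Set V} (hH : H.Nonempty) :
    ∀ (l : ℕ) (v : V), v ∈ cl G (l + 1) H → v ∉ H →
      ∃ z, z ∉ H ∧ z ∈ mx G H ∧ v ∈ cl G l (insert z H) := by
  intro l
  induction l with
  | zero =>
    intro v hv hvH
    rcases hv with hv | hv
    · exact (hvH hv).elim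
    · exact ⟨v, hvH, hv, Set.mem_insert _ _⟩
  | succ l ih =>
    intro v hv hvH
    by_cases hv1 : v ∈ cl G (l + 1) H
    · obtain ⟨z, h1, h2, h3⟩ := ih v hv1 hvH
      exact ⟨z, h1, h2, cl_succ_sub h3⟩
    · by_cases hv2 : v ∈ mx G H
      · exact ⟨v, hvH, hv2, sub_cl (Set.mem_insert _ _)⟩
      · obtain ⟨h0, hh0⟩ := hH
        obtain ⟨x, hx, y, hy, h1, h2⟩ := hv.resolve_left hv1
        have hom : ∀ h ∈ H, (G.Adj v h ↔ G.Adj v h0) := by
          intro h hh
          by_contra hc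
          apply hv2
          by_cases h3 : G.Adj v h
          · exact ⟨h, hh, h0, hh0, h3, by tauto⟩
          · exact ⟨h0, hh0, h, hh, by tauto, h3⟩
        obtain ⟨u, hu, hun⟩ : ∃ u ∈ cl G (l + 1) H, ¬ (G.Adj v u ↔ G.Adj v h0) := by
          by_cases h3 : G.Adj v h0
          · exact ⟨y, hy, by tauto⟩
          · exact ⟨x, hx, by tauto⟩
        have huH : u ∉ H := fun h => hun (hom u h)
        obtain ⟨z, h4, h5, h6⟩ := ih u hu huH
        exact ⟨z, h4, h5, mem_cl_of_ne h6 (sub_cl (Set.mem_insert_of_mem _ hh0)) hun⟩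

/-- enumeration of a finite set -/
lemma enum {α : Type} (X : Finset α) (hX : X.Nonempty) : ∃ e : ℕ → α, (∀ i, i < X.card → e i ∈ X) ∧
    ∀ i j, i < j → j < X.card → e i ≠ e j := by
  obtain ⟨x0, hx0⟩ := hX
  refine ⟨fun i => if h : i < X.card then (X.equivFin.symm ⟨i, h⟩ : α) else x0, ?_, ?_⟩
  · intro i hi
    simp only [hi, dif_pos]
    exact (X.equivFin.symm ⟨i, hi⟩).2
  · intro i j hij hj
    have hi : i < X.card := by omega
    simp only [hi, hj, dif_pos]
    intro h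
    have := X.equivFin.symm.injective (Subtype.ext h)
    simp only [Fin.mk.injEq] at this
    omega

/-- a large family of pairwise twin legs, with its partner function -/
structure Sun (G : SimpleGraph V) (Y : Finset V) (p : V → V) : Prop where
  ds : ∀ u ∈ Y, ∀ v ∈ Y, u ≠ v → Ds G u v = {p u, p v}
  ds' : ∀ u ∈ Y, ∀ v ∈ Y, u ≠ v → Ds G (p u) (p v) = {u, v}
  ne : ∀ u ∈ Y, ∀ v ∈ Y, u ≠ v → p u ≠ p v

lemma pair_mem {a b c d : V} {A : Set V} (h : A = {a, b}) (hc : c ∈ A) (hd : d ∈ A) (hcd : c ≠ d) :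
    A = {c, d} := by
  rw [h] at hc hd ⊢
  simp only [Set.mem_insert_iff, Set.mem_singleton_iff] at hc hd
  rcases hc with rfl | rfl <;> rcases hd with rfl | rfl
  · exact (hcd rfl).elim
  · rfl
  · exact Set.pair_comm _ _
  · exact (hcd rfl).elim

lemma inter_one {A B : Set V} {a b c d r r' : V} (hab : a ≠ b) (hcd : c ≠ d)
    (hA : A = {a, b}) (hB : B = {c, d})
    (hr : ∀ z, (z = r ∨ z = r') ↔ ((z ∈ A ∧ z ∉ B) ∨ (z ∉ A ∧ z ∈ B))) :
    ∃ x y z, x ≠ y ∧ x ≠ z ∧ y ≠ z ∧ A = {x, y} ∧ B = {x, z} := by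
  by_cases ha : a ∈ B
  · by_cases hb : b ∈ B
    · -- equal sets
      have hAB : B = A := by rw [pair_mem hB ha hb hab, hA]
      have := (hr r).1 (Or.inl rfl)
      rw [hAB] at this; tauto
    · obtain ⟨z, hz1, hz2⟩ : ∃ z ∈ B, z ≠ a := by
        rw [hB]
        by_cases h : c = a
        · exact ⟨d, by simp, by rw [← h]; exact hcd.symm⟩
        · exact ⟨c, by simp, h⟩
      exact ⟨a, b, z, hab, hz2.symm, fun h => hb (h ▸ hz1), hA, pair_mem hB ha hz1 hz2.symm⟩
  · by_cases hb : b ∈ B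
    · obtain ⟨z, hz1, hz2⟩ : ∃ z ∈ B, z ≠ b := by
        rw [hB]
        by_cases h : c = b
        · exact ⟨d, by simp, by rw [← h]; exact hcd.symm⟩
        · exact ⟨c, by simp, h⟩
      exact ⟨b, a, z, hab.symm, hz2.symm, fun h => ha (h ▸ hz1), by rw [hA, Set.pair_comm],
        pair_mem hB hb hz1 hz2.symm⟩
    · -- disjoint
      exfalso
      have haA : a ∈ A := by rw [hA]; simp
      have hbA : b ∈ A := by rw [hA]; simp
      have hcB : c ∈ B := by rw [hB]; simp
      have hcA : c ∉ A := by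
        intro h
        rw [hA] at h
        rcases h with h | h
        · exact ha (h ▸ hcB)
        · rw [Set.mem_singleton_iff] at h
          exact hb (h ▸ hcB)
      have h1 := (hr a).2 (Or.inl ⟨haA, ha⟩)
      have h2 := (hr b).2 (Or.inl ⟨hbA, hb⟩)
      have h3 := (hr c).2 (Or.inr ⟨hcA, hcB⟩)
      have hca : c ≠ a := fun h => hcA (h ▸ haA)
      have hcb : c ≠ b := fun h => hcA (h ▸ hbA)
      rcases h1 with h1 | h1 <;> rcases h2 with h2 | h2 <;> rcases h3 with h3 | h3 <;>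
        first
        | exact hab (h1.trans h2.symm)
        | exact hca (h3.trans h1.symm)
        | exact hcb (h3.trans h2.symm)

theorem sun_of {G : SimpleGraph V} {Y : Finset V} (hc : 6 ≤ Y.card)
    (ht : ∀ u ∈ Y, ∀ v ∈ Y, u ≠ v → Tw G u v)
    (hh : ∀ u ∈ Y, ∀ v ∈ Y, ∀ w ∈ Y, w ≠ u → w ≠ v → (G.Adj w u ↔ G.Adj w v)) :
    ∃ p : V → V, Sun G Y p := by
  -- no member of `Y` distinguishes
  have hno : ∀ u ∈ Y, ∀ v ∈ Y, ∀ w ∈ Y, w ∉ Ds G u v := by
    intro u hu v hv w hw hd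
    exact hd.2.2 (hh u hu v hv w hw hd.1 hd.2.1)
  have hsym : ∀ u ∈ Y, ∀ v ∈ Y, ∀ w ∈ Y, u ≠ v → u ≠ w → v ≠ w → ∀ z, z ∈ Ds G v w ↔
      ((z ∈ Ds G u v ∧ z ∉ Ds G u w) ∨ (z ∉ Ds G u v ∧ z ∈ Ds G u w)) := by
    intro u hu v hv w hw huv huw hvw z
    by_cases hz : z ∈ Y
    · have h1 := hno u hu v hv z hz
      have h2 := hno u hu w hw z hz
      have h3 := hno v hv w hw z hz
      tauto
    · have h1 : z ≠ u := fun h => hz (h ▸ hu)
      have h2 : z ≠ v := fun h => hz (h ▸ hv)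
      have h3 : z ≠ w := fun h => hz (h ▸ hw)
      simp only [Ds, Set.mem_setOf_eq]
      tauto
  have htri : ∀ u ∈ Y, ∀ v ∈ Y, ∀ w ∈ Y, u ≠ v → u ≠ w → v ≠ w →
      ∃ x y z, x ≠ y ∧ x ≠ z ∧ y ≠ z ∧ Ds G u v = {x, y} ∧ Ds G u w = {x, z} := by
    intro u hu v hv w hw huv huw hvw
    obtain ⟨a, b, hab, hA, _⟩ := ht u hu v hv huv
    obtain ⟨c, d, hcd, hB, _⟩ := ht u hu w hw huw
    obtain ⟨r, r', _, hC, _⟩ := ht v hv w hw hvw
    refine inter_one hab hcd hA hB (r := r) (r' := r') ?_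
    intro z
    rw [← hsym u hu v hv w hw huv huw hvw z, hC]
    simp
  -- common element
  have hcom : ∀ u ∈ Y, ∃ x, ∀ v ∈ Y, u ≠ v → x ∈ Ds G u v := by
    intro u hu
    have hce : 5 ≤ (Y.erase u).card := by rw [card_erase_of_mem hu]; omega
    obtain ⟨v1, hv1⟩ : (Y.erase u).Nonempty := card_pos.1 (by omega)
    obtain ⟨v2, hv2⟩ : ((Y.erase u).erase v1).Nonempty := card_pos.1 (by
      rw [card_erase_of_mem hv1]; omega)
    have hv1Y := mem_of_mem_erase hv1
    have hv2' := mem_of_mem_erase hv2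
    have hv2Y := mem_of_mem_erase hv2'
    have h1u : u ≠ v1 := (ne_of_mem_erase hv1).symm
    have h2u : u ≠ v2 := (ne_of_mem_erase hv2').symm
    have h12 : v1 ≠ v2 := (ne_of_mem_erase hv2).symm
    obtain ⟨x, y1, y2, hxy1, hxy2, hyy, hD1, hD2⟩ := htri u hu v1 hv1Y v2 hv2Y h1u h2u h12
    refine ⟨x, ?_⟩
    by_contra hcon
    push Not at hcon
    obtain ⟨v0, hv0Y, hu0, hx0⟩ := hcon
    have h01 : v0 ≠ v1 := by rintro rfl; apply hx0; rw [hD1]; simp
    have h02 : v0 ≠ v2 := by rintro rfl; apply hx0; rw [hD2]; simp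
    -- `Ds u v0 = {y1, y2}`
    have hy1 : y1 ∈ Ds G u v0 := by
      obtain ⟨a, b, c, _, _, _, e1, e2⟩ := htri u hu v1 hv1Y v0 hv0Y h1u hu0 h01.symm
      have ha : a ∈ Ds G u v0 := by rw [e2]; simp
      have ha' : a ∈ Ds G u v1 := by rw [e1]; simp
      rw [hD1] at ha'
      rcases ha' with rfl | h
      · exact (hx0 ha).elim
      · rw [Set.mem_singleton_iff] at h; rw [← h]; exact ha
    have hy2 : y2 ∈ Ds G u v0 := by
      obtain ⟨a, b, c, _, _, _, e1, e2⟩ := htri u hu v2 hv2Y v0 hv0Y h2u hu0 h02.symm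
      have ha : a ∈ Ds G u v0 := by rw [e2]; simp
      have ha' : a ∈ Ds G u v2 := by rw [e1]; simp
      rw [hD2] at ha'
      rcases ha' with rfl | h
      · exact (hx0 ha).elim
      · rw [Set.mem_singleton_iff] at h; rw [← h]; exact ha
    obtain ⟨_, _, _, hD0', _⟩ := ht u hu v0 hv0Y hu0
    have hD0 := pair_mem hD0' hy1 hy2 hyy
    -- another vertex
    obtain ⟨v3, hv3⟩ : ((((Y.erase u).erase v1).erase v2).erase v0).Nonempty := by
      apply card_pos.1
      have e1 : (((Y.erase u).erase v1).erase v2).card = (Y.erase u).card - 1 - 1 := by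
        rw [card_erase_of_mem hv2, card_erase_of_mem hv1]
      have e2 := pred_card_le_card_erase (s := ((Y.erase u).erase v1).erase v2) (a := v0)
      omega
    simp only [mem_erase, ne_eq] at hv3
    obtain ⟨h30, h32, h31, h3u, hv3Y⟩ := hv3
    have h3u' : u ≠ v3 := fun h => h3u h.symm
    obtain ⟨a, b, c, hab, hac, hbc, e1, e2⟩ := htri u hu v0 hv0Y v3 hv3Y hu0 h3u' (fun h => h30 h.symm)
    obtain ⟨a', b', c', hab', hac', hbc', e1', e2'⟩ := htri u hu v1 hv1Y v3 hv3Y h1u h3u' (fun h => h31 h.symm)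
    obtain ⟨a'', b'', c'', hab'', hac'', hbc'', e1'', e2''⟩ := htri u hu v2 hv2Y v3 hv3Y h2u h3u' (fun h => h32 h.symm)
    have p0 : a ∈ Ds G u v3 := by rw [e2]; simp
    have p0' : a ∈ Ds G u v0 := by rw [e1]; simp
    have p1 : a' ∈ Ds G u v3 := by rw [e2']; simp
    have p1' : a' ∈ Ds G u v1 := by rw [e1']; simp
    have p2 : a'' ∈ Ds G u v3 := by rw [e2'']; simp
    have p2' : a'' ∈ Ds G u v2 := by rw [e1'']; simp
    rw [hD0] at p0'
    rw [hD1] at p1'
    rw [hD2] at p2'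
    simp only [Set.mem_insert_iff, Set.mem_singleton_iff] at p0' p1' p2'
    -- two common elements with one of the three sets are impossible
    have two : ∀ v ∈ Y, u ≠ v → v ≠ v3 → ∀ s t, s ≠ t → s ∈ Ds G u v → t ∈ Ds G u v →
        s ∈ Ds G u v3 → t ∈ Ds G u v3 → False := by
      intro v hv huv hv3 s t hst h1 h2 h3 h4
      obtain ⟨a, b, c, hab, hac, hbc, e1, e2⟩ := htri u hu v hv v3 hv3Y huv h3u' hv3
      rw [e1] at h1 h2
      rw [e2] at h3 h4
      simp only [Set.mem_insert_iff, Set.mem_singleton_iff] at h1 h2 h3 h4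
      rcases h1 with rfl | rfl
      · rcases h2 with h2 | rfl
        · exact hst h2.symm
        · rcases h4 with h4 | h4
          · exact hab h4.symm
          · exact hbc h4
      · rcases h3 with h3 | h3
        · exact hab h3.symm
        · exact hbc h3
    have hD1x : x ∈ Ds G u v1 := by rw [hD1]; simp
    have hD1y : y1 ∈ Ds G u v1 := by rw [hD1]; simp
    have hD2x : x ∈ Ds G u v2 := by rw [hD2]; simp
    have hD2y : y2 ∈ Ds G u v2 := by rw [hD2]; simp
    have k0 := two v0 hv0Y hu0 (fun h => h30 h.symm) y1 y2 hyy hy1 hy2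
    have k1 := two v1 hv1Y h1u (fun h => h31 h.symm) x y1 hxy1 hD1x hD1y
    have k2 := two v2 hv2Y h2u (fun h => h32 h.symm) x y2 hxy2 hD2x hD2y
    rcases p0' with rfl | rfl <;> rcases p1' with rfl | rfl <;> rcases p2' with rfl | rfl <;> tauto
  choose! p hp using hcom
  have hne : ∀ u ∈ Y, ∀ v ∈ Y, u ≠ v → p u ≠ p v := by
    intro u hu v hv huv he
    obtain ⟨w, hw⟩ : ((Y.erase u).erase v).Nonempty := card_pos.1 (by
      have e1 := card_erase_of_mem hu
      have e2 := pred_card_le_card_erase (s := Y.erase u) (a := v)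
      omega)
    simp only [mem_erase, ne_eq] at hw
    obtain ⟨hwv, hwu, hwY⟩ := hw
    have h1 := hp u hu v hv huv
    have h2 := hp u hu w hwY (fun h => hwu h.symm)
    have h3 := hp v hv w hwY (fun h => hwv h.symm)
    rw [← he] at h3
    have := (hsym u hu v hv w hwY huv (fun h => hwu h.symm) (fun h => hwv h.symm) (p u)).1 h3
    tauto
  have hds : ∀ u ∈ Y, ∀ v ∈ Y, u ≠ v → Ds G u v = {p u, p v} := by
    intro u hu v hv huv
    obtain ⟨_, _, _, h, _⟩ := ht u hu v hv huv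
    refine pair_mem h (hp u hu v hv huv) ?_ (hne u hu v hv huv)
    rw [Ds_comm]; exact hp v hv u hu huv.symm
  refine ⟨p, hds, ?_, hne⟩
  intro u hu v hv huv
  obtain ⟨a, b, hab, h1, h2⟩ := ht u hu v hv huv
  have e := hds u hu v hv huv
  rw [h1] at e
  have ha : a ∈ ({p u, p v} : Set V) := by rw [← e]; simp
  have hb : b ∈ ({p u, p v} : Set V) := by rw [← e]; simp
  simp only [Set.mem_insert_iff, Set.mem_singleton_iff] at ha hb
  rcases ha with rfl | rfl <;> rcases hb with rfl | rfl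
  · exact (hab rfl).elim
  · exact h2
  · rw [Ds_comm]; exact h2
  · exact (hab rfl).elim

/-- a large set contains a large scattered set or a large family of twin legs -/
theorem scat_or_sun (n m : ℕ) : ∃ N : ℕ, ∀ (V : Type) (G : SimpleGraph V) (X : Finset V),
    N ≤ X.card → (∃ Y ⊆ X, Scat G Y ∧ n ≤ Y.card) ∨ ∃ Y ⊆ X, m ≤ Y.card ∧ ∃ p, Sun G Y p := by
  obtain ⟨N, hN⟩ := ramsey (Bool × Bool) (n + m + 6)
  refine ⟨N + 1, fun V G X hX => ?_⟩
  obtain ⟨e, he1, he2⟩ := enum X (card_pos.1 (by omega))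
  obtain ⟨g, ⟨c1, c2⟩, hg1, hg2, hg3⟩ := hN (fun i j => (decide (Tw G (e i) (e j)), decide (G.Adj (e i) (e j))))
    (range X.card) (by rw [card_range]; omega)
  have hgX : ∀ a < n + m + 6, g a < X.card := fun a ha => mem_range.1 (hg1 a ha)
  set Y := (range (n + m + 6)).image (fun a => e (g a)) with hY
  have hinj : ∀ a b, a < b → b < n + m + 6 → e (g a) ≠ e (g b) := fun a b hab hb =>
    he2 _ _ (hg2 a b hab hb) (hgX b hb)
  have hYc : Y.card = n + m + 6 := by
    rw [hY, card_image_of_injOn, card_range]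
    intro a ha b hb hab
    have ha' := mem_range.1 (mem_coe.1 ha)
    have hb' := mem_range.1 (mem_coe.1 hb)
    rcases Nat.lt_trichotomy a b with h | h | h
    · exact (hinj a b h hb' hab).elim
    · exact h
    · exact (hinj b a h ha' hab.symm).elim
  have hYX : Y ⊆ X := by
    intro y hy
    obtain ⟨a, ha, rfl⟩ := mem_image.1 hy
    exact he1 _ (hgX a (mem_range.1 ha))
  have hcol : ∀ a b, a < b → b < n + m + 6 → decide (Tw G (e (g a)) (e (g b))) = c1 ∧
      decide (G.Adj (e (g a)) (e (g b))) = c2 := by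
    intro a b hab hb
    have := hg3 a b hab hb
    simpa using this
  have hcol' : ∀ a b, a ≠ b → a < n + m + 6 → b < n + m + 6 → (Tw G (e (g a)) (e (g b)) ↔ c1 = true) ∧
      (G.Adj (e (g a)) (e (g b)) ↔ c2 = true) := by
    intro a b hab ha hb
    rcases Nat.lt_or_gt_of_ne hab with h | h
    · obtain ⟨h1, h2⟩ := hcol a b h hb
      rw [← h1, ← h2]; simp
    · obtain ⟨h1, h2⟩ := hcol b a h ha
      rw [← h1, ← h2, G.adj_comm]
      simp only [decide_eq_true_eq, and_true]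
      exact ⟨Tw_comm, Tw_comm⟩
  cases hc1 : c1 with
  | false =>
    left
    refine ⟨Y, hYX, ?_, by omega⟩
    intro u hu v hv huv
    obtain ⟨a, ha, rfl⟩ := mem_image.1 hu
    obtain ⟨b, hb, rfl⟩ := mem_image.1 hv
    have hab : a ≠ b := by rintro rfl; exact huv rfl
    rw [(hcol' a b hab (mem_range.1 ha) (mem_range.1 hb)).1, hc1]
    simp
  | true =>
    right
    refine ⟨Y, hYX, by omega, sun_of (by omega) ?_ ?_⟩
    · intro u hu v hv huv
      obtain ⟨a, ha, rfl⟩ := mem_image.1 hu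
      obtain ⟨b, hb, rfl⟩ := mem_image.1 hv
      have hab : a ≠ b := by rintro rfl; exact huv rfl
      rw [(hcol' a b hab (mem_range.1 ha) (mem_range.1 hb)).1, hc1]
    · intro u hu v hv w hw hwu hwv
      obtain ⟨a, ha, rfl⟩ := mem_image.1 hu
      obtain ⟨b, hb, rfl⟩ := mem_image.1 hv
      obtain ⟨c, hc, rfl⟩ := mem_image.1 hw
      have h1 : c ≠ a := by rintro rfl; exact hwu rfl
      have h2 : c ≠ b := by rintro rfl; exact hwv rfl
      rw [(hcol' c a h1 (mem_range.1 hc) (mem_range.1 ha)).2,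
        (hcol' c b h2 (mem_range.1 hc) (mem_range.1 hb)).2]

end Pool.Agent.H60
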