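import Pool.Agent.H60.Certs
import Pool.Agent.H60.Certs6
import Pool.Agent.H60.Prime

/-! The certificates as statements about families of vertices. -/

set_option autoImplicit false
set_option linter.unusedSimpArgs false
set_option linter.unnecessarySeqFocus false
set_option linter.unusedVariables false

namespace Pool.Agent.H60

open Finset Classical

variable {V : Type}

/-- increasing enumeration -/
lemma incr (I : Finset ℕ) : ∃ g : ℕ → ℕ, (∀ a, a < I.card → g a ∈ I) ∧
    ∀ a b, a < b → b < I.card → g a < g b := by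
  refine ⟨fun a => if h : a < I.card then I.orderEmbOfFin rfl ⟨a, h⟩ else 0, ?_, ?_⟩
  · intro a ha
    simp only [ha, dif_pos]
    exact I.orderEmbOfFin_mem rfl _
  · intro a b hab hb
    have ha : a < I.card := by omega
    simp only [ha, hb, dif_pos]
    exact (I.orderEmbOfFin rfl).strictMono (by simpa using hab)

def s1 (x : V) (_ : ℕ) : V := x
def s2 (x y : V) : ℕ → V
  | 0 => x
  | _ => y
def s3 (x y z : V) : ℕ → V
  | 0 => x
  | 1 => y
  | _ => z
def s6 (a b c x y z : V) : ℕ → V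
  | 0 => a
  | 1 => b
  | 2 => c
  | 3 => x
  | 4 => y
  | _ => z
def f2 (p q : ℕ → V) : ℕ → ℕ → V
  | 0, i => p i
  | _, i => q i
def f3 (p q r : ℕ → V) : ℕ → ℕ → V
  | 0, i => p i
  | 1, i => q i
  | _, i => r i

def v7 (a b c d e f g : Bool) : ℕ → Bool
  | 0 => true
  | 1 => a
  | 2 => b
  | 3 => c
  | 4 => d
  | 5 => e
  | 6 => f
  | _ => g

lemma nb01 : Nat.beq 0 1 = false := rfl
lemma nb11 : Nat.beq 1 1 = true := rfl

/-- `z` adjacent to `p i`, not to `r i`, for pairwise anticomplete edges `p i, r i` -/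
lemma use3a {G : SimpleGraph V} {q n : ℕ} (hq : 8 ≤ q) (h : Few G q) (hn : 2 * q + 4 ≤ n) {z : V}
    {p r : ℕ → V} (hz : ∀ i, i < n → z ≠ r i ∧ G.Adj z (p i) ∧ ¬ G.Adj z (r i) ∧ G.Adj (p i) (r i))
    (h3 : ∀ i j, i < j → j < n → p i ≠ p j ∧ r i ≠ r j ∧ p i ≠ r j ∧ r i ≠ p j ∧
      ¬ G.Adj (p i) (p j) ∧ ¬ G.Adj (r i) (r j) ∧ ¬ G.Adj (p i) (r j) ∧ ¬ G.Adj (r i) (p j)) :
    False := by
  refine block_contra (TT := 7) (m := 4) (S := 1) (F := 2) (by omega) (by omega) h hn
    (sg := s1 z) (fm := f2 p r) (v := fun _ => true) (t0 := k0) (t1 := c3at1) (t2 := k0) (t3 := k1)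
    ?_ (exf []) (exf_spec (by simp)) [0] (by simp [lv, nb01]) c3a c3a_ok
  constructor
  · intro s t hst ht; omega
  · intro s t i hs ht hi
    obtain ⟨a1, a2, a3, a4⟩ := hz i hi
    interval_cases s <;> interval_cases t <;> simp [lv, nb01, nb11, s1, f2, c3at1, *]
  · intro s t i hs ht hi
    obtain ⟨a1, a2, a3, a4⟩ := hz i hi
    interval_cases t <;> interval_cases s <;> simp [lv, nb01, nb11, f2, k0, *]
  · intro s t i j hs ht hi hj
    obtain ⟨a1, a2, a3, a4, a5, a6, a7, a8⟩ := h3 i j hi hj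
    interval_cases s <;> interval_cases t <;> simp [lv, nb11, f2, k1, *]
  · intro s t hst ht; omega
  · intro s t i hs ht hi
    obtain ⟨a1, a2, a3, a4⟩ := hz i hi
    have := a2.ne
    interval_cases s <;> interval_cases t <;> simp [s1, f2, *]
  · intro s t i hs ht hi
    obtain ⟨a1, a2, a3, a4⟩ := hz i hi
    have := a4.ne
    interval_cases t <;> interval_cases s <;> simp [f2, *]
  · intro s t i j hs ht hi hj
    obtain ⟨a1, a2, a3, a4, a5, a6, a7, a8⟩ := h3 i j hi hj
    interval_cases s <;> interval_cases t <;> simp [f2, *]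

/-- pairwise anticomplete edges -/
structure PA (G : SimpleGraph V) (n : ℕ) (p r : ℕ → V) : Prop where
  e : ∀ i, i < n → G.Adj (p i) (r i)
  x : ∀ i j, i < j → j < n → p i ≠ p j ∧ r i ≠ r j ∧ p i ≠ r j ∧ r i ≠ p j ∧
      ¬ G.Adj (p i) (p j) ∧ ¬ G.Adj (r i) (r j) ∧ ¬ G.Adj (p i) (r j) ∧ ¬ G.Adj (r i) (p j)

/-- `z i` adjacent to `p i`, not to `r i`, uniform on the other edges -/
structure PZ (G : SimpleGraph V) (n : ℕ) (p r z : ℕ → V) (a b c : Bool) : Prop extends PA G n p r where
  z0 : ∀ i, i < n → z i ≠ r i ∧ G.Adj (z i) (p i) ∧ ¬ G.Adj (z i) (r i)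
  z1 : ∀ i j, i < j → j < n → z i ≠ p j ∧ z i ≠ r j ∧ (G.Adj (z i) (p j) ↔ a = true) ∧
    (G.Adj (z i) (r j) ↔ a = true)
  z2 : ∀ i j, i < j → j < n → z j ≠ p i ∧ z j ≠ r i ∧ (G.Adj (z j) (p i) ↔ b = true) ∧
    (G.Adj (z j) (r i) ↔ b = true)
  z3 : ∀ i j, i < j → j < n → z i ≠ z j ∧ (G.Adj (z i) (z j) ↔ c = true)

lemma use3b {G : SimpleGraph V} {q n : ℕ} (hq : 8 ≤ q) (h : Few G q) (hn : 2 * q + 4 ≤ n)
    {p r z : ℕ → V} {a b c : Bool} (hz : PZ G n p r z a b c) :
    a = false ∧ b = false ∧ c = false := by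
  by_contra hcon
  refine block_contra (TT := 7) (m := 3) (S := 0) (F := 3) (by omega) (by omega) h (n := n) (by omega)
    (sg := z) (fm := f3 p r z) (v := v7 a b c true true true true) (t0 := k0) (t1 := k0)
    (t2 := c3t2) (t3 := c3bt3)
    ?_ (exf c3bf) (exf_spec ?_) [0] (by simp [lv, nb01, v7]) c3b c3b_ok
  · constructor
    · intro s t hst ht; omega
    · intro s t i hs ht hi; omega
    · intro s t i hs ht hi
      obtain ⟨a1, a2, a3⟩ := hz.z0 i hi
      have a4 := hz.e i hi
      have a5 := a2.symm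
      have a6 : ¬ G.Adj (r i) (z i) := fun h => a3 h.symm
      interval_cases t <;> interval_cases s <;> simp [lv, nb01, nb11, f3, v7, c3t2, *]
    · intro s t i j hs ht hi hj
      obtain ⟨a1, a2, a3, a4, a5, a6, a7, a8⟩ := hz.x i j hi hj
      obtain ⟨b1, b2, b3, b4⟩ := hz.z1 i j hi hj
      obtain ⟨c1, c2, c3, c4⟩ := hz.z2 i j hi hj
      obtain ⟨d1, d2⟩ := hz.z3 i j hi hj
      rw [G.adj_comm] at c3 c4
      interval_cases s <;> interval_cases t <;> simp [lv, nb01, nb11, f3, v7, c3bt3, *]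
    · intro s t hst ht; omega
    · intro s t i hs ht hi; omega
    · intro s t i hs ht hi
      obtain ⟨a1, a2, a3⟩ := hz.z0 i hi
      have a4 := (hz.e i hi).ne
      have a5 := a2.ne.symm
      have a6 := a1.symm
      interval_cases t <;> interval_cases s <;> simp [f3, *]
    · intro s t i j hs ht hi hj
      obtain ⟨a1, a2, a3, a4, a5, a6, a7, a8⟩ := hz.x i j hi hj
      obtain ⟨b1, b2, b3, b4⟩ := hz.z1 i j hi hj
      obtain ⟨c1, c2, c3, c4⟩ := hz.z2 i j hi hj
      obtain ⟨d1, d2⟩ := hz.z3 i j hi hj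
      have e1 := c1.symm
      have e2 := c2.symm
      interval_cases s <;> interval_cases t <;> simp [f3, *]
  · cases a <;> cases b <;> cases c <;> simp_all [c3bf, lv, nb01, nb11, v7]

lemma use3x {G : SimpleGraph V} {q n : ℕ} (hq : 8 ≤ q) (h : Few G q) (hn : 2 * q + 4 ≤ n)
    {p r z : ℕ → V} (hz : PZ G n p r z false false false) {x : V}
    (hx : ∀ i, i < n → G.Adj x (p i) ∧ G.Adj x (r i) ∧ ¬ G.Adj x (z i) ∧ x ≠ z i) : False := by
  refine block_contra (TT := 7) (m := 3) (S := 1) (F := 3) (by omega) (by omega) h (n := n) (by omega)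
    (sg := s1 x) (fm := f3 p r z) (v := fun _ => true) (t0 := k0) (t1 := c3xt1)
    (t2 := c3t2) (t3 := k1)
    ?_ (exf []) (exf_spec (by simp)) [0] (by simp [lv, nb01]) c3x c3x_ok
  · constructor
    · intro s t hst ht; omega
    · intro s t i hs ht hi
      obtain ⟨a1, a2, a3, a4⟩ := hx i hi
      interval_cases s <;> interval_cases t <;> simp [lv, nb01, nb11, s1, f3, c3xt1, *]
    · intro s t i hs ht hi
      obtain ⟨a1, a2, a3⟩ := hz.z0 i hi
      have a4 := hz.e i hi
      have a5 := a2.symm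
      have a6 : ¬ G.Adj (r i) (z i) := fun h => a3 h.symm
      interval_cases t <;> interval_cases s <;> simp [lv, nb01, nb11, f3, v7, c3t2, *]
    · intro s t i j hs ht hi hj
      obtain ⟨a1, a2, a3, a4, a5, a6, a7, a8⟩ := hz.x i j hi hj
      obtain ⟨b1, b2, b3, b4⟩ := hz.z1 i j hi hj
      obtain ⟨c1, c2, c3, c4⟩ := hz.z2 i j hi hj
      obtain ⟨d1, d2⟩ := hz.z3 i j hi hj
      rw [G.adj_comm] at c3 c4
      interval_cases s <;> interval_cases t <;> simp [lv, nb01, nb11, f3, k1, *]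
    · intro s t hst ht; omega
    · intro s t i hs ht hi
      obtain ⟨a1, a2, a3, a4⟩ := hx i hi
      have := a1.ne
      have := a2.ne
      interval_cases s <;> interval_cases t <;> simp [s1, f3, *]
    · intro s t i hs ht hi
      obtain ⟨a1, a2, a3⟩ := hz.z0 i hi
      have a4 := (hz.e i hi).ne
      have a5 := a2.ne.symm
      have a6 := a1.symm
      interval_cases t <;> interval_cases s <;> simp [f3, *]
    · intro s t i j hs ht hi hj
      obtain ⟨a1, a2, a3, a4, a5, a6, a7, a8⟩ := hz.x i j hi hj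
      obtain ⟨b1, b2, b3, b4⟩ := hz.z1 i j hi hj
      obtain ⟨c1, c2, c3, c4⟩ := hz.z2 i j hi hj
      obtain ⟨d1, d2⟩ := hz.z3 i j hi hj
      have e1 := c1.symm
      have e2 := c2.symm
      interval_cases s <;> interval_cases t <;> simp [f3, *]

lemma use3y {G : SimpleGraph V} {q n : ℕ} (hq : 8 ≤ q) (h : Few G q) (hn : 2 * q + 4 ≤ n)
    {p r z : ℕ → V} (hz : PZ G n p r z false false false) {y : V}
    (hy : ∀ i, i < n → y ≠ p i ∧ y ≠ r i ∧ ¬ G.Adj y (p i) ∧ ¬ G.Adj y (r i) ∧ G.Adj y (z i)) :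
    False := by
  refine block_contra (TT := 7) (m := 3) (S := 1) (F := 3) (by omega) (by omega) h (n := n) (by omega)
    (sg := s1 y) (fm := f3 p r z) (v := fun _ => true) (t0 := k0) (t1 := c3yt1)
    (t2 := c3t2) (t3 := k1)
    ?_ (exf []) (exf_spec (by simp)) [0] (by simp [lv, nb01]) c3y c3y_ok
  · constructor
    · intro s t hst ht; omega
    · intro s t i hs ht hi
      obtain ⟨a1, a2, a3, a4, a5⟩ := hy i hi
      interval_cases s <;> interval_cases t <;> simp [lv, nb01, nb11, s1, f3, c3yt1, *]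
    · intro s t i hs ht hi
      obtain ⟨a1, a2, a3⟩ := hz.z0 i hi
      have a4 := hz.e i hi
      have a5 := a2.symm
      have a6 : ¬ G.Adj (r i) (z i) := fun h => a3 h.symm
      interval_cases t <;> interval_cases s <;> simp [lv, nb01, nb11, f3, v7, c3t2, *]
    · intro s t i j hs ht hi hj
      obtain ⟨a1, a2, a3, a4, a5, a6, a7, a8⟩ := hz.x i j hi hj
      obtain ⟨b1, b2, b3, b4⟩ := hz.z1 i j hi hj
      obtain ⟨c1, c2, c3, c4⟩ := hz.z2 i j hi hj
      obtain ⟨d1, d2⟩ := hz.z3 i j hi hj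
      rw [G.adj_comm] at c3 c4
      interval_cases s <;> interval_cases t <;> simp [lv, nb01, nb11, f3, k1, *]
    · intro s t hst ht; omega
    · intro s t i hs ht hi
      obtain ⟨a1, a2, a3, a4, a5⟩ := hy i hi
      have := a5.ne
      interval_cases s <;> interval_cases t <;> simp [s1, f3, *]
    · intro s t i hs ht hi
      obtain ⟨a1, a2, a3⟩ := hz.z0 i hi
      have a4 := (hz.e i hi).ne
      have a5 := a2.ne.symm
      have a6 := a1.symm
      interval_cases t <;> interval_cases s <;> simp [f3, *]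
    · intro s t i j hs ht hi hj
      obtain ⟨a1, a2, a3, a4, a5, a6, a7, a8⟩ := hz.x i j hi hj
      obtain ⟨b1, b2, b3, b4⟩ := hz.z1 i j hi hj
      obtain ⟨c1, c2, c3, c4⟩ := hz.z2 i j hi hj
      obtain ⟨d1, d2⟩ := hz.z3 i j hi hj
      have e1 := c1.symm
      have e2 := c2.symm
      interval_cases s <;> interval_cases t <;> simp [f3, *]

/-- uniform pairs -/
structure Unf (G : SimpleGraph V) (n : ℕ) (u w : ℕ → V) (uu ww g d : Bool) : Prop where
  du : ∀ i j, i < j → j < n → u i ≠ u j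
  dw : ∀ i j, i < j → j < n → w i ≠ w j
  dd : ∀ i j, i < n → j < n → w i ≠ u j
  auu : ∀ i j, i < j → j < n → (G.Adj (u i) (u j) ↔ uu = true)
  aww : ∀ i j, i < j → j < n → (G.Adj (w i) (w j) ↔ ww = true)
  ag : ∀ i j, i < j → j < n → (G.Adj (w i) (u j) ↔ g = true)
  ad : ∀ i j, i < j → j < n → (G.Adj (w j) (u i) ↔ d = true)
  ae : ∀ i, i < n → (G.Adj (w i) (u i) ↔ g = false)

lemma use1 {G : SimpleGraph V} {q n : ℕ} (hq : 8 ≤ q) (h : Few G q) (hn : 2 * q + 5 ≤ n)
    {u w : ℕ → V} {uu ww g d xw yw : Bool} (hU : Unf G n u w uu ww g d) {x y : V} (hxy : x ≠ y)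
    (hx : ∀ i, i < n → G.Adj x (u i) ∧ x ≠ w i ∧ (G.Adj x (w i) ↔ xw = true))
    (hy : ∀ i, i < n → y ≠ u i ∧ ¬ G.Adj y (u i) ∧ y ≠ w i ∧ (G.Adj y (w i) ↔ yw = true)) :
    (uu = false ∧ ww = false ∧ g = false ∧ d = false ∧ xw = true ∧ yw = false) ∨
    (uu = true ∧ ww = true ∧ g = true ∧ d = true ∧ xw = true ∧ yw = false) ∨ uu ≠ ww := by
  by_contra hcon
  refine block_contra (TT := 7) (m := 5) (S := 2) (F := 2) (by omega) (by omega) h (n := n) (by omega)
    (sg := s2 x y) (fm := f2 u w) (v := v7 uu ww g d xw yw (decide (G.Adj x y)))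
    (t0 := c1t0) (t1 := c1t1) (t2 := c1t2) (t3 := c1t3)
    ?_ (exf c1f) (exf_spec ?_) [0] (by simp [lv, nb01, v7]) c1 c1_ok
  · constructor
    · intro s t hst ht
      interval_cases t <;> interval_cases s <;> simp [lv, nb01, nb11, s2, v7, c1t0, *]
    · intro s t i hs ht hi
      obtain ⟨a1, a2, a3⟩ := hx i hi
      obtain ⟨b1, b2, b3, b4⟩ := hy i hi
      interval_cases s <;> interval_cases t <;> simp [lv, nb01, nb11, s2, f2, v7, c1t1, *]
    · intro s t i hs ht hi
      have a1 := hU.ae i hi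
      rw [G.adj_comm] at a1
      interval_cases t <;> interval_cases s <;> simp [lv, nb01, nb11, f2, v7, c1t2, *]
    · intro s t i j hs ht hi hj
      have a1 := hU.auu i j hi hj
      have a2 := hU.aww i j hi hj
      have a3 := hU.ag i j hi hj
      have a4 := hU.ad i j hi hj
      rw [G.adj_comm] at a4
      interval_cases s <;> interval_cases t <;> simp [lv, nb01, nb11, f2, v7, c1t3, *]
    · intro s t hst ht
      interval_cases t <;> interval_cases s <;> simp [s2, *]
    · intro s t i hs ht hi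
      obtain ⟨a1, a2, a3⟩ := hx i hi
      obtain ⟨b1, b2, b3, b4⟩ := hy i hi
      have := a1.ne
      interval_cases s <;> interval_cases t <;> simp [s2, f2, *]
    · intro s t i hs ht hi
      have a1 := (hU.dd i i hi hi).symm
      interval_cases t <;> interval_cases s <;> simp [f2, *]
    · intro s t i j hs ht hi hj
      have a1 := hU.du i j hi hj
      have a2 := hU.dw i j hi hj
      have a3 := hU.dd i j (by omega) hj
      have a4 := (hU.dd j i hj (by omega)).symm
      interval_cases s <;> interval_cases t <;> simp [f2, *]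
  · clear hx hy hU
    generalize decide (G.Adj x y) = xy
    cases uu <;> cases ww <;> cases g <;> cases d <;> cases xw <;> cases yw <;>
      simp_all [c1f, lv, nb01, nb11, v7]

/-- nested blocks -/
structure Nest (G : SimpleGraph V) (n : ℕ) (U W : ℕ → V) (e : Bool) : Prop where
  dU : ∀ i j, i < j → j < n → U i ≠ U j
  dW : ∀ i j, i < j → j < n → W i ≠ W j
  dd : ∀ i j, i < n → j < n → U i ≠ W j
  aU : ∀ i j, i < j → j < n → ¬ G.Adj (U i) (U j)
  aW : ∀ i j, i < j → j < n → G.Adj (W i) (W j)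
  ag : ∀ i j, i < j → j < n → G.Adj (U i) (W j)
  ad : ∀ i j, i < j → j < n → ¬ G.Adj (W i) (U j)
  ae : ∀ i, i < n → (G.Adj (U i) (W i) ↔ e = true)

lemma Nest.comp {G : SimpleGraph V} {n : ℕ} {U W : ℕ → V} {e : Bool} (h : Nest G n U W e) {m : ℕ}
    {g : ℕ → ℕ} (hg : ∀ i, i < m → g i < n) (hg' : ∀ i j, i < j → j < m → g i < g j) :
    Nest G m (fun i => U (g i)) (fun i => W (g i)) e where
  dU i j hi hj := h.dU _ _ (hg' i j hi hj) (hg j hj)
  dW i j hi hj := h.dW _ _ (hg' i j hi hj) (hg j hj)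
  dd i j hi hj := h.dd _ _ (hg i hi) (hg j hj)
  aU i j hi hj := h.aU _ _ (hg' i j hi hj) (hg j hj)
  aW i j hi hj := h.aW _ _ (hg' i j hi hj) (hg j hj)
  ag i j hi hj := h.ag _ _ (hg' i j hi hj) (hg j hj)
  ad i j hi hj := h.ad _ _ (hg' i j hi hj) (hg j hj)
  ae i hi := h.ae _ (hg i hi)

/-- `z` is good for a block -/
def Gd (G : SimpleGraph V) (U W z : V) : Prop := G.Adj z W ∧ ¬ G.Adj z U ∧ z ≠ U

lemma use4 {G : SimpleGraph V} {q n : ℕ} (hq : 8 ≤ q) (h : Few G q) (hn : 2 * q + 5 ≤ n)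
    {U W : ℕ → V} {e : Bool} (hN : Nest G n U W e) {p r z : V} (hpz : G.Adj z p)
    (hrz : ¬ G.Adj z r) (hrz' : z ≠ r) (hp : ∀ i, i < n → Gd G (U i) (W i) p)
    (hr : ∀ i, i < n → Gd G (U i) (W i) r) {zu zw : Bool}
    (hz : ∀ i, i < n → z ≠ U i ∧ z ≠ W i ∧ (G.Adj z (U i) ↔ zu = true) ∧ (G.Adj z (W i) ↔ zw = true)) :
    zu = false ∧ zw = true := by
  by_contra hcon
  have hpr : p ≠ r := by rintro rfl; exact hrz hpz
  refine block_contra (TT := 7) (m := 5) (S := 3) (F := 2) (by omega) (by omega) h (n := n) (by omega)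
    (sg := s3 p r z) (fm := f2 U W) (v := v7 (decide (G.Adj p r)) e zu zw true true true)
    (t0 := c4t0) (t1 := c4t1) (t2 := c4t2) (t3 := c4t3)
    ?_ (exf c4f) (exf_spec ?_) [0] (by simp [lv, nb01, v7]) c4 c4_ok
  · constructor
    · intro s t hst ht
      have a1 := hpz.symm
      have a2 : ¬ G.Adj r z := fun h => hrz h.symm
      interval_cases t <;> interval_cases s <;> simp [lv, nb01, nb11, s3, v7, c4t0, *]
    · intro s t i hs ht hi
      obtain ⟨a1, a2, a3⟩ := hp i hi
      obtain ⟨b1, b2, b3⟩ := hr i hi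
      obtain ⟨c1, c2, c3, c4⟩ := hz i hi
      interval_cases s <;> interval_cases t <;> simp [lv, nb01, nb11, s3, f2, v7, c4t1, *]
    · intro s t i hs ht hi
      have a1 := hN.ae i hi
      interval_cases t <;> interval_cases s <;> simp [lv, nb01, nb11, f2, v7, c4t2, *]
    · intro s t i j hs ht hi hj
      have a1 := hN.aU i j hi hj
      have a2 := hN.aW i j hi hj
      have a3 := hN.ag i j hi hj
      have a4 := hN.ad i j hi hj
      interval_cases s <;> interval_cases t <;> simp [lv, nb01, nb11, f2, v7, c4t3, *]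
    · intro s t hst ht
      have a1 := hpz.ne.symm
      have a2 := hrz'.symm
      interval_cases t <;> interval_cases s <;> simp [s3, *]
    · intro s t i hs ht hi
      obtain ⟨a1, a2, a3⟩ := hp i hi
      obtain ⟨b1, b2, b3⟩ := hr i hi
      obtain ⟨c1, c2, c3, c4⟩ := hz i hi
      have a4 := a1.ne
      have b4 := b1.ne
      interval_cases s <;> interval_cases t <;> simp [s3, f2, *]
    · intro s t i hs ht hi
      have a1 := hN.dd i i hi hi
      interval_cases t <;> interval_cases s <;> simp [f2, *]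
    · intro s t i j hs ht hi hj
      have a1 := hN.dU i j hi hj
      have a2 := hN.dW i j hi hj
      have a3 := hN.dd i j (by omega) hj
      have a4 := (hN.dd j i hj (by omega)).symm
      interval_cases s <;> interval_cases t <;> simp [f2, *]
  · clear hz hN
    generalize decide (G.Adj p r) = xy
    cases zu <;> cases zw <;> simp_all [c4f, lv, nb01, nb11, v7]

/-- the trace `(1,0,0)` on `a, b, c` -/
def Trc (G : SimpleGraph V) (a b c z : V) : Prop :=
  G.Adj a z ∧ ¬ G.Adj b z ∧ ¬ G.Adj c z ∧ b ≠ z ∧ c ≠ z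

lemma use5a0 {G : SimpleGraph V} {q n : ℕ} (hq : 8 ≤ q) (h : Few G q) (hn : 2 * q + 4 ≤ n)
    {U W : ℕ → V} {e : Bool} (hN : Nest G n U W e) {a b c : V} (hab : G.Adj a b) (hbc : G.Adj b c)
    (hac : ¬ G.Adj a c) (hac' : a ≠ c) (hU : ∀ i, i < n → Trc G a b c (U i)) {wa wb wc : Bool}
    (hW : ∀ i, i < n → a ≠ W i ∧ b ≠ W i ∧ c ≠ W i ∧ (G.Adj a (W i) ↔ wa = true) ∧
      (G.Adj b (W i) ↔ wb = true) ∧ (G.Adj c (W i) ↔ wc = true)) :
    wa = true ∧ wb = false ∧ wc = false := by
  by_contra hcon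
  refine block_contra (TT := 7) (m := 4) (S := 3) (F := 2) (by omega) (by omega) h (n := n) (by omega)
    (sg := s3 a b c) (fm := f2 U W) (v := v7 e wa wb wc true true true)
    (t0 := c5t0) (t1 := c5a0t1) (t2 := c5at2) (t3 := c4t3)
    ?_ (exf c5af) (exf_spec ?_) [0] (by simp [lv, nb01, v7]) c5a0 c5a0_ok
  · constructor
    · intro s t hst ht
      interval_cases t <;> interval_cases s <;> simp [lv, nb01, nb11, s3, v7, c5t0, *]
    · intro s t i hs ht hi
      obtain ⟨a1, a2, a3, a4, a5⟩ := hU i hi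
      obtain ⟨c1, c2, c3, c4, c5, c6⟩ := hW i hi
      interval_cases s <;> interval_cases t <;> simp [lv, nb01, nb11, s3, f2, v7, c5a0t1, *]
    · intro s t i hs ht hi
      have a1 := hN.ae i hi
      interval_cases t <;> interval_cases s <;> simp [lv, nb01, nb11, f2, v7, c5at2, *]
    · intro s t i j hs ht hi hj
      have a1 := hN.aU i j hi hj
      have a2 := hN.aW i j hi hj
      have a3 := hN.ag i j hi hj
      have a4 := hN.ad i j hi hj
      interval_cases s <;> interval_cases t <;> simp [lv, nb01, nb11, f2, v7, c4t3, *]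
    · intro s t hst ht
      have a1 := hab.ne
      have a2 := hbc.ne
      interval_cases t <;> interval_cases s <;> simp [s3, *]
    · intro s t i hs ht hi
      obtain ⟨a1, a2, a3, a4, a5⟩ := hU i hi
      obtain ⟨c1, c2, c3, c4, c5, c6⟩ := hW i hi
      have a6 := a1.ne
      interval_cases s <;> interval_cases t <;> simp [s3, f2, *]
    · intro s t i hs ht hi
      have a1 := hN.dd i i hi hi
      interval_cases t <;> interval_cases s <;> simp [f2, *]
    · intro s t i j hs ht hi hj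
      have a1 := hN.dU i j hi hj
      have a2 := hN.dW i j hi hj
      have a3 := hN.dd i j (by omega) hj
      have a4 := (hN.dd j i hj (by omega)).symm
      interval_cases s <;> interval_cases t <;> simp [f2, *]
  · clear hW hU hN
    cases wa <;> cases wb <;> cases wc <;> simp_all [c5af, lv, nb01, nb11, v7]

lemma use5a1 {G : SimpleGraph V} {q n : ℕ} (hq : 8 ≤ q) (h : Few G q) (hn : 2 * q + 4 ≤ n)
    {U W : ℕ → V} {e : Bool} (hN : Nest G n U W e) {a b c : V} (hab : G.Adj a b) (hbc : G.Adj b c)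
    (hac : ¬ G.Adj a c) (hac' : a ≠ c) (hW : ∀ i, i < n → Trc G a b c (W i)) {wa wb wc : Bool}
    (hU : ∀ i, i < n → a ≠ U i ∧ b ≠ U i ∧ c ≠ U i ∧ (G.Adj a (U i) ↔ wa = true) ∧
      (G.Adj b (U i) ↔ wb = true) ∧ (G.Adj c (U i) ↔ wc = true)) :
    wa = true ∧ wb = false ∧ wc = false := by
  by_contra hcon
  refine block_contra (TT := 7) (m := 4) (S := 3) (F := 2) (by omega) (by omega) h (n := n) (by omega)
    (sg := s3 a b c) (fm := f2 U W) (v := v7 e wa wb wc true true true)
    (t0 := c5t0) (t1 := c5a1t1) (t2 := c5at2) (t3 := c4t3)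
    ?_ (exf c5af) (exf_spec ?_) [0] (by simp [lv, nb01, v7]) c5a1 c5a1_ok
  · constructor
    · intro s t hst ht
      interval_cases t <;> interval_cases s <;> simp [lv, nb01, nb11, s3, v7, c5t0, *]
    · intro s t i hs ht hi
      obtain ⟨a1, a2, a3, a4, a5⟩ := hW i hi
      obtain ⟨c1, c2, c3, c4, c5, c6⟩ := hU i hi
      interval_cases s <;> interval_cases t <;> simp [lv, nb01, nb11, s3, f2, v7, c5a1t1, *]
    · intro s t i hs ht hi
      have a1 := hN.ae i hi
      interval_cases t <;> interval_cases s <;> simp [lv, nb01, nb11, f2, v7, c5at2, *]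
    · intro s t i j hs ht hi hj
      have a1 := hN.aU i j hi hj
      have a2 := hN.aW i j hi hj
      have a3 := hN.ag i j hi hj
      have a4 := hN.ad i j hi hj
      interval_cases s <;> interval_cases t <;> simp [lv, nb01, nb11, f2, v7, c4t3, *]
    · intro s t hst ht
      have a1 := hab.ne
      have a2 := hbc.ne
      interval_cases t <;> interval_cases s <;> simp [s3, *]
    · intro s t i hs ht hi
      obtain ⟨a1, a2, a3, a4, a5⟩ := hW i hi
      obtain ⟨c1, c2, c3, c4, c5, c6⟩ := hU i hi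
      have a6 := a1.ne
      interval_cases s <;> interval_cases t <;> simp [s3, f2, *]
    · intro s t i hs ht hi
      have a1 := hN.dd i i hi hi
      interval_cases t <;> interval_cases s <;> simp [f2, *]
    · intro s t i j hs ht hi hj
      have a1 := hN.dU i j hi hj
      have a2 := hN.dW i j hi hj
      have a3 := hN.dd i j (by omega) hj
      have a4 := (hN.dd j i hj (by omega)).symm
      interval_cases s <;> interval_cases t <;> simp [f2, *]
  · clear hW hU hN
    cases wa <;> cases wb <;> cases wc <;> simp_all [c5af, lv, nb01, nb11, v7]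

lemma use5b {G : SimpleGraph V} {q n : ℕ} (hq : 8 ≤ q) (h : Few G q) (hn : 2 * q + 4 ≤ n)
    {U W : ℕ → V} {e : Bool} (hN : Nest G n U W e) {a b c : V} (hab : G.Adj a b) (hbc : G.Adj b c)
    (hac : ¬ G.Adj a c) (hac' : a ≠ c) (hU : ∀ i, i < n → Trc G a b c (U i))
    (hW : ∀ i, i < n → Trc G a b c (W i)) {p r z : V} (hpz : G.Adj z p)
    (hrz : ¬ G.Adj z r) (hrz' : z ≠ r) (hp : ∀ i, i < n → Gd G (U i) (W i) p)
    (hr : ∀ i, i < n → Gd G (U i) (W i) r) (hz : ∀ i, i < n → Gd G (U i) (W i) z)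
    (hp' : Trc G a b c p) (hr' : Trc G a b c r) : Trc G a b c z := by
  by_contra hcon
  have hpr : p ≠ r := by rintro rfl; exact hrz hpz
  have haz : a ≠ z := by
    rintro rfl
    exact hrz hr'.1
  have hbz : b ≠ z := by
    rintro rfl
    exact hp'.2.1 hpz
  have hcz : c ≠ z := by
    rintro rfl
    exact hp'.2.2.1 hpz
  refine block_contra (TT := 7) (m := 2) (S := 6) (F := 2) (by omega) (by omega) h (n := n) (by omega)
    (sg := s6 a b c p r z) (fm := f2 U W) (v := v7 (decide (G.Adj p r)) e (decide (G.Adj a z))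
      (decide (G.Adj b z)) (decide (G.Adj c z)) true true)
    (t0 := c5bt0) (t1 := c5bt1) (t2 := c5bt2) (t3 := c4t3)
    ?_ (exf c5bf) (exf_spec ?_) [0] (by simp [lv, nb01, v7]) c5b c5b_ok
  · constructor
    · intro s t hst ht
      obtain ⟨a1, a2, a3, a4, a5⟩ := hp'
      obtain ⟨b1, b2, b3, b4, b5⟩ := hr'
      have a6 := hpz.symm
      have a7 : ¬ G.Adj r z := fun h => hrz h.symm
      interval_cases t <;> interval_cases s <;> simp [lv, nb01, nb11, s6, v7, c5bt0, *]
    · intro s t i hs ht hi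
      obtain ⟨a1, a2, a3⟩ := hp i hi
      obtain ⟨b1, b2, b3⟩ := hr i hi
      obtain ⟨c1, c2, c3⟩ := hz i hi
      obtain ⟨d1, d2, d3, d4, d5⟩ := hU i hi
      obtain ⟨e1, e2, e3, e4, e5⟩ := hW i hi
      interval_cases s <;> interval_cases t <;> simp [lv, nb01, nb11, s6, f2, v7, c5bt1, *]
    · intro s t i hs ht hi
      have a1 := hN.ae i hi
      interval_cases t <;> interval_cases s <;> simp [lv, nb01, nb11, f2, v7, c5bt2, *]
    · intro s t i j hs ht hi hj
      have a1 := hN.aU i j hi hj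
      have a2 := hN.aW i j hi hj
      have a3 := hN.ag i j hi hj
      have a4 := hN.ad i j hi hj
      interval_cases s <;> interval_cases t <;> simp [lv, nb01, nb11, f2, v7, c4t3, *]
    · intro s t hst ht
      obtain ⟨a1, a2, a3, a4, a5⟩ := hp'
      obtain ⟨b1, b2, b3, b4, b5⟩ := hr'
      have a6 := a1.ne
      have b6 := b1.ne
      have c1 := hab.ne
      have c2 := hbc.ne
      have c3 := hpz.ne.symm
      have c4 := hrz'.symm
      interval_cases t <;> interval_cases s <;> simp [s6, *]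
    · intro s t i hs ht hi
      obtain ⟨a1, a2, a3⟩ := hp i hi
      obtain ⟨b1, b2, b3⟩ := hr i hi
      obtain ⟨c1, c2, c3⟩ := hz i hi
      obtain ⟨d1, d2, d3, d4, d5⟩ := hU i hi
      obtain ⟨e1, e2, e3, e4, e5⟩ := hW i hi
      have a4 := a1.ne
      have b4 := b1.ne
      have c4 := c1.ne
      have d6 := d1.ne
      have e6 := e1.ne
      interval_cases s <;> interval_cases t <;> simp [s6, f2, *]
    · intro s t i hs ht hi
      have a1 := hN.dd i i hi hi
      interval_cases t <;> interval_cases s <;> simp [f2, *]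
    · intro s t i j hs ht hi hj
      have a1 := hN.dU i j hi hj
      have a2 := hN.dW i j hi hj
      have a3 := hN.dd i j (by omega) hj
      have a4 := (hN.dd j i hj (by omega)).symm
      interval_cases s <;> interval_cases t <;> simp [f2, *]
  · have key : ¬ (G.Adj a z ∧ ¬ G.Adj b z ∧ ¬ G.Adj c z) := fun h => hcon ⟨h.1, h.2.1, h.2.2, hbz, hcz⟩
    clear hp' hr' hz hr hp hW hU hN hcon
    generalize G.Adj p r = xy
    by_cases h1 : G.Adj a z <;> by_cases h2 : G.Adj b z <;> by_cases h3 : G.Adj c z <;>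
      simp_all [c5bf, lv, nb01, nb11, v7]

end Pool.Agent.H60
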