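import Mathlib

/-! Ramsey type lemmas for sequences. -/

set_option autoImplicit false

namespace Pool.Agent.H60

open Finset Classical

lemma prehom (κ : Type) [Fintype κ] (m : ℕ) : ∃ N : ℕ, ∀ (f : ℕ → ℕ → κ) (I : Finset ℕ),
    N ≤ I.card → ∃ (g : ℕ → ℕ) (col : ℕ → κ), (∀ a, a < m → g a ∈ I) ∧
      (∀ a b, a < b → b < m → g a < g b) ∧ ∀ a b, a < b → b < m → f (g a) (g b) = col a := by
  induction m with
  | zero =>
    refine ⟨0, fun f I _ => ⟨fun _ => 0, fun _ => f 0 0, ?_, ?_, ?_⟩⟩
    · intro a h; omega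
    · intro a b _ h; omega
    · intro a b _ h; omega
  | succ m ih =>
    obtain ⟨N, hN⟩ := ih
    refine ⟨Fintype.card κ * N + 1, fun f I hI => ?_⟩
    have hne : I.Nonempty := card_pos.1 (by omega)
    set i0 := I.min' hne with hi0
    have hi0I : i0 ∈ I := I.min'_mem hne
    have hc : (I.erase i0).card = I.card - 1 := card_erase_of_mem hi0I
    have hκ : Nonempty κ := ⟨f 0 0⟩
    obtain ⟨c, -, hc2⟩ := Finset.exists_le_card_fiber_of_mul_le_card_of_maps_to
      (s := I.erase i0) (t := (univ : Finset κ)) (f := fun j => f i0 j) (n := N)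
      (fun _ _ => mem_univ _) univ_nonempty (by rw [card_univ, hc]; omega)
    obtain ⟨g, col, h1, h2, h3⟩ := hN f _ hc2
    refine ⟨fun a => if a = 0 then i0 else g (a - 1), fun a => if a = 0 then c else col (a - 1), ?_, ?_, ?_⟩
    · intro a ha
      by_cases h0 : a = 0
      · simp only [h0, if_true]; exact hi0I
      · simp only [h0, if_false]
        have := h1 (a - 1) (by omega)
        exact mem_of_mem_erase (mem_filter.1 this).1
    · intro a b hab hb
      have hb0 : b ≠ 0 := by omega
      by_cases h0 : a = 0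
      · simp only [h0, hb0, if_true, if_false]
        have := h1 (b - 1) (by omega)
        have h4 := (mem_filter.1 this).1
        have h5 := mem_of_mem_erase h4
        have h6 := ne_of_mem_erase h4
        exact lt_of_le_of_ne (I.min'_le _ h5) (Ne.symm h6)
      · simp only [h0, hb0, if_false]
        exact h2 _ _ (by omega) (by omega)
    · intro a b hab hb
      have hb0 : b ≠ 0 := by omega
      by_cases h0 : a = 0
      · simp only [h0, hb0, if_true, if_false]
        exact (mem_filter.1 (h1 (b - 1) (by omega))).2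
      · simp only [h0, hb0, if_false]
        exact h3 _ _ (by omega) (by omega)

/-- Ramsey's theorem for pairs, sequence form -/
theorem ramsey (κ : Type) [Fintype κ] (n : ℕ) : ∃ N : ℕ, ∀ (f : ℕ → ℕ → κ) (I : Finset ℕ),
    N ≤ I.card → ∃ (g : ℕ → ℕ) (c : κ), (∀ a, a < n → g a ∈ I) ∧
      (∀ a b, a < b → b < n → g a < g b) ∧ ∀ a b, a < b → b < n → f (g a) (g b) = c := by
  obtain ⟨N, hN⟩ := prehom κ (Fintype.card κ * n)
  refine ⟨N, fun f I hI => ?_⟩
  obtain ⟨g, col, h1, h2, h3⟩ := hN f I hI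
  have hκ : Nonempty κ := ⟨f 0 0⟩
  obtain ⟨c, -, hc2⟩ := Finset.exists_le_card_fiber_of_mul_le_card_of_maps_to
      (s := range (Fintype.card κ * n)) (t := (univ : Finset κ)) (f := col) (n := n)
      (fun _ _ => mem_univ _) univ_nonempty (by rw [card_univ, card_range])
  set F := (range (Fintype.card κ * n)).filter (fun x => col x = c) with hF
  let e := F.orderEmbOfCardLe hc2
  have he : ∀ i : Fin n, e i ∈ F := fun i => Finset.orderEmbOfCardLe_mem F hc2 i
  refine ⟨fun a => if h : a < n then g (e ⟨a, h⟩) else 0, c, ?_, ?_, ?_⟩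
  · intro a ha
    simp only [ha, dif_pos]
    exact h1 _ (mem_range.1 (mem_filter.1 (he _)).1)
  · intro a b hab hb
    have ha : a < n := by omega
    simp only [ha, hb, dif_pos]
    exact h2 _ _ (e.strictMono (by simpa using hab)) (mem_range.1 (mem_filter.1 (he _)).1)
  · intro a b hab hb
    have ha : a < n := by omega
    simp only [ha, hb, dif_pos]
    rw [h3 _ _ (e.strictMono (by simpa using hab)) (mem_range.1 (mem_filter.1 (he _)).1)]
    exact (mem_filter.1 (he _)).2

/-- distinguishing sequences -/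
theorem ext_seq (κ : Type) [Fintype κ] (n : ℕ) : ∃ N : ℕ, ∀ (α Z : Type) (φ : Z → α → κ)
    (good : Z → α → α → Prop), (∀ z a b, good z a b → good z b a) → ∀ I : Finset α, N ≤ I.card →
    (∀ a ∈ I, ∀ b ∈ I, a ≠ b → ∃ z, good z a b ∧ φ z a ≠ φ z b) →
    ∃ (a : ℕ → α) (z : ℕ → Z) (col : ℕ → κ), (∀ k, k < n → a k ∈ I) ∧
      (∀ k l, k < l → l < n → a k ≠ a l ∧ φ (z k) (a l) = col k) ∧
      (∀ k, k < n → φ (z k) (a k) ≠ col k ∧ ∃ b ∈ I, good (z k) (a k) b) ∧
      (∀ k, k < n → ∃ b ∈ I, ∃ c ∈ I, φ (z k) b ≠ φ (z k) c) ∧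
      (∀ k l, k < l → l < n → z k ≠ z l) := by
  induction n with
  | zero =>
    refine ⟨2, fun α Z φ good hg I hI hd => ?_⟩
    obtain ⟨a, ha, b, hb, hab⟩ := Finset.one_lt_card.1 (show 1 < I.card by omega)
    obtain ⟨z, hz1, hz2⟩ := hd a ha b hb hab
    refine ⟨fun _ => a, fun _ => z, fun _ => φ z a, ?_, ?_, ?_, ?_, ?_⟩
    · intro k h; omega
    · intro k l _ h; omega
    · intro k h; omega
    · intro k h; omega
    · intro k l _ h; omega
  | succ n ih =>
    obtain ⟨N, hN⟩ := ih
    refine ⟨Fintype.card κ * N + 2, fun α Z φ good hg I hI hd => ?_⟩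
    obtain ⟨p, hp, r, hr, hpr⟩ := Finset.one_lt_card.1 (show 1 < I.card by omega)
    obtain ⟨z, hz1, hz2⟩ := hd p hp r hr hpr
    have hκ : Nonempty κ := ⟨φ z p⟩
    obtain ⟨c, -, hc2⟩ := Finset.exists_le_card_fiber_of_mul_le_card_of_maps_to
      (s := I) (t := (univ : Finset κ)) (f := fun a => φ z a) (n := N)
      (fun _ _ => mem_univ _) univ_nonempty (by rw [card_univ]; omega)
    obtain ⟨a0, ha0, b0, hb0, hg0, hne0⟩ : ∃ a0 ∈ I, ∃ b0 ∈ I, good z a0 b0 ∧ φ z a0 ≠ c := by
      by_cases h : φ z p = c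
      · exact ⟨r, hr, p, hp, hg _ _ _ hz1, fun h' => hz2 (h.trans h'.symm)⟩
      · exact ⟨p, hp, r, hr, hz1, h⟩
    have hsub : I.filter (fun x => φ z x = c) ⊆ I := filter_subset _ _
    obtain ⟨a, w, col, h1, h2, h3, h4, h5⟩ := hN α Z φ good hg _ hc2
      (fun a ha b hb hab => hd a (hsub ha) b (hsub hb) hab)
    have hcol : ∀ x ∈ I.filter (fun x => φ z x = c), φ z x = c := fun x hx => (mem_filter.1 hx).2
    refine ⟨fun k => if k = 0 then a0 else a (k - 1), fun k => if k = 0 then z else w (k - 1),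
      fun k => if k = 0 then c else col (k - 1), ?_, ?_, ?_, ?_, ?_⟩
    · intro k hk
      by_cases h0 : k = 0
      · simp only [h0, if_true]; exact ha0
      · simp only [h0, if_false]; exact hsub (h1 _ (by omega))
    · intro k l hkl hl
      have hl0 : l ≠ 0 := by omega
      by_cases h0 : k = 0
      · simp only [h0, hl0, if_true, if_false]
        have := hcol _ (h1 (l - 1) (by omega))
        exact ⟨fun h => hne0 (by rw [h]; exact this), this⟩
      · simp only [h0, hl0, if_false]
        exact h2 _ _ (by omega) (by omega)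
    · intro k hk
      by_cases h0 : k = 0
      · simp only [h0, if_true]; exact ⟨hne0, b0, hb0, hg0⟩
      · simp only [h0, if_false]
        obtain ⟨h6, b, hb, h7⟩ := h3 (k - 1) (by omega)
        exact ⟨h6, b, hsub hb, h7⟩
    · intro k hk
      by_cases h0 : k = 0
      · simp only [h0, if_true]; exact ⟨p, hp, r, hr, hz2⟩
      · simp only [h0, if_false]
        obtain ⟨b, hb, c', hc', h7⟩ := h4 (k - 1) (by omega)
        exact ⟨b, hsub hb, c', hsub hc', h7⟩
    · intro k l hkl hl
      have hl0 : l ≠ 0 := by omega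
      by_cases h0 : k = 0
      · simp only [h0, hl0, if_true, if_false]
        rintro rfl
        obtain ⟨b, hb, c', hc', h7⟩ := h4 (l - 1) (by omega)
        exact h7 ((hcol b hb).trans (hcol c' hc').symm)
      · simp only [h0, hl0, if_false]
        exact h5 _ _ (by omega) (by omega)

end Pool.Agent.H60
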