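import Pool.Agent.H60.Pat

/-! Spiders in prime graphs consist of twin legs. -/

set_option autoImplicit false
set_option linter.unusedSimpArgs false
set_option linter.unnecessarySeqFocus false
set_option linter.unusedVariables false
set_option linter.deprecated false

namespace Pool.Agent.H60

open Finset Classical

/-- a thin (`th = false`) or thick (`th = true`) spider -/
structure Spd {V : Type} (G : SimpleGraph V) (n : ℕ) (s w : ℕ → V) (th : Bool) : Prop where
  ds : ∀ i j, i < j → j < n → s i ≠ s j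
  dw : ∀ i j, i < j → j < n → w i ≠ w j
  dd : ∀ i j, i < n → j < n → s i ≠ w j
  as : ∀ i j, i < j → j < n → G.Adj (s i) (s j)
  aw : ∀ i j, i < j → j < n → ¬ G.Adj (w i) (w j)
  ae : ∀ i, i < n → (G.Adj (s i) (w i) ↔ th = false)
  ag : ∀ i j, i ≠ j → i < n → j < n → (G.Adj (s i) (w j) ↔ th = true)

section
variable {V : Type} {G : SimpleGraph V} {n : ℕ} {s w : ℕ → V} {th : Bool}

lemma Spd.ds' (h : Spd G n s w th) {i j : ℕ} (hij : i ≠ j) (hi : i < n) (hj : j < n) : s i ≠ s j := by
  rcases Nat.lt_or_gt_of_ne hij with h1 | h1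
  · exact h.ds i j h1 hj
  · exact (h.ds j i h1 hi).symm

lemma Spd.dw' (h : Spd G n s w th) {i j : ℕ} (hij : i ≠ j) (hi : i < n) (hj : j < n) : w i ≠ w j := by
  rcases Nat.lt_or_gt_of_ne hij with h1 | h1
  · exact h.dw i j h1 hj
  · exact (h.dw j i h1 hi).symm

lemma Spd.as' (h : Spd G n s w th) {i j : ℕ} (hij : i ≠ j) (hi : i < n) (hj : j < n) :
    G.Adj (s i) (s j) := by
  rcases Nat.lt_or_gt_of_ne hij with h1 | h1
  · exact h.as i j h1 hj
  · exact (h.as j i h1 hi).symm

lemma Spd.aw' (h : Spd G n s w th) {i j : ℕ} (hi : i < n) (hj : j < n) :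
    ¬ G.Adj (w i) (w j) := by
  rcases Nat.lt_trichotomy i j with h1 | h1 | h1
  · exact h.aw i j h1 hj
  · rw [h1]; exact G.irrefl
  · exact fun h' => (h.aw j i h1 hi) h'.symm

lemma Spd.p4 (h : Spd G n s w th) {i j : ℕ} (hij : i ≠ j) (hi : i < n) (hj : j < n) :
    IsP4 G (({i, j} : Finset ℕ).image s ∪ ({i, j} : Finset ℕ).image w) := by
  have e1 := h.ae i hi
  have e2 := h.ae j hj
  have e3 := h.ag i j hij hi hj
  have e4 := h.ag j i hij.symm hj hi
  have e5 := h.as' hij hi hj
  have e6 := h.aw' hi hj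
  have e7 := h.aw' hj hi
  have d1 := h.ds' hij hi hj
  have d2 := h.dw' hij hi hj
  have d3 := h.dd i j hi hj
  have d4 := h.dd j i hj hi
  have d5 := h.dd i i hi hi
  have d6 := h.dd j j hj hj
  cases th with
  | false =>
    simp only [Bool.false_eq_true, iff_false, true_iff, iff_true] at e1 e2 e3 e4
    refine ⟨w i, s i, s j, w j, ?_, d4.symm, d2, d3, e1.symm, e5, e2, fun h => e4 h.symm, e6, e3⟩
    ext x; simp only [mem_union, mem_image, mem_insert, mem_singleton, exists_eq_or_imp, exists_eq_left]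
    tauto
  | true =>
    simp only [Bool.true_eq_false, iff_false, iff_true] at e1 e2 e3 e4
    refine ⟨w j, s i, s j, w i, ?_, d6.symm, d2.symm, d5, e3.symm, e5, e4, fun h => e2 h.symm, e7, e1⟩
    ext x; simp only [mem_union, mem_image, mem_insert, mem_singleton, exists_eq_or_imp, exists_eq_left]
    tauto

lemma Spd.big (h : Spd G n s w th) {q : ℕ} (hq : 10 ≤ q) (hn : q ≤ n) (hF : Few G q) : False := by
  set m := q / 2 with hm
  set S := (range m).image s ∪ (range m).image w with hS
  have hSc : S.card ≤ q := by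
    refine (card_union_le _ _).trans ?_
    have h1 := card_image_le (s := range m) (f := s)
    have h2 := card_image_le (s := range m) (f := w)
    rw [card_range] at h1 h2
    omega
  have h1 := hF S hSc
  have hinj : Set.InjOn (fun A : Finset ℕ => A.image s ∪ A.image w) (powersetCard 2 (range m) : Finset (Finset ℕ)) := by
    intro A hA B hB hAB
    have key : ∀ (A : Finset ℕ), A ⊆ range m → ∀ i, i < m → (i ∈ A ↔ s i ∈ A.image s ∪ A.image w) := by
      intro A hA i hi
      rw [mem_union, mem_image, mem_image]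
      constructor
      · intro h; exact Or.inl ⟨i, h, rfl⟩
      · rintro (⟨j, hj, he⟩ | ⟨j, hj, he⟩)
        · have hjm := mem_range.1 (hA hj)
          by_contra hne
          have : j ≠ i := by rintro rfl; exact hne hj
          exact h.ds' this (by omega) (by omega) he
        · have hjm := mem_range.1 (hA hj)
          exact (h.dd i j (by omega) (by omega) he.symm).elim
    have hA' := (mem_powersetCard.1 (mem_coe.1 hA)).1
    have hB' := (mem_powersetCard.1 (mem_coe.1 hB)).1
    ext i
    by_cases hi : i < m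
    · rw [key A hA' i hi, key B hB' i hi]
      simp only at hAB
      rw [hAB]
    · constructor
      · intro h; exact (hi (mem_range.1 (hA' h))).elim
      · intro h; exact (hi (mem_range.1 (hB' h))).elim
  have h2 : (powersetCard 2 (range m)).image (fun A : Finset ℕ => A.image s ∪ A.image w) ⊆ P4s G S := by
    intro B hB
    obtain ⟨A, hA, rfl⟩ := mem_image.1 hB
    obtain ⟨hA1, hA2⟩ := mem_powersetCard.1 hA
    obtain ⟨i, j, hij, rfl⟩ := card_eq_two.1 hA2
    have hi := mem_range.1 (hA1 (by simp : i ∈ ({i, j} : Finset ℕ)))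
    have hj := mem_range.1 (hA1 (by simp : j ∈ ({i, j} : Finset ℕ)))
    rw [mem_P4s]
    exact ⟨union_subset_union (image_subset_image hA1) (image_subset_image hA1),
      h.p4 hij (by omega) (by omega)⟩
  have h3 := card_le_card h2
  rw [card_image_of_injOn hinj, card_powersetCard, card_range, Nat.choose_two_right] at h3
  have h4 : q ≤ m * (m - 1) / 2 + 1 := by
    have h5 : 5 ≤ m := by omega
    have h6 : q ≤ 2 * m + 1 := by omega
    have h7 : 2 * m * 2 ≤ m * (m - 1) := by
      have : m * 4 ≤ m * (m - 1) := Nat.mul_le_mul_left m (by omega)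
      omega
    have h8 : 2 * m ≤ m * (m - 1) / 2 := by
      rw [Nat.le_div_iff_mul_le (by norm_num)]; exact h7
    omega
  omega

end

def v8 (th x1 x2 x3 x4 x5 x6 x7 : Bool) : ℕ → Bool
  | 0 => true
  | 1 => th
  | 2 => x1
  | 3 => x2
  | 4 => x3
  | 5 => x4
  | 6 => x5
  | 7 => x6
  | _ => x7

lemma c2f_spec (th x1 x2 x3 x4 x5 x6 x7 : Bool) (h : ¬ (x1 = x3 ∧ x2 = x4)) :
    ∀ c ∈ c2f, ∃ l ∈ c, lv (v8 th x1 x2 x3 x4 x5 x6 x7) l = false := by
  revert h
  cases x1 <;> cases x2 <;> cases x3 <;> cases x4 <;> simp [c2f, lv, nb01, nb11, v8]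

theorem sp (q : ℕ) (hq : 8 ≤ q) : ∃ N : ℕ, ∀ (V : Type) (G : SimpleGraph V), Few G q →
    ∀ (s w : ℕ → V) (th : Bool), Spd G N s w th →
    ∃ i j, i < j ∧ j < N ∧ Ds G (s i) (s j) = {w i, w j} ∧ Ds G (w i) (w j) = {s i, s j} := by
  obtain ⟨N1, hN1⟩ := ramsey ((Bool × Bool × Bool × Bool) × (Bool × Bool × Bool)) 7
  obtain ⟨N2, hN2⟩ := ext_seq (Bool × Bool) N1
  refine ⟨max N2 q, fun V G hF s w th hS => ?_⟩
  set N := max N2 q with hN
  by_cases hq10 : 10 ≤ q
  · exact (hS.big hq10 (le_max_right _ _) hF).elim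
  by_contra hcon
  push Not at hcon
  have hdist : ∀ i ∈ range N, ∀ j ∈ range N, i ≠ j → ∃ z, (∀ m, m < N → z ≠ s m ∧ z ≠ w m) ∧
      (decide (G.Adj z (s i)), decide (G.Adj z (w i))) ≠
      (decide (G.Adj z (s j)), decide (G.Adj z (w j))) := by
    have key : ∀ i j, i < j → j < N → ∃ z, (∀ m, m < N → z ≠ s m ∧ z ≠ w m) ∧
        (decide (G.Adj z (s i)), decide (G.Adj z (w i))) ≠
        (decide (G.Adj z (s j)), decide (G.Adj z (w j))) := by
      intro i j hij hj
      have hi : i < N := by omega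
      have hex : ∃ z, z ≠ s i ∧ z ≠ s j ∧ z ≠ w i ∧ z ≠ w j ∧
          (¬ (G.Adj z (s i) ↔ G.Adj z (s j)) ∨ ¬ (G.Adj z (w i) ↔ G.Adj z (w j))) := by
        by_contra hno
        push Not at hno
        have e1 : Ds G (s i) (s j) = {w i, w j} := by
          ext z
          simp only [Ds, Set.mem_setOf_eq, Set.mem_insert_iff, Set.mem_singleton_iff]
          constructor
          · rintro ⟨h1, h2, h3⟩
            by_contra hz
            push Not at hz
            exact h3 (hno z h1 h2 hz.1 hz.2).1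
          · rintro (rfl | rfl)
            · refine ⟨(hS.dd i i hi hi).symm, (hS.dd j i hj hi).symm, ?_⟩
              rw [G.adj_comm (w i) (s i), G.adj_comm (w i) (s j), hS.ae i hi,
                hS.ag j i (by omega) hj hi]
              cases th <;> simp
            · refine ⟨(hS.dd i j hi hj).symm, (hS.dd j j hj hj).symm, ?_⟩
              rw [G.adj_comm (w j) (s i), G.adj_comm (w j) (s j), hS.ae j hj,
                hS.ag i j (by omega) hi hj]
              cases th <;> simp
        have e2 : Ds G (w i) (w j) = {s i, s j} := by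
          ext z
          simp only [Ds, Set.mem_setOf_eq, Set.mem_insert_iff, Set.mem_singleton_iff]
          constructor
          · rintro ⟨h1, h2, h3⟩
            by_contra hz
            push Not at hz
            exact h3 (hno z hz.1 hz.2 h1 h2).2
          · rintro (rfl | rfl)
            · refine ⟨(hS.dd i i hi hi), (hS.dd i j hi hj), ?_⟩
              rw [hS.ae i hi, hS.ag i j (by omega) hi hj]
              cases th <;> simp
            · refine ⟨(hS.dd j i hj hi), (hS.dd j j hj hj), ?_⟩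
              rw [hS.ae j hj, hS.ag j i (by omega) hj hi]
              cases th <;> simp
        exact hcon i j hij hj e1 e2
      obtain ⟨z, h1, h2, h3, h4, h5⟩ := hex
      refine ⟨z, ?_, ?_⟩
      · intro m hm
        constructor
        · rintro rfl
          have hmi : m ≠ i := by rintro rfl; exact h1 rfl
          have hmj : m ≠ j := by rintro rfl; exact h2 rfl
          rcases h5 with h5 | h5
          · exact h5 ⟨fun _ => hS.as' hmj hm hj, fun _ => hS.as' hmi hm hi⟩
          · rw [hS.ag m i hmi hm hi, hS.ag m j hmj hm hj] at h5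
            exact h5 Iff.rfl
        · rintro rfl
          have hmi : m ≠ i := by rintro rfl; exact h3 rfl
          have hmj : m ≠ j := by rintro rfl; exact h4 rfl
          rcases h5 with h5 | h5
          · rw [G.adj_comm, hS.ag i m hmi.symm hi hm, G.adj_comm, hS.ag j m hmj.symm hj hm] at h5
            exact h5 Iff.rfl
          · exact h5 ⟨fun h => (hS.aw' hm hi h).elim, fun h => (hS.aw' hm hj h).elim⟩
      · intro he
        simp only [Prod.mk.injEq, decide_eq_decide] at he
        rcases h5 with h5 | h5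
        · exact h5 he.1
        · exact h5 he.2
    intro i hi j hj hij
    rcases Nat.lt_or_gt_of_ne hij with h1 | h1
    · exact key i j h1 (mem_range.1 hj)
    · obtain ⟨z, h2, h3⟩ := key j i h1 (mem_range.1 hi)
      exact ⟨z, h2, h3.symm⟩
  obtain ⟨a, z, col, ha, h1, h2, h3, h4⟩ := hN2 ℕ V
    (fun z i => (decide (G.Adj z (s i)), decide (G.Adj z (w i))))
    (fun z _ _ => ∀ m, m < N → z ≠ s m ∧ z ≠ w m) (fun _ _ _ h => h) (range N)
    (by rw [card_range]; exact le_max_left _ _) hdist
  obtain ⟨g, ⟨⟨x1, x2, x3, x4⟩, ⟨x5, x6, x7⟩⟩, hg1, hg2, hg3⟩ := hN1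
    (fun k l => ((decide (G.Adj (z k) (s (a k))), decide (G.Adj (z k) (w (a k))),
      decide (G.Adj (z k) (s (a l))), decide (G.Adj (z k) (w (a l)))),
      (decide (G.Adj (z l) (s (a k))), decide (G.Adj (z l) (w (a k))), decide (G.Adj (z k) (z l)))))
    (range N1) (by rw [card_range])
  have hgN : ∀ k, k < 7 → g k < N1 := fun k hk => mem_range.1 (hg1 k hk)
  have haN : ∀ k, k < N1 → a k < N := fun k hk => mem_range.1 (ha k hk)
  have hne : ∀ k l, k < l → l < 7 → a (g k) ≠ a (g l) := fun k l hkl hl =>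
    (h1 _ _ (hg2 k l hkl hl) (hgN l hl)).1
  have hzne : ∀ k, k < 7 → ∀ m, m < N → z (g k) ≠ s m ∧ z (g k) ≠ w m := by
    intro k hk
    obtain ⟨_, b, _, h5⟩ := h2 (g k) (hgN k hk)
    exact h5
  have hcolor : ∀ k l, k < l → l < 7 →
      (G.Adj (z (g k)) (s (a (g k))) ↔ x1 = true) ∧ (G.Adj (z (g k)) (w (a (g k))) ↔ x2 = true) ∧
      (G.Adj (z (g k)) (s (a (g l))) ↔ x3 = true) ∧ (G.Adj (z (g k)) (w (a (g l))) ↔ x4 = true) ∧
      (G.Adj (z (g l)) (s (a (g k))) ↔ x5 = true) ∧ (G.Adj (z (g l)) (w (a (g k))) ↔ x6 = true) ∧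
      (G.Adj (z (g k)) (z (g l)) ↔ x7 = true) := by
    intro k l hkl hl
    have := hg3 k l hkl hl
    simp only [Prod.mk.injEq] at this
    obtain ⟨⟨y1, y2, y3, y4⟩, y5, y6, y7⟩ := this
    refine ⟨?_, ?_, ?_, ?_, ?_, ?_, ?_⟩
    · rw [← y1]; simp
    · rw [← y2]; simp
    · rw [← y3]; simp
    · rw [← y4]; simp
    · rw [← y5]; simp
    · rw [← y6]; simp
    · rw [← y7]; simp
  -- the traces differ
  have hdiff : ¬ (x1 = x3 ∧ x2 = x4) := by
    rintro ⟨rfl, rfl⟩
    obtain ⟨c1, c2, c3, c4, _⟩ := hcolor 0 1 (by norm_num) (by norm_num)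
    have e1 := (h1 _ _ (hg2 0 1 (by norm_num) (by norm_num)) (hgN 1 (by norm_num))).2
    have e2 := (h2 (g 0) (hgN 0 (by norm_num))).1
    apply e2
    rw [← e1]
    simp only [Prod.mk.injEq, decide_eq_decide]
    exact ⟨c1.trans c3.symm, c2.trans c4.symm⟩
  have hU : Uni G 0 3 6 s (f3 (fun k => s (a (g k))) (fun k => w (a (g k))) (fun k => z (g k)))
      (v8 th x1 x2 x3 x4 x5 x6 x7)
      c2t0 c2t0 c2t2 c2t3 := by
    constructor
    · intro s t hst ht; omega
    · intro s t i hs ht hi; omega
    · intro s' t i hs ht hi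
      obtain ⟨c1, c2, c3, c4, c5, c6, c7⟩ := hcolor i (i + 1) (by omega) (by omega)
      have b1 := hS.ae (a (g i)) (haN _ (hgN i (by omega)))
      rw [G.adj_comm] at c1 c2
      interval_cases t <;> interval_cases s' <;> simp [lv, nb01, nb11, f3, c2t2, v8, *]
    · intro s' t i j hs ht hi hj
      obtain ⟨c1, c2, c3, c4, c5, c6, c7⟩ := hcolor i j hi (by omega)
      have hi' := haN _ (hgN i (by omega))
      have hj' := haN _ (hgN j (by omega))
      have hij := hne i j hi (by omega)
      have b1 := hS.ag (a (g i)) (a (g j)) hij hi' hj'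
      have b2 := hS.ag (a (g j)) (a (g i)) hij.symm hj' hi'
      have b3 := hS.as' hij hi' hj'
      have b4 := hS.aw' hi' hj'
      rw [G.adj_comm] at c5 c6 b2
      interval_cases s' <;> interval_cases t <;> simp [lv, nb01, nb11, f3, c2t3, v8, *]
    · intro s t hst ht; omega
    · intro s t i hs ht hi; omega
    · intro s' t i hs ht hi
      have hi' := haN _ (hgN i (by omega))
      have b1 := hS.dd _ _ hi' hi'
      have b2 := (hzne i (by omega) _ hi').1.symm
      have b3 := (hzne i (by omega) _ hi').2.symm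
      interval_cases t <;> interval_cases s' <;> simp [f3, *]
    · intro s' t i j hs ht hi hj
      have hi' := haN _ (hgN i (by omega))
      have hj' := haN _ (hgN j (by omega))
      have hij := hne i j hi (by omega)
      have b1 := hS.dd _ _ hi' hj'
      have b2 := (hS.dd _ _ hj' hi').symm
      have b3 := hS.ds' hij hi' hj'
      have b4 := hS.dw' hij hi' hj'
      have b5 := (hzne i (by omega) _ hj').1
      have b6 := (hzne i (by omega) _ hj').2
      have b7 := (hzne j (by omega) _ hi').1.symm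
      have b8 := (hzne j (by omega) _ hi').2.symm
      have b9 := h4 _ _ (hg2 i j hi (by omega)) (hgN j (by omega))
      interval_cases s' <;> interval_cases t <;> simp [f3, *]
  have hR := hU.rl (q := 1) (m := 4) (k1 := 0) (k2 := 0) (by omega) (by omega) (by omega)
  have hex := c2f_spec th x1 x2 x3 x4 x5 x6 x7 hdiff
  rcases (show q = 8 ∨ q = 9 by omega) with rfl | rfl
  · obtain ⟨kn, N', e, hk, hl⟩ := chk_sound _ (exf_spec hex) c28 [0] c28_ok (by simp [lv, nb01, v8])
    obtain ⟨f1, f2, f3⟩ := leaf_facts hR hk hl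
    have := hF _ f1
    omega
  · obtain ⟨kn, N', e, hk, hl⟩ := chk_sound _ (exf_spec hex) c29 [0] c29_ok (by simp [lv, nb01, v8])
    obtain ⟨f1, f2, f3⟩ := leaf_facts hR hk hl
    have := hF _ f1
    omega

end Pool.Agent.H60
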