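import Pool.Agent.H60.Layer

/-! Two long branches over a vertex of high level meet. -/

set_option autoImplicit false
set_option linter.unusedSimpArgs false
set_option linter.unnecessarySeqFocus false
set_option linter.unusedVariables false
set_option linter.deprecated false

namespace Pool.Agent.H60

open Finset Classical

variable {V : Type}

lemma four {G : SimpleGraph V} {w0 w1 w2 w3 : V} {x y : Bool} (n01 : w0 ≠ w1) (n02 : w0 ≠ w2)
    (n03 : w0 ≠ w3) (n12 : w1 ≠ w2) (n13 : w1 ≠ w3) (n23 : w2 ≠ w3)
    (h01 : G.Adj w0 w1 ↔ y = false) (h02 : G.Adj w0 w2 ↔ x = true) (h12 : G.Adj w1 w2 ↔ x = false)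
    (h03 : G.Adj w0 w3 ↔ y = true) (h13 : G.Adj w1 w3 ↔ y = true) (h23 : G.Adj w2 w3 ↔ y = false) :
    IsP4 G {w0, w1, w2, w3} := by
  cases y with
  | false =>
    simp only [Bool.false_eq_true, iff_false, iff_true] at h01 h03 h13 h23
    cases x with
    | false =>
      simp only [Bool.false_eq_true, iff_false, iff_true] at h02 h12
      exact ⟨w0, w1, w2, w3, rfl, n02, n03, n13, h01, h12, h23, h02, h03, h13⟩
    | true =>
      simp only [Bool.true_eq_false, iff_false, iff_true] at h02 h12
      refine ⟨w1, w0, w2, w3, ?_, n12, n13, n03, h01.symm, h02, h23, h12, h13, h03⟩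
      ext z; simp only [mem_insert, mem_singleton]; tauto
  | true =>
    simp only [Bool.true_eq_false, iff_false, iff_true] at h01 h03 h13 h23
    cases x with
    | false =>
      simp only [Bool.false_eq_true, iff_false, iff_true] at h02 h12
      refine ⟨w0, w3, w1, w2, ?_, n01, n02, n23.symm, h03, h13.symm, h12, h01, h02, fun h => h23 h.symm⟩
      ext z; simp only [mem_insert, mem_singleton]; tauto
    | true =>
      simp only [Bool.true_eq_false, iff_false, iff_true] at h02 h12
      refine ⟨w1, w3, w0, w2, ?_, n01.symm, n12, n23.symm, h13, h03.symm, h02, fun h => h01 h.symm, h12,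
        fun h => h23 h.symm⟩
      ext z; simp only [mem_insert, mem_singleton]; tauto

/-- extension along the lower part of a chain -/
lemma chain_ext {G : SimpleGraph V} {q : ℕ} (hq : 2 ≤ q) (hF : Few G q) {m : ℕ} {f : ℕ → V}
    {β : ℕ → Bool} (hC : Chn G m f β) {S : Finset V} {i0 : ℕ} (hi0 : q + 1 ≤ i0) (hm : i0 + 3 ≤ m)
    (hS : S.card ≤ q) (hp : S.card ≤ (P4s G S).card + 1) (h0 : f i0 ∈ S) (h1 : f (i0 + 1) ∈ S)
    (h2 : f (i0 + 2) ∈ S) : False := by
  refine ext_contra hq hF (q - S.card) S (by omega) hp ?_
  intro S' hSS hS'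
  set M := (range i0).filter (fun i => f i ∉ S') with hM
  have hMc : 2 ≤ M.card := by
    have e1 : (range i0).card = ((range i0).filter (fun i => f i ∈ S')).card + M.card := by
      rw [hM, ← card_filter_add_card_filter_not (s := range i0) (fun i => f i ∈ S')]
    have e2 : ((range i0).filter (fun i => f i ∈ S')).card ≤ S'.card := by
      refine card_le_card_of_injOn f ?_ ?_
      · intro i hi
        exact (mem_filter.1 (mem_coe.1 hi)).2
      · intro i hi j hj hij
        have hi' := mem_range.1 (mem_filter.1 (mem_coe.1 hi)).1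
        have hj' := mem_range.1 (mem_filter.1 (mem_coe.1 hj)).1
        rcases Nat.lt_trichotomy i j with h | h | h
        · exact (hC.ne i j h (by omega) hij).elim
        · exact h
        · exact (hC.ne j i h (by omega) hij.symm).elim
    rw [card_range] at e1
    omega
  have hMne : M.Nonempty := card_pos.1 (by omega)
  set i := M.max' hMne with hi
  have hiM : i ∈ M := M.max'_mem hMne
  obtain ⟨k, hk⟩ : (M.erase i).Nonempty := card_pos.1 (by rw [card_erase_of_mem hiM]; omega)
  have hkM := mem_of_mem_erase hk
  have hki : k < i := lt_of_le_of_ne (M.le_max' k hkM) (ne_of_mem_erase hk)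
  have hi' := mem_filter.1 hiM
  have hk' := mem_filter.1 hkM
  have hi0' := mem_range.1 hi'.1
  have hfill : ∀ j, i < j → j < i0 + 3 → f j ∈ S' := by
    intro j hj1 hj2
    by_cases hj : j < i0
    · by_contra hc
      have := M.le_max' j (mem_filter.2 ⟨mem_range.2 hj, hc⟩)
      omega
    · rcases (show j = i0 ∨ j = i0 + 1 ∨ j = i0 + 2 by omega) with rfl | rfl | rfl
      · exact hSS h0
      · exact hSS h1
      · exact hSS h2
  have m1 := hfill (i + 1) (by omega) (by omega)
  have m2 := hfill (i + 2) (by omega) (by omega)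
  have m3 := hfill (i + 3) (by omega) (by omega)
  have gen : ∀ w, w ∉ S' → IsP4 G {w, f (i + 1), f (i + 2), f (i + 3)} →
      ∃ v, v ∉ S' ∧ ∃ A ∈ P4s G (insert v S'), v ∈ A := by
    intro w hw hA
    refine ⟨w, hw, _, mem_P4s.2 ⟨?_, hA⟩, mem_insert_self _ _⟩
    intro z hz
    simp only [mem_insert, mem_singleton] at hz
    rcases hz with rfl | rfl | rfl | rfl
    · exact mem_insert_self _ _
    · exact mem_insert_of_mem m1
    · exact mem_insert_of_mem m2
    · exact mem_insert_of_mem m3
  have a12 := hC.ad (i + 1) (i + 2) (by omega) (by omega)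
  have a13 := hC.ad (i + 1) (i + 3) (by omega) (by omega)
  have a23 := hC.ad (i + 2) (i + 3) (by omega) (by omega)
  rw [if_pos (by omega)] at a12 a23
  rw [if_neg (by omega)] at a13
  have n12 := hC.ne (i + 1) (i + 2) (by omega) (by omega)
  have n13 := hC.ne (i + 1) (i + 3) (by omega) (by omega)
  have n23 := hC.ne (i + 2) (i + 3) (by omega) (by omega)
  by_cases hb : β (i + 3) = β (i + 1)
  · have a01 := hC.ad i (i + 1) (by omega) (by omega)
    have a02 := hC.ad i (i + 2) (by omega) (by omega)
    have a03 := hC.ad i (i + 3) (by omega) (by omega)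
    rw [if_pos (by omega)] at a01
    rw [if_neg (by omega)] at a02 a03
    rw [← hb] at a01
    exact gen (f i) hi'.2 (four (hC.ne _ _ (by omega) (by omega)) (hC.ne _ _ (by omega) (by omega))
      (hC.ne _ _ (by omega) (by omega)) n12 n13 n23 a01 a02 a12 a03 a13 a23)
  · have a01 := hC.ad k (i + 1) (by omega) (by omega)
    have a02 := hC.ad k (i + 2) (by omega) (by omega)
    have a03 := hC.ad k (i + 3) (by omega) (by omega)
    rw [if_neg (by omega)] at a01
    rw [if_neg (by omega)] at a02 a03
    have hb' : β (i + 1) = true ↔ β (i + 3) = false := by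
      cases h1 : β (i + 1) <;> cases h2 : β (i + 3) <;> simp_all
    rw [hb'] at a01
    exact gen (f k) hk'.2 (four (hC.ne _ _ (by omega) (by omega)) (hC.ne _ _ (by omega) (by omega))
      (hC.ne _ _ (by omega) (by omega)) n12 n13 n23 a01 a02 a12 a03 a13 a23)

/-- child relation -/
def Chd (G : SimpleGraph V) (a : V) (lev : V → ℕ) (v u : V) : Prop :=
  lev v = lev u + 1 ∧ ¬ (G.Adj v u ↔ G.Adj v a)

lemma Ly.chn {G : SimpleGraph V} {a b : V} {lev : V → ℕ} {c : V → V} (h : Ly G a b lev c) {m : ℕ}
    {f : ℕ → V} (h0 : f 0 = a) (h1 : f 1 = b) (hl : ∀ j, 1 ≤ j → j < m → lev (f j) = j - 1)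
    (hr : ∀ j, 1 ≤ j → j + 1 < m → ¬ (G.Adj (f (j + 1)) (f j) ↔ G.Adj (f (j + 1)) a)) :
    Chn G m f (bch G a f) := by
  constructor
  · intro i j hij hj
    by_cases hi : i = 0
    · subst hi
      rw [h0]
      by_cases hj1 : j = 1
      · subst hj1
        rw [h1]; exact h.ne
      · intro he
        have h1 := hl j (by omega) (by omega)
        rw [← he, h.lev_a] at h1
        omega
    · intro he
      have h1 := hl j (by omega) (by omega)
      have h2 := hl i (by omega) (by omega)
      rw [← he] at h1
      omega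
  · intro i j hij hj
    by_cases hi : i = 0
    · subst hi
      rw [h0, G.adj_comm]
      by_cases hj1 : j = 1
      · subst hj1
        simp [bch]
      · simp only [bch, show ¬ (0 + 1 = j) by omega, hj1, if_false, decide_eq_true_eq]
    · by_cases hij1 : i + 1 = j
      · subst hij1
        simp only [if_true, bch, show ¬ (i + 1 = 1) by omega, if_false, decide_eq_false_iff_not]
        have h2 := hr i (by omega) hj
        rw [G.adj_comm]
        tauto
      · simp only [bch, if_neg hij1, show ¬ (j = 1) by omega, if_false, decide_eq_true_eq]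
        rw [G.adj_comm]
        apply h.hom
        rw [hl i (by omega) (by omega), hl j (by omega) hj]
        omega

/-- the chain below `z` prolonged by three vertices -/
def fext (a : V) (c : V → V) (t : ℕ) (z x1 x2 x3 : V) (j : ℕ) : V :=
  if j ≤ t + 1 then fch a c t z j else if j = t + 2 then x1 else if j = t + 3 then x2 else x3

lemma Ly.chext {G : SimpleGraph V} {a b : V} {lev : V → ℕ} {c : V → V} (h : Ly G a b lev c)
    {z x1 x2 x3 : V} (hz : 1 ≤ lev z) (h1 : Chd G a lev x1 z) (h2 : Chd G a lev x2 x1)
    (h3 : Chd G a lev x3 x2) :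
    Chn G (lev z + 5) (fext a c (lev z) z x1 x2 x3) (bch G a (fext a c (lev z) z x1 x2 x3)) := by
  set t := lev z with ht
  have e2 : fext a c t z x1 x2 x3 (t + 2) = x1 := by simp [fext]
  have e3 : fext a c t z x1 x2 x3 (t + 3) = x2 := by simp [fext]
  have e4 : fext a c t z x1 x2 x3 (t + 4) = x3 := by simp [fext]
  have el : ∀ j, j ≤ t + 1 → fext a c t z x1 x2 x3 j = fch a c t z j := by
    intro j hj; simp [fext, hj]
  have ez : fch a c t z (t + 1) = z := by simp [fch]
  obtain ⟨l1, r1⟩ := h1
  obtain ⟨l2, r2⟩ := h2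
  obtain ⟨l3, r3⟩ := h3
  apply h.chn
  · rw [el 0 (by omega)]; simp [fch]
  · rw [el 1 (by omega)]; exact h.fch_one hz
  · intro j hj1 hj2
    by_cases hj : j ≤ t + 1
    · rw [el j hj]; exact h.fch_lev hj1 hj
    · rcases (show j = t + 2 ∨ j = t + 3 ∨ j = t + 4 by omega) with rfl | rfl | rfl
      · rw [e2, l1]; omega
      · rw [e3, l2, l1]; omega
      · rw [e4, l3, l2, l1]; omega
  · intro j hj1 hj2
    by_cases hj : j ≤ t
    · rw [el j (by omega), el (j + 1) (by omega), h.fch_succ hj1 hj]
      exact (h.ch _ (by rw [h.fch_lev (by omega) (by omega)]; omega)).2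
    · rcases (show j = t + 1 ∨ j = t + 2 ∨ j = t + 3 by omega) with rfl | rfl | rfl
      · rw [e2, el (t + 1) le_rfl, ez]; exact r1
      · rw [e3, e2]; exact r2
      · rw [e4, e3]; exact r3

theorem ylem {G : SimpleGraph V} {q : ℕ} (hq : 8 ≤ q) (hF : Few G q) {a b : V} {lev : V → ℕ}
    {c : V → V} (h : Ly G a b lev c) {z x1 x2 x3 y1 y2 y3 : V} (hz : q + 3 ≤ lev z)
    (hx1 : Chd G a lev x1 z) (hx2 : Chd G a lev x2 x1) (hx3 : Chd G a lev x3 x2)
    (hy1 : Chd G a lev y1 z) (hy2 : Chd G a lev y2 y1) (hy3 : Chd G a lev y3 y2)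
    (n1 : x1 ≠ y1) (n2 : x2 ≠ y2) (n3 : x3 ≠ y3) : False := by
  obtain ⟨s, hs⟩ : ∃ s, lev z = s + 2 := ⟨lev z - 2, by omega⟩
  set A := fext a c (lev z) z x1 x2 x3 with hA
  set B := fext a c (lev z) z y1 y2 y3 with hB
  have cA := h.chext (by omega) hx1 hx2 hx3
  have cB := h.chext (by omega) hy1 hy2 hy3
  rw [← hA] at cA
  rw [← hB] at cB
  rw [hs] at cA cB
  set bA := bch G a A with hbA
  set bB := bch G a B with hbB
  have low : ∀ j, j ≤ s + 3 → B j = A j := by
    intro j hj
    have : j ≤ lev z + 1 := by omega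
    simp only [hA, hB, fext, this, if_true]
  have A4 : A (s + 4) = x1 := by simp [hA, fext, hs]
  have A5 : A (s + 5) = x2 := by simp [hA, fext, hs]
  have A6 : A (s + 6) = x3 := by simp [hA, fext, hs]
  have B4 : B (s + 4) = y1 := by simp [hB, fext, hs]
  have B5 : B (s + 5) = y2 := by simp [hB, fext, hs]
  have B6 : B (s + 6) = y3 := by simp [hB, fext, hs]
  have lx1 : lev x1 = s + 3 := by rw [hx1.1, hs]
  have lx2 : lev x2 = s + 4 := by rw [hx2.1, lx1]
  have lx3 : lev x3 = s + 5 := by rw [hx3.1, lx2]
  have ly1 : lev y1 = s + 3 := by rw [hy1.1, hs]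
  have ly2 : lev y2 = s + 4 := by rw [hy2.1, ly1]
  have ly3 : lev y3 = s + 5 := by rw [hy3.1, ly2]
  let F : ℕ → V := fun i => if i < 7 then A (s + i) else B (s + (i - 3))
  let v : ℕ → Bool := fun i => if i < 7 then bA (s + i) else if i < 10 then bB (s + (i - 3)) else
    if i = 10 then decide (G.Adj x1 y1) else if i = 11 then decide (G.Adj x1 y2) else
    if i = 12 then decide (G.Adj x2 y1) else if i = 13 then decide (G.Adj x2 y2) else
    if i = 14 then decide (G.Adj x2 y3) else if i = 15 then decide (G.Adj x3 y2) else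
    decide (G.Adj x3 y3)
  have hdom : ∀ i, d10 i = true → i < 10 := by
    intro i hi; simpa [d10] using hi
  have F4 : F 4 = x1 := by simp [F, A4]
  have F5 : F 5 = x2 := by simp [F, A5]
  have F6 : F 6 = x3 := by simp [F, A6]
  have F7 : F 7 = y1 := by simp [F, B4]
  have F8 : F 8 = y2 := by simp [F, B5]
  have F9 : F 9 = y3 := by simp [F, B6]
  have hR : Rl G t6 d10 v F := by
    have key : ∀ i j, i < j → j < 10 → (j < 7) ∨ (i ≤ 3 ∧ 7 ≤ j) ∨ (7 ≤ i) ∨
        (4 ≤ i ∧ i ≤ 6 ∧ 7 ≤ j) := by
      intro i j h1 h2; omega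
    constructor
    · intro i j hi hj hij
      have hj' := hdom j hj
      rcases key i j hij hj' with h1 | ⟨h1, h2⟩ | h1 | ⟨h1, h2, h3⟩
      · have hi7 : i < 7 := by omega
        simp only [F, hi7, h1, if_true]
        rw [cA.ad (s + i) (s + j) (by omega) (by omega)]
        have : t6 i j = if i + 1 = j then 2 * j + 1 else 2 * j := by
          have e1 : (Nat.ble 7 j) = false := by
            rw [← Bool.not_eq_true, Nat.ble_eq]; omega
          have e2 : (Nat.beq j 7) = false := by
            rw [← Bool.not_eq_true, Nat.beq_eq]; omega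
          simp [t6, e1, e2, Nat.beq_eq]
        rw [this]
        by_cases h2 : i + 1 = j
        · rw [if_pos (by omega), if_pos h2, lv_odd]
          simp [v, h1]
        · rw [if_neg (by omega), if_neg h2, lv_even]
          simp [v, h1]
      · have hi7 : i < 7 := by omega
        have hj7 : ¬ j < 7 := by omega
        simp only [F, hi7, hj7, if_true, if_false]
        rw [← low (s + i) (by omega), cB.ad (s + i) (s + (j - 3)) (by omega) (by omega)]
        have : t6 i j = if i + 1 = j - 3 then 2 * j + 1 else 2 * j := by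
          have e1 : (Nat.ble 4 i) = false := by
            rw [← Bool.not_eq_true, Nat.ble_eq]; omega
          rcases (show j = 7 ∨ j = 8 ∨ j = 9 by omega) with rfl | rfl | rfl <;>
          · rcases (show i = 0 ∨ i = 1 ∨ i = 2 ∨ i = 3 by omega) with rfl | rfl | rfl | rfl <;> rfl
        rw [this]
        by_cases h3 : i + 1 = j - 3
        · rw [if_pos (by omega), if_pos h3, lv_odd]
          simp [v, hj7, hj']
        · rw [if_neg (by omega), if_neg h3, lv_even]
          simp [v, hj7, hj']
      · have hi7 : ¬ i < 7 := by omega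
        have hj7 : ¬ j < 7 := by omega
        simp only [F, hi7, hj7, if_true, if_false]
        rw [cB.ad (s + (i - 3)) (s + (j - 3)) (by omega) (by omega)]
        have : t6 i j = if i + 1 = j then 2 * j + 1 else 2 * j := by
          rcases (show j = 8 ∨ j = 9 by omega) with rfl | rfl
          · obtain rfl : i = 7 := by omega
            rfl
          · rcases (show i = 7 ∨ i = 8 by omega) with rfl | rfl <;> rfl
        rw [this]
        by_cases h3 : i + 1 = j
        · rw [if_pos (by omega), if_pos h3, lv_odd]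
          simp [v, hj7, hj']
        · rw [if_neg (by omega), if_neg h3, lv_even]
          simp [v, hj7, hj']
      · rcases (show i = 4 ∨ i = 5 ∨ i = 6 by omega) with rfl | rfl | rfl <;>
        rcases (show j = 7 ∨ j = 8 ∨ j = 9 by omega) with rfl | rfl | rfl
        · rw [F4, F7, show t6 4 7 = 2 * 10 from rfl, lv_even]; simp [v]
        · rw [F4, F8, show t6 4 8 = 2 * 11 from rfl, lv_even]; simp [v]
        · rw [F4, F9, show t6 4 9 = 2 * 9 from rfl, lv_even]
          simp only [v, show ¬ (9 < 7) by omega, show 9 < 10 by omega, if_true, if_false,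
            show 9 - 3 = 6 by omega, hbB, bch, show ¬ (s + 6 = 1) by omega, B6, decide_eq_true_eq]
          rw [G.adj_comm]
          apply h.hom; omega
        · rw [F5, F7, show t6 5 7 = 2 * 12 from rfl, lv_even]; simp [v]
        · rw [F5, F8, show t6 5 8 = 2 * 13 from rfl, lv_even]; simp [v]
        · rw [F5, F9, show t6 5 9 = 2 * 14 from rfl, lv_even]; simp [v]
        · rw [F6, F7, show t6 6 7 = 2 * 6 from rfl, lv_even]
          simp only [v, show (6 < 7) by omega, if_true, hbA, bch, show ¬ (s + 6 = 1) by omega, A6,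
            decide_eq_true_eq, if_false]
          apply h.hom; omega
        · rw [F6, F8, show t6 6 8 = 2 * 15 from rfl, lv_even]; simp [v]
        · rw [F6, F9, show t6 6 9 = 2 * 16 from rfl, lv_even]; simp [v]
    · intro i j hi hj hij
      have hj' := hdom j hj
      rcases key i j hij hj' with h1 | ⟨h1, h2⟩ | h1 | ⟨h1, h2, h3⟩
      · have hi7 : i < 7 := by omega
        simp only [F, hi7, h1, if_true]
        exact cA.ne _ _ (by omega) (by omega)
      · have hi7 : i < 7 := by omega
        have hj7 : ¬ j < 7 := by omega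
        simp only [F, hi7, hj7, if_true, if_false]
        rw [← low (s + i) (by omega)]
        exact cB.ne _ _ (by omega) (by omega)
      · have hi7 : ¬ i < 7 := by omega
        have hj7 : ¬ j < 7 := by omega
        simp only [F, hi7, hj7, if_true, if_false]
        exact cB.ne _ _ (by omega) (by omega)
      · rcases (show i = 4 ∨ i = 5 ∨ i = 6 by omega) with rfl | rfl | rfl <;>
        rcases (show j = 7 ∨ j = 8 ∨ j = 9 by omega) with rfl | rfl | rfl
        · rw [F4, F7]; exact n1
        · rw [F4, F8]; intro he; rw [he] at lx1; omega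
        · rw [F4, F9]; intro he; rw [he] at lx1; omega
        · rw [F5, F7]; intro he; rw [he] at lx2; omega
        · rw [F5, F8]; exact n2
        · rw [F5, F9]; intro he; rw [he] at lx2; omega
        · rw [F6, F7]; intro he; rw [he] at lx3; omega
        · rw [F6, F8]; intro he; rw [he] at lx3; omega
        · rw [F6, F9]; exact n3
  obtain ⟨kn, N, e, hk, hl⟩ := chk_sound v (ex := fun _ => false) (fun _ h => by simp at h) c6 [] c6_ok
    (by simp)
  obtain ⟨g1, g2, g3⟩ := leaf_facts hR hk hl
  set S := (supp (pieces 7 N)).toFinset.image F with hS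
  have hmS : ∀ i, i ∈ supp (pieces 7 N) → F i ∈ S := fun i hi => mem_image.2 ⟨i, by simpa using hi, rfl⟩
  simp only [ok6, Nat.blt_eq] at g3
  by_cases he : e < 8
  · simp only [he, if_true, Bool.and_eq_true, inl_iff, Nat.ble_eq] at g3
    obtain ⟨e4, m0, m1, m2⟩ := g3
    refine chain_ext (by omega) hF cA (i0 := s + e) (by omega) (by omega) (g1.trans (by omega)) (by omega)
      ?_ ?_ ?_
    · have := hmS _ m0
      simpa [F, show e < 7 by omega] using this
    · have := hmS _ m1
      simpa [F, show e + 1 < 7 by omega, add_assoc] using this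
    · have := hmS _ m2
      simpa [F, show e + 2 < 7 by omega, add_assoc] using this
  · simp only [he, if_false, Bool.and_eq_true, inl_iff, Nat.ble_eq, Bool.false_eq_true] at g3
    obtain ⟨e4, m0, m1, m2⟩ := g3
    have hFB : ∀ k, k ≤ 6 → F (chB k) = B (s + k) := by
      intro k hk
      by_cases h3 : k ≤ 3
      · have : chB k = k := by simp [chB, h3]
        rw [this]
        simp only [F, show k < 7 by omega, if_true]
        exact (low _ (by omega)).symm
      · have : chB k = k + 3 := by simp [chB, h3]
        rw [this]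
        simp only [F, show ¬ (k + 3 < 7) by omega, if_false]
        rw [show k + 3 - 3 = k by omega]
    refine chain_ext (by omega) hF cB (i0 := s + (e - 8)) (by omega) (by omega) (g1.trans (by omega))
      (by omega) ?_ ?_ ?_
    · have := hmS _ m0
      rwa [hFB _ (by omega)] at this
    · have := hmS _ m1
      rw [hFB _ (by omega)] at this
      rwa [show s + (e - 8) + 1 = s + (e - 7) by omega]
    · have := hmS _ m2
      rw [hFB _ (by omega)] at this
      rwa [show s + (e - 8) + 2 = s + (e - 6) by omega]

end Pool.Agent.H60
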